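import Pool.Agent.J6H90.WT.Loc

/-!
# Project WT: base change to the complex numbers
-/

set_option autoImplicit false

namespace Pool.Agent.J6H90.WT

open NumberField Filter Topology Pool.Agent.W401.Cheb Pool.Agent.W569.FM
open Pool.Agent.R401.Tr3 Pool.Agent.R401.Tr5 Pool.Agent.R401.Sup3 Pool.Agent.R401.Sup4
open Pool.Agent.R401.Sup (c_ne c_inv)
open Polynomial Matrix

set_option linter.unusedSectionVars false

section mat

variable {F : Type} [Field F] {n : ℕ} (e : F →+* ℂ)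

theorem tr_map (A : Matrix (Fin n) (Fin n) F) : (A.map e).trace = e A.trace := by
  rw [Matrix.trace, Matrix.trace, map_sum]
  rfl

theorem smul_map (c : F) (A : Matrix (Fin n) (Fin n) F) : (c • A).map e = e c • A.map e := by
  ext i j
  simp

theorem mul_map (A B : Matrix (Fin n) (Fin n) F) : (A * B).map e = A.map e * B.map e :=
  Matrix.map_mul

theorem one_map : (1 : Matrix (Fin n) (Fin n) F).map e = 1 := by
  rw [← RingHom.mapMatrix_apply, map_one]

theorem zero_map : (0 : Matrix (Fin n) (Fin n) F).map e = 0 := by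
  rw [← RingHom.mapMatrix_apply, map_zero]

theorem sub_map (A B : Matrix (Fin n) (Fin n) F) : (A - B).map e = A.map e - B.map e := by
  rw [← RingHom.mapMatrix_apply, map_sub]
  rfl

theorem add_map (A B : Matrix (Fin n) (Fin n) F) : (A + B).map e = A.map e + B.map e := by
  rw [← RingHom.mapMatrix_apply, map_add]
  rfl

theorem pow_map (A : Matrix (Fin n) (Fin n) F) (k : ℕ) : (A ^ k).map e = A.map e ^ k := by
  rw [← RingHom.mapMatrix_apply, map_pow]
  rfl

theorem aeval_map_mat (A : Matrix (Fin n) (Fin n) F) (L : F[X]) :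
    (aeval A L).map e = aeval (A.map e) (L.map e) := by
  induction L using Polynomial.induction_on' with
  | add p q hp hq => rw [map_add, add_map, hp, hq, Polynomial.map_add, map_add]
  | monomial k c =>
    rw [aeval_monomial, Polynomial.map_monomial, aeval_monomial, Algebra.algebraMap_eq_smul_one,
      Algebra.algebraMap_eq_smul_one, smul_mul_assoc, smul_mul_assoc, one_mul, one_mul, smul_map,
      pow_map]

theorem isNilpotent_map {A : Matrix (Fin n) (Fin n) F} (h : IsNilpotent A) :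
    IsNilpotent (A.map e) := by
  have := h.map (e.mapMatrix (m := Fin n))
  exact this

theorem exp_map [CharZero F] {A : Matrix (Fin n) (Fin n) F} (h : IsNilpotent A) :
    (IsNilpotent.exp A).map e = IsNilpotent.exp (A.map e) :=
  IsNilpotent.map_exp h (e.mapMatrix (m := Fin n))

end mat

/-- generalized inverses -/
theorem exists_ginv {F : Type} [Field F] {n : ℕ} (N : Matrix (Fin n) (Fin n) F) :
    ∃ S : Matrix (Fin n) (Fin n) F, N * S * N = N := by
  set f := Matrix.toLin' N with hf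
  obtain ⟨s, hs⟩ := f.rangeRestrict.exists_rightInverse_of_surjective f.range_rangeRestrict
  obtain ⟨p, hp⟩ := LinearMap.exists_leftInverse_of_injective (LinearMap.range f).subtype
    (Submodule.ker_subtype _)
  refine ⟨LinearMap.toMatrix' (s ∘ₗ p), ?_⟩
  apply Matrix.toLin'.injective
  rw [Matrix.toLin'_mul, Matrix.toLin'_mul, Matrix.toLin'_toMatrix', ← hf]
  refine LinearMap.ext fun x => ?_
  have h1 : p (f x) = f.rangeRestrict x := LinearMap.congr_fun hp (f.rangeRestrict x)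
  have h2 : f.rangeRestrict (s (f.rangeRestrict x)) = f.rangeRestrict x :=
    LinearMap.congr_fun hs (f.rangeRestrict x)
  rw [LinearMap.comp_apply, LinearMap.comp_apply, LinearMap.comp_apply, h1]
  exact congrArg Subtype.val h2

section

variable {K : Type} [Field K] [NumberField K]

variable {ℓ : ℕ} [Fact ℓ.Prime] {n m : ℕ}

/-- base change -/
noncomputable def mc (e : ℚ_[ℓ] →+* ℂ) {n : ℕ} (V : GK K →* Matrix (Fin n) (Fin n) ℚ_[ℓ]) :
    GK K →* Matrix (Fin n) (Fin n) ℂ :=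
  (e.mapMatrix (m := Fin n)).toMonoidHom.comp V

theorem mc_apply (e : ℚ_[ℓ] →+* ℂ) {n : ℕ} (V : GK K →* Matrix (Fin n) (Fin n) ℚ_[ℓ]) (g : GK K) :
    mc e V g = (V g).map e := rfl

/-- the character -/
noncomputable def cc (e : ℚ_[ℓ] →+* ℂ) (u : ℤ) : GK K →* ℂ where
  toFun g := e (cyc K ℓ ℚ_[ℓ] g ^ (-u))
  map_one' := by rw [map_one, _root_.one_zpow, map_one]
  map_mul' x y := by rw [map_mul, mul_zpow, map_mul]

theorem cc_apply (e : ℚ_[ℓ] →+* ℂ) (u : ℤ) (g : GK K) :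
    cc e u g = e (cyc K ℓ ℚ_[ℓ] g ^ (-u)) := rfl

variable {V : GK K →* Matrix (Fin n) (Fin n) ℚ_[ℓ]} {W : GK K →* Matrix (Fin m) (Fin m) ℚ_[ℓ]}
  {u : ℤ} {φ : GK K → ℚ} {U : Subgroup (GK K)} (hU : ∀ x ∈ U, ∀ y, φ (x * y) = φ y)
  (hφ : ∀ y : GK K, cyc K ℓ ℚ_[ℓ] y ^ u * ((V y).trace - (W y).trace) = (φ y : ℚ_[ℓ]))
  {P : Ideal (OO K)} (hP : P.IsMaximal) {q : ℕ} (hq : 2 ≤ q) {σ : GK K} (hσ : FrobAt q P σ)
  (hℓP : (ℓ : OO K) ∉ P) {w : ℤ} (hw : w = 2 * u ∨ ∀ y, φ y = 0)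
  {H : Subgroup (GK K)} {τ0 : GK K} {NV : Matrix (Fin n) (Fin n) ℚ_[ℓ]}
  {NW : Matrix (Fin m) (Fin m) ℚ_[ℓ]} (hHU : H ≤ U) (h : LD V W w q P H τ0 NV NW)
  (hnd : ∀ z ∈ Submodule.span ℚ_[ℓ] (Set.range W), (∀ g, (z * W g).trace = 0) → z = 0)

include hU hφ in
theorem tr_mul {x : GK K} (hx : x ∈ U) (y : GK K) :
    (V (x * y)).trace - (W (x * y)).trace =
      cyc K ℓ ℚ_[ℓ] x ^ (-u) * ((V y).trace - (W y).trace) := by
  have h1 := hφ (x * y)
  rw [hU x hx y, ← hφ y, map_mul, mul_zpow] at h1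
  have hx0 : cyc K ℓ ℚ_[ℓ] x ^ u ≠ 0 := zpow_ne_zero _ (c_ne _ x)
  have hy0 : cyc K ℓ ℚ_[ℓ] y ^ u ≠ 0 := zpow_ne_zero _ (c_ne _ y)
  rw [_root_.zpow_neg, eq_inv_mul_iff_mul_eq₀ hx0]
  have h2 : cyc K ℓ ℚ_[ℓ] y ^ u * (cyc K ℓ ℚ_[ℓ] x ^ u *
      ((V (x * y)).trace - (W (x * y)).trace)) = cyc K ℓ ℚ_[ℓ] y ^ u *
      ((V y).trace - (W y).trace) := by
    rw [← h1]
    ring
  exact mul_left_cancel₀ hy0 h2

include hU hφ hP hq hσ hℓP hw hHU h hnd in
theorem dat (hbc : S_BC) (e : ℚ_[ℓ] →+* ℂ) :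
    Dat (mc e V) (mc e W) (cc e u) H σ τ0 H.index q w (NV.map e) (NW.map e) := by
  have hfin : Finite (GK K ⧸ H) := Subgroup.quotient_finite_of_isOpen _ h.hHo
  have hfi : H.FiniteIndex := Subgroup.finiteIndex_of_finite_quotient
  have hHn := h.hHn
  have hcσ := Pool.Agent.R401.Tr9.cyc_sigma (ℓ := ℓ) hP hσ hℓP
  exact {
    hT := by
      intro x hx y
      rw [mc_apply, mc_apply, mc_apply, mc_apply, cc_apply, tr_map, tr_map, tr_map, tr_map,
        ← map_sub, tr_mul hU hφ (hHU hx), map_mul, map_sub]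
    hnd := by
      intro z hz hz0
      exact hbc ℚ_[ℓ] e m (GK K) W hnd z hz hz0
    hM := Nat.pos_of_ne_zero hfi.index_ne_zero
    hs := Subgroup.pow_index_mem H σ
    hτ := h.hτ
    hcτ := by
      rw [cc_apply, cyc_inertia hP hℓP hσ h.hτI, _root_.one_zpow, map_one]
    hq := hq
    hc := by
      rcases hw with hw | hw
      · left
        have h1 : cc (K := K) e u (σ⁻¹ ^ H.index) = ((q : ℂ) ^ u) ^ H.index := by
          rw [map_pow, cc_apply, c_inv, hcσ, _root_.inv_zpow, _root_.zpow_neg, inv_inv, map_zpow₀,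
            map_natCast]
        rw [h1, norm_pow, norm_zpow, Complex.norm_natCast, hw, ← pow_mul, mul_comm H.index 2,
          pow_mul, ← zpow_natCast ((q : ℝ) ^ u) 2, ← _root_.zpow_mul, mul_comm u]
        rfl
      · right
        intro y
        have h1 := hφ y
        rw [hw, Rat.cast_zero] at h1
        have h2 := (mul_eq_zero.1 h1).resolve_left (zpow_ne_zero _ (c_ne _ y))
        rw [mc_apply, mc_apply, tr_map, tr_map, ← sub_eq_zero, ← map_sub, h2, map_zero]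
    hN := by
      obtain ⟨L, hL1, hLV, hLW⟩ := h.hL
      refine ⟨L.map e, ?_, ?_, ?_⟩
      · rw [Polynomial.eval_map, ← map_one e, Polynomial.eval₂_at_apply, hL1, map_zero]
      · rw [mc_apply, ← aeval_map_mat, hLV]
      · rw [mc_apply, ← aeval_map_mat, hLW]
    hVq := by
      rw [mc_apply, ← mul_map, h.hVq σ hσ, smul_map, mul_map, map_natCast]
    hWq := by
      rw [mc_apply, ← mul_map, h.hWq σ hσ, smul_map, mul_map, map_natCast] }

include hU hφ hP hq hℓP hw hHU h hnd in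
theorem wm_V (hbc : S_BC) (hwmt : S_WMT) : MonoWM V w q P := by
  refine ⟨NV, H, h.hNV, h.hHo, ⟨τ0, h.hτ, h.hτI, h.hVτ⟩, fun τ hτ hτI => ?_, fun g hg e => ?_⟩
  · obtain ⟨t, ht, -⟩ := h.hall τ hτ hτI
    exact ⟨t, ht⟩
  · exact hwmt (GK K) n m (mc e V) (mc e W) (cc e u) H g τ0 H.index q w (NV.map e) (NW.map e)
      (dat hU hφ hP hq hg hℓP hw hHU h hnd hbc e) (h.hWM g hg e)

include hU hφ hP hq hσ hℓP hw hHU h hnd in
theorem kt_local (hbc : S_BC) (hkt : S_KT) (e : ℚ_[ℓ] →+* ℂ)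
    {SV : Matrix (Fin n) (Fin n) ℚ_[ℓ]} {SW : Matrix (Fin m) (Fin m) ℚ_[ℓ]}
    (hSV : NV * SV * NV = NV) (hSW : NW * SW * NW = NW) {τ : GK K} (hτ : InInertia P τ) (k : ℕ) :
    (V (σ⁻¹ ^ k * τ) * (1 - SV * NV)).trace - (W (σ⁻¹ ^ k * τ) * (1 - SW * NW)).trace =
      (V (σ⁻¹ ^ k * τ)).trace - (W (σ⁻¹ ^ k * τ)).trace := by
  have hHn := h.hHn
  have hfin : Finite (GK K ⧸ H) := Subgroup.quotient_finite_of_isOpen _ h.hHo
  have hfi : H.FiniteIndex := Subgroup.finiteIndex_of_finite_quotient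
  have hq1 : 1 ≤ q := by omega
  set M := H.index with hM
  -- the commutator
  set c : GK K := σ ^ M * τ⁻¹ * (σ ^ M)⁻¹ * τ with hc
  have hcI : InInertia P c := mul_inertia (conj_pow_inertia hq1 hσ (inv_inertia hτ) M) hτ
  have hcH : c ∈ H := by
    have h1 : c = σ ^ M * (τ⁻¹ * (σ ^ M)⁻¹ * τ) := by rw [hc]; group
    rw [h1]
    refine H.mul_mem (Subgroup.pow_index_mem H σ) ?_
    have h2 := hHn.conj_mem _ (H.inv_mem (Subgroup.pow_index_mem H σ)) τ⁻¹
    rwa [inv_inv] at h2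
  obtain ⟨t, htV, htW⟩ := h.hall c hcH hcI
  have hcc : τ⁻¹ * (σ⁻¹ ^ M * τ) = σ⁻¹ ^ M * c := by
    rw [hc, _root_.inv_pow]
    group
  have h1 := hkt (GK K) n m (mc e V) (mc e W) (cc e u) H σ τ0 M q w (NV.map e) (NW.map e)
    (dat hU hφ hP hq hσ hℓP hw hHU h hnd hbc e) (h.hWM σ hσ e) (isNilpotent_map e h.hNV)
    (isNilpotent_map e h.hNW) τ k
    (by rw [mc_apply, ← mul_map, ← mul_map, h.hVI τ hτ])
    (by rw [mc_apply, ← mul_map, ← mul_map, h.hWI τ hτ])
    ⟨e t, by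
      rw [hcc, map_mul, mc_apply e V c, htV, exp_map e (h.hNV.smul t), smul_map]⟩
    ⟨e t, by
      rw [hcc, map_mul, mc_apply e W c, htW, exp_map e (h.hNW.smul t), smul_map]⟩
    ((1 - SV * NV).map e) ((1 - SW * NW).map e)
    (by rw [← mul_map, mul_sub, mul_one, ← mul_assoc, hSV, sub_self, zero_map])
    (by rw [← mul_map, mul_sub, mul_one, ← mul_assoc, hSW, sub_self, zero_map])
    (by
      intro x hx
      rw [sub_map, one_map, mul_map, Matrix.sub_mulVec, Matrix.one_mulVec, ← Matrix.mulVec_mulVec,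
        hx, Matrix.mulVec_zero, sub_zero])
    (by
      intro x hx
      rw [sub_map, one_map, mul_map, Matrix.sub_mulVec, Matrix.one_mulVec, ← Matrix.mulVec_mulVec,
        hx, Matrix.mulVec_zero, sub_zero])
  rw [mc_apply, mc_apply, ← mul_map, ← mul_map, tr_map, tr_map, tr_map, tr_map, ← map_sub,
    ← map_sub] at h1
  exact e.injective h1

end

end Pool.Agent.J6H90.WT
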