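import Pool.Agent.J6H90.WT.Tr

/-!
# Project WT: families; integrality
-/

set_option autoImplicit false

namespace Pool.Agent.J6H90.WT

open NumberField Filter Topology Pool.Agent.W401.Cheb Pool.Agent.W569.FM Pool.Agent.R401.Img
open Pool.Agent.R401.Tr3 Pool.Agent.R401.Tr5 Pool.Agent.R401.Sup3 Pool.Agent.R401.Sup4
open Pool.Agent.R401.Sup (c_ne c_inv continuous_mt)
open Pool.Agent.R401.Tr4 (coeff_eq cf trace_pow coeff_prod_integral natDegree_charpolyRev)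
open Pool.Agent.R401.Tr9 (mh mh_apply)
open Pool.Agent.R401.Tr10 (tn trace_eq_tn)
open Polynomial Matrix Module

set_option linter.unusedSectionVars false

section nondeg

variable {F : Type} [Field F] [CharZero F] {n : ℕ} {G : Type} [Group G]

/-- the trace form of a semisimple representation -/
theorem nondeg (ρ : G →* GL (Fin n) F) (hss : SS ρ) :
    ∀ z ∈ Submodule.span F (Set.range (mh ρ)), (∀ g, (z * mh ρ g).trace = 0) → z = 0 := by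
  classical
  intro z hz hz0
  have hk' : ∀ m : ℕ, 0 < m → m ≤ finrank F (Fin n → F) → (m : F) ≠ 0 :=
    fun m h1 _ => Nat.cast_ne_zero.2 h1.ne'
  have h0 : Matrix.toLin' z = 0 := by
    refine Pool.Agent.R401.Burn.eq_zero_of_trace hk' (act ρ) (fun W hW => hss.act W hW) ?_
      fun g => ?_
    · have h1 : Submodule.map (Matrix.toLin' : Matrix (Fin n) (Fin n) F ≃ₗ[F] _).toLinearMap
          (Submodule.span F (Set.range (mh ρ))) = Submodule.span F (Set.range (act ρ)) := by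
        rw [Submodule.map_span]
        congr 1
        ext x
        constructor
        · rintro ⟨_, ⟨g, rfl⟩, rfl⟩
          exact ⟨g, rfl⟩
        · rintro ⟨g, rfl⟩
          exact ⟨mh ρ g, ⟨g, rfl⟩, rfl⟩
      rw [← h1]
      exact Submodule.mem_map_of_mem hz
    · have h2 : Matrix.toLin' z * act ρ g = Matrix.toLin' (z * mh ρ g) := by
        rw [Matrix.toLin'_mul]
        rfl
      rw [h2, Matrix.trace_toLin'_eq]
      exact hz0 g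
  exact (LinearEquiv.map_eq_zero_iff _).1 h0

end nondeg

section integral

/-- eigenvalues that are integral -/
theorem int_eig {r r' : ℕ} {S : Matrix (Fin r) (Fin r) ℂ} {R : Matrix (Fin r') (Fin r') ℂ} {M : ℕ}
    (hM : 0 < M) {D : ℂ} (hD : IsIntegral ℤ D)
    (htr : ∀ k, (S ^ (M * k)).trace - (R ^ (M * k)).trace = D ^ k * (r - r'))
    (hR : ∀ z ∈ spectrum ℂ R, IsIntegral ℤ z) :
    ∀ z ∈ spectrum ℂ S, IsIntegral ℤ z := by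
  intro z hz
  have hblock : ∀ (A : Matrix (Fin r) (Fin r) ℂ) (B : Matrix (Fin r') (Fin r') ℂ) (k : ℕ),
      ((fromBlocks A 0 0 B) ^ k).trace = (A ^ k).trace + (B ^ k).trace := by
    intro A B k
    rw [fromBlocks_diagonal_pow]
    simp [Matrix.trace, Fintype.sum_sum_type]
  have h1 : (fromBlocks (S ^ M) 0 0 (D • (1 : Matrix (Fin r') (Fin r') ℂ))).charpoly =
      (fromBlocks (D • (1 : Matrix (Fin r) (Fin r) ℂ)) 0 0 (R ^ M)).charpoly := by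
    apply Pool.Agent.TH658.Eq.charpoly_eq_of_traces
    intro k
    rw [hblock, hblock, ← pow_mul, ← pow_mul, _root_.smul_pow, _root_.smul_pow, one_pow, one_pow,
      Matrix.trace_smul, Matrix.trace_smul, Matrix.trace_one, Matrix.trace_one, Fintype.card_fin,
      Fintype.card_fin, smul_eq_mul, smul_eq_mul]
    linear_combination htr k
  rw [charpoly_fromBlocks_zero₁₂, charpoly_fromBlocks_zero₁₂] at h1
  have h2 : z ^ M ∈ spectrum ℂ (S ^ M) := by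
    rw [spectrum.map_pow_of_pos _ hM]
    exact ⟨z, hz, rfl⟩
  have h3 : (S ^ M).charpoly.IsRoot (z ^ M) := Matrix.mem_spectrum_iff_isRoot_charpoly.1 h2
  have h4 : ((D • (1 : Matrix (Fin r) (Fin r) ℂ)).charpoly * (R ^ M).charpoly).IsRoot (z ^ M) := by
    rw [← h1]
    exact root_mul_right_of_isRoot _ h3
  rcases root_mul.1 h4 with h5 | h5
  · have h6 : z ^ M = D := by
      have h7 := Matrix.mem_spectrum_iff_isRoot_charpoly.2 h5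
      by_contra hne
      apply h7
      change IsUnit (algebraMap ℂ (Matrix (Fin r) (Fin r) ℂ) (z ^ M) - D • 1)
      rw [show algebraMap ℂ (Matrix (Fin r) (Fin r) ℂ) (z ^ M) - D • 1 = (z ^ M - D) • 1 by
        rw [Algebra.algebraMap_eq_smul_one, sub_smul]]
      exact ((Units.mk0 (z ^ M - D) (sub_ne_zero.2 hne)) • (1 : (Matrix (Fin r) (Fin r) ℂ)ˣ)).isUnit
    apply IsIntegral.of_pow hM
    rwa [h6]
  · have h7 := Matrix.mem_spectrum_iff_isRoot_charpoly.2 h5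
    rw [spectrum.map_pow_of_pos _ hM] at h7
    obtain ⟨y, hy, hyz⟩ := h7
    have hyz' : y ^ M = z ^ M := hyz
    apply IsIntegral.of_pow hM
    rw [← hyz']
    exact (hR y hy).pow M

/-- the coefficients of the characteristic polynomial and of its reverse -/
theorem coeff_charpolyRev {L : Type} [Field L] {r : ℕ} (A : Matrix (Fin r) (Fin r) L) (k : ℕ) :
    A.charpolyRev.coeff k = A.charpoly.coeff (revAt r k) := by
  rw [← Matrix.reverse_charpoly, coeff_reverse, Matrix.charpoly_natDegree_eq_dim, Fintype.card_fin]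

theorem coeff_charpoly {L : Type} [Field L] {r : ℕ} (A : Matrix (Fin r) (Fin r) L) (k : ℕ) :
    A.charpoly.coeff k = A.charpolyRev.coeff (revAt r k) := by
  rw [coeff_charpolyRev, revAt_invol]

theorem int_spec {L : Type} [Field L] [CharZero L] {r : ℕ} (A : Matrix (Fin r) (Fin r) L)
    (f : ℤ[X]) (hA : A.charpolyRev = f.map (Int.castRingHom L)) (e : L →+* ℂ) :
    ∀ z ∈ spectrum ℂ (A.map e), IsIntegral ℤ z := by
  have h1 : ∀ k, A.charpoly.coeff k ∈ Set.range (Int.castRingHom L) := by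
    intro k
    rw [coeff_charpoly, hA, coeff_map]
    exact ⟨_, rfl⟩
  have h2 : A.charpoly ∈ lifts (Int.castRingHom L) := (lifts_iff_coeff_lifts _).2 h1
  obtain ⟨g, hg⟩ := (mem_lifts _).1 h2
  intro z hz
  have h3 := Matrix.mem_spectrum_iff_isRoot_charpoly.1 hz
  rw [Matrix.charpoly_map, ← hg, Polynomial.map_map] at h3
  refine ⟨g, monic_of_injective (f := Int.castRingHom L) (Int.cast_injective) (by
    rw [hg]
    exact Matrix.charpoly_monic A), ?_⟩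
  rw [IsRoot, eval_map] at h3
  have h4 : e.comp (Int.castRingHom L) = algebraMap ℤ ℂ := Subsingleton.elim _ _
  rwa [h4] at h3

theorem int_coeff {L : Type} [Field L] [CharZero L] {r : ℕ} (A : Matrix (Fin r) (Fin r) L)
    (f : ℚ[X]) (hA : A.charpolyRev = f.map (Rat.castHom L)) (e : L →+* ℂ)
    (hz : ∀ z ∈ spectrum ℂ (A.map e), IsIntegral ℤ z) :
    ∃ g : ℤ[X], f = g.map (Int.castRingHom ℚ) := by
  have hroot : ∀ z ∈ (A.map e).charpoly.roots, IsIntegral ℤ z := by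
    intro z hz1
    exact hz z (Matrix.mem_spectrum_iff_isRoot_charpoly.2
      ((mem_roots (A.map e).charpoly_monic.ne_zero).1 hz1))
  have hsplit : (A.map e).charpoly = ((A.map e).charpoly.roots.map fun z => X - C z).prod :=
    (IsAlgClosed.splits (A.map e).charpoly).eq_prod_roots_of_monic (A.map e).charpoly_monic
  have h1 : ∀ k, f.coeff k ∈ Set.range (Int.castRingHom ℚ) := by
    intro k
    have h3 := coeff_prod_integral (A.map e).charpoly.roots hroot (revAt r k)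
    rw [← hsplit, Matrix.charpoly_map, coeff_map, ← coeff_charpolyRev, hA, coeff_map] at h3
    have h4 : e (Rat.castHom L (f.coeff k)) = algebraMap ℚ ℂ (f.coeff k) := by
      rw [← RingHom.comp_apply]
      congr 1
      exact Subsingleton.elim _ _
    rw [h4] at h3
    have h5 := (isIntegral_algebraMap_iff (algebraMap ℚ ℂ).injective).1 h3
    obtain ⟨y, hy⟩ := IsIntegrallyClosed.isIntegral_iff.1 h5
    exact ⟨y, hy⟩
  obtain ⟨g, hg⟩ := (mem_lifts _).1 ((lifts_iff_coeff_lifts _).2 h1)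
  exact ⟨g, hg.symm⟩

end integral

section fam

variable {K : Type} [Field K] [NumberField K] {n m : ℕ}

theorem exists_emb (ℓ : ℕ) [Fact ℓ.Prime] : ∃ _ : ℚ_[ℓ] →+* ℂ, True := by
  obtain ⟨e⟩ := Pool.Agent.R401.Iso.exists_iso ℓ
  exact ⟨(e : PadicAlgCl ℓ →+* ℂ).comp (algebraMap ℚ_[ℓ] (PadicAlgCl ℓ)), trivial⟩

theorem sk_mul {φ : GK K → ℚ} {U : Subgroup (GK K)} (hUn : U.Normal)
    (hU : ∀ x ∈ U, ∀ y, φ (x * y) = φ y) (P : Ideal (OO K)) (D : ℚ) (g : GK K) (k : ℕ) :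
    Pool.Agent.R401.Tr6.sk φ U P D g (U.index * k) =
      (D ^ U.index) ^ k * Pool.Agent.R401.Tr6.sk φ U P D g 0 := by
  unfold Pool.Agent.R401.Tr6.sk
  have h1 : ∀ x : IG P ⧸ U.subgroupOf (IG P), φ (g ^ (U.index * k) * ((x.out : IG P) : GK K)) =
      φ (g ^ 0 * ((x.out : IG P) : GK K)) := by
    intro x
    rw [pow_zero, one_mul]
    refine hU _ ?_ _
    rw [pow_mul]
    exact U.pow_mem (Subgroup.pow_index_mem U g) k
  rw [finsum_congr h1, pow_zero D, one_mul, pow_mul]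

/-- the traces on the invariants -/
theorem tr_inv (hlog : S_LOG) (hexpk : S_EXPK) (hcyc : S_CYC) (hrel : S_REL) (hbc : S_BC)
    (hkt : S_KT) {ℓ : ℕ} [Fact ℓ.Prime]
    {V : GK K →* Matrix (Fin n) (Fin n) ℚ_[ℓ]} (hV : Continuous V)
    {W : GK K →* Matrix (Fin m) (Fin m) ℚ_[ℓ]} (hW : Continuous W) {u : ℤ}
    {φ : GK K → ℚ} {U : Subgroup (GK K)} (hUn : U.Normal) (hUo : IsOpen (U : Set (GK K)))
    (hU : ∀ x ∈ U, ∀ y, φ (x * y) = φ y)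
    (hφ : ∀ y : GK K, cyc K ℓ ℚ_[ℓ] y ^ u * ((V y).trace - (W y).trace) = (φ y : ℚ_[ℓ]))
    {P : Ideal (OO K)} (hP : P.IsMaximal) {q : ℕ} (hq : 2 ≤ q) {σ : GK K} (hσ : FrobAt q P σ)
    (hℓP : (ℓ : OO K) ∉ P) {w : ℤ} (hw : w = 2 * u ∨ ∀ y, φ y = 0) (hMW : MonoWM W w q P)
    (hnd : ∀ z ∈ Submodule.span ℚ_[ℓ] (Set.range W), (∀ g, (z * W g).trace = 0) → z = 0)
    {I : Submodule ℚ_[ℓ] (Fin n → ℚ_[ℓ])} (hI : ∀ x, x ∈ I ↔ ∀ τ, InInertia P τ → V τ *ᵥ x = x)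
    {J : Submodule ℚ_[ℓ] (Fin m → ℚ_[ℓ])} (hJ : ∀ x, x ∈ J ↔ ∀ τ, InInertia P τ → W τ *ᵥ x = x)
    {r r' : ℕ} (b : Basis (Fin r) ℚ_[ℓ] I) (A : Matrix (Fin r) (Fin r) ℚ_[ℓ])
    (hA : ∀ j, V σ⁻¹ *ᵥ (b j : Fin n → ℚ_[ℓ]) = ∑ i, A i j • (b i : Fin n → ℚ_[ℓ]))
    (b' : Basis (Fin r') ℚ_[ℓ] J) (A' : Matrix (Fin r') (Fin r') ℚ_[ℓ])
    (hA' : ∀ j, W σ⁻¹ *ᵥ (b' j : Fin m → ℚ_[ℓ]) = ∑ i, A' i j • (b' i : Fin m → ℚ_[ℓ])) (k : ℕ) :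
    (A ^ k).trace - (A' ^ k).trace =
      (Pool.Agent.R401.Tr6.sk φ U P ((q : ℚ) ^ u) σ⁻¹ k : ℚ_[ℓ]) := by
  obtain ⟨H, τ0, NV, NW, hHU, h⟩ := exists_LD hlog hcyc hrel hV hW hUn hUo hU hφ hP
    (by omega : 1 ≤ q) hσ hℓP hMW
  obtain ⟨SV, hSV⟩ := exists_ginv NV
  obtain ⟨SW, hSW⟩ := exists_ginv NW
  obtain ⟨e, -⟩ := exists_emb ℓ
  have hallV : ∀ τ ∈ H, InInertia P τ → ∃ t : ℚ_[ℓ], V τ = IsNilpotent.exp (t • NV) := by
    intro τ hτ hτI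
    obtain ⟨t, ht, -⟩ := h.hall τ hτ hτI
    exact ⟨t, ht⟩
  have hallW : ∀ τ ∈ H, InInertia P τ → ∃ t : ℚ_[ℓ], W τ = IsNilpotent.exp (t • NW) := by
    intro τ hτ hτI
    obtain ⟨t, -, ht⟩ := h.hall τ hτ hτI
    exact ⟨t, ht⟩
  rw [trace_pow (proj_mem hexpk h.hHo h.hNV hSV hallV hI)
      (proj_fix hexpk h.hHo h.hNV h.hτI h.hVτ hI) b hA,
    trace_pow (proj_mem hexpk h.hHo h.hNW hSW hallW hJ)
      (proj_fix hexpk h.hHo h.hNW h.hτI h.hWτ hJ) b' hA']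
  exact tr_diff hUn hU hφ hP hq hσ hℓP hw hHU h hnd hbc hkt e hSV hSW k

/-- the weight-monodromy property of `V` -/
theorem wm_fam (hlog : S_LOG) (hcyc : S_CYC) (hrel : S_REL) (hbc : S_BC)
    (hwmt : S_WMT) {ℓ : ℕ} [Fact ℓ.Prime]
    {V : GK K →* Matrix (Fin n) (Fin n) ℚ_[ℓ]} (hV : Continuous V)
    {W : GK K →* Matrix (Fin m) (Fin m) ℚ_[ℓ]} (hW : Continuous W) {u : ℤ}
    {φ : GK K → ℚ} {U : Subgroup (GK K)} (hUn : U.Normal) (hUo : IsOpen (U : Set (GK K)))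
    (hU : ∀ x ∈ U, ∀ y, φ (x * y) = φ y)
    (hφ : ∀ y : GK K, cyc K ℓ ℚ_[ℓ] y ^ u * ((V y).trace - (W y).trace) = (φ y : ℚ_[ℓ]))
    {P : Ideal (OO K)} (hP : P.IsMaximal) {q : ℕ} (hq : 2 ≤ q) {σ : GK K} (hσ : FrobAt q P σ)
    (hℓP : (ℓ : OO K) ∉ P) {w : ℤ} (hw : w = 2 * u ∨ ∀ y, φ y = 0) (hMW : MonoWM W w q P)
    (hnd : ∀ z ∈ Submodule.span ℚ_[ℓ] (Set.range W), (∀ g, (z * W g).trace = 0) → z = 0) :
    ∃ (N : Matrix (Fin n) (Fin n) ℚ_[ℓ]) (H : Subgroup (GK K)), IsNilpotent N ∧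
    IsOpen (H : Set (GK K)) ∧ (∃ τ ∈ H, InInertia P τ ∧ V τ = IsNilpotent.exp N) ∧
    (∀ τ ∈ H, InInertia P τ → ∃ t : ℚ_[ℓ], V τ = IsNilpotent.exp (t • N)) ∧
    ∀ g, FrobAt q P g → N * V g⁻¹ = (q : ℚ_[ℓ]) • (V g⁻¹ * N) ∧
      ∀ e : ℚ_[ℓ] →+* ℂ, WM ((V g⁻¹).map e) (N.map e) q w := by
  obtain ⟨H, τ0, NV, NW, hHU, h⟩ := exists_LD hlog hcyc hrel hV hW hUn hUo hU hφ hP
    (by omega : 1 ≤ q) hσ hℓP hMW
  refine ⟨NV, H, h.hNV, h.hHo, ⟨τ0, h.hτ, h.hτI, h.hVτ⟩, fun τ hτ hτI => ?_, fun g hg =>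
    ⟨h.hVq g hg, fun e => ?_⟩⟩
  · obtain ⟨t, ht, -⟩ := h.hall τ hτ hτI
    exact ⟨t, ht⟩
  · exact hwmt (GK K) n m (mc e V) (mc e W) (cc e u) H g τ0 H.index q w (NV.map e) (NW.map e)
      (dat hU hφ hP hq hg hℓP hw hHU h hnd hbc e) (h.hWM g hg e)

/-- **The local factor.** -/
theorem loc (hlog : S_LOG) (hexpk : S_EXPK) (hcyc : S_CYC) (hrel : S_REL) (hbc : S_BC)
    (hkt : S_KT) (V : ∀ (ℓ : ℕ) [Fact ℓ.Prime], GK K →* GL (Fin n) ℚ_[ℓ])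
    (hV : ∀ (ℓ : ℕ) [Fact ℓ.Prime], Continuous (V ℓ))
    (W : ∀ (ℓ : ℕ) [Fact ℓ.Prime], GK K →* GL (Fin m) ℚ_[ℓ])
    (hW : ∀ (ℓ : ℕ) [Fact ℓ.Prime], Continuous (W ℓ))
    (hss : ∀ (ℓ : ℕ) [Fact ℓ.Prime], SS (W ℓ)) (u : ℤ)
    (φ : GK K → ℚ) (U : Subgroup (GK K)) (hUn : U.Normal) (hUo : IsOpen (U : Set (GK K)))
    (hU : ∀ x ∈ U, ∀ y, φ (x * y) = φ y)
    (hφ : ∀ (ℓ : ℕ) [Fact ℓ.Prime] (y : GK K),
      cyc K ℓ ℚ_[ℓ] y ^ u * ((mt (V ℓ) y).trace - (mt (W ℓ) y).trace) = (φ y : ℚ_[ℓ]))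
    {w : ℤ} (hw : w = 2 * u ∨ ∀ y, φ y = 0)
    {P : Ideal (OO K)} (hP : P.IsMaximal) {q : ℕ} (hq : 2 ≤ q) {σ : GK K} (hσ : FrobAt q P σ)
    (hMW : ∀ (ℓ : ℕ) [Fact ℓ.Prime], (ℓ : OO K) ∉ P → MonoWM (mh (W ℓ)) w q P)
    (I : ∀ (ℓ : ℕ) [Fact ℓ.Prime], Submodule ℚ_[ℓ] (Fin n → ℚ_[ℓ]))
    (hI : ∀ (ℓ : ℕ) [Fact ℓ.Prime] (x : Fin n → ℚ_[ℓ]),
      x ∈ I ℓ ↔ ∀ τ, InInertia P τ → mt (V ℓ) τ *ᵥ x = x)
    (J : ∀ (ℓ : ℕ) [Fact ℓ.Prime], Submodule ℚ_[ℓ] (Fin m → ℚ_[ℓ]))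
    (hJ : ∀ (ℓ : ℕ) [Fact ℓ.Prime] (x : Fin m → ℚ_[ℓ]),
      x ∈ J ℓ ↔ ∀ τ, InInertia P τ → mt (W ℓ) τ *ᵥ x = x)
    (f : ℚ[X]) (hf : ∀ (ℓ : ℕ) [Fact ℓ.Prime], (ℓ : OO K) ∉ P →
      ∀ (r : ℕ) (b : Basis (Fin r) ℚ_[ℓ] (J ℓ)) (A : Matrix (Fin r) (Fin r) ℚ_[ℓ]),
        (∀ j, mt (W ℓ) σ⁻¹ *ᵥ (b j : Fin m → ℚ_[ℓ]) = ∑ i, A i j • (b i : Fin m → ℚ_[ℓ])) →
        A.charpolyRev = f.map (Rat.castHom ℚ_[ℓ])) :
    ∃ f' : ℚ[X], (∀ (ℓ : ℕ) [Fact ℓ.Prime], (ℓ : OO K) ∉ P →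
      ∀ (r : ℕ) (b : Basis (Fin r) ℚ_[ℓ] (I ℓ)) (A : Matrix (Fin r) (Fin r) ℚ_[ℓ]),
        (∀ j, mt (V ℓ) σ⁻¹ *ᵥ (b j : Fin n → ℚ_[ℓ]) = ∑ i, A i j • (b i : Fin n → ℚ_[ℓ])) →
        A.charpolyRev = f'.map (Rat.castHom ℚ_[ℓ])) ∧
      (0 ≤ w → (∃ g : ℤ[X], f = g.map (Int.castRingHom ℚ)) →
        ∃ g : ℤ[X], f' = g.map (Int.castRingHom ℚ)) := by
  classical
  have key : ∀ (ℓ : ℕ) [Fact ℓ.Prime], (ℓ : OO K) ∉ P → ∀ {r r' : ℕ}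
      (b : Basis (Fin r) ℚ_[ℓ] (I ℓ)) (A : Matrix (Fin r) (Fin r) ℚ_[ℓ])
      (_ : ∀ j, mt (V ℓ) σ⁻¹ *ᵥ (b j : Fin n → ℚ_[ℓ]) = ∑ i, A i j • (b i : Fin n → ℚ_[ℓ]))
      (b' : Basis (Fin r') ℚ_[ℓ] (J ℓ)) (A' : Matrix (Fin r') (Fin r') ℚ_[ℓ])
      (_ : ∀ j, mt (W ℓ) σ⁻¹ *ᵥ (b' j : Fin m → ℚ_[ℓ]) =
        ∑ i, A' i j • (b' i : Fin m → ℚ_[ℓ])) (k : ℕ),
      (A ^ k).trace - (A' ^ k).trace =
        (Pool.Agent.R401.Tr6.sk φ U P ((q : ℚ) ^ u) σ⁻¹ k : ℚ_[ℓ]) := by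
    intro ℓ _ hℓP r r' b A hA b' A' hA' k
    exact tr_inv hlog hexpk hcyc hrel hbc hkt
      (V := mh (V ℓ)) (continuous_mt (V ℓ) (hV ℓ)) (W := mh (W ℓ)) (continuous_mt (W ℓ) (hW ℓ))
      hUn hUo hU (hφ ℓ) hP hq hσ hℓP hw (hMW ℓ hℓP) (nondeg (W ℓ) (hss ℓ)) (hI ℓ) (hJ ℓ) b A hA b'
      A' hA' k
  set s : ℕ → ℚ := fun k => match k with
    | 0 => 0
    | k + 1 => tn (fun i => f.coeff i) k +
      Pool.Agent.R401.Tr6.sk φ U P ((q : ℚ) ^ u) σ⁻¹ (k + 1) with hs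
  have hcoeff : ∀ (ℓ : ℕ) [Fact ℓ.Prime], (ℓ : OO K) ∉ P →
      ∀ (r : ℕ) (b : Basis (Fin r) ℚ_[ℓ] (I ℓ)) (A : Matrix (Fin r) (Fin r) ℚ_[ℓ]),
        (∀ j, mt (V ℓ) σ⁻¹ *ᵥ (b j : Fin n → ℚ_[ℓ]) = ∑ i, A i j • (b i : Fin n → ℚ_[ℓ])) →
        ∀ k, A.charpolyRev.coeff k = (cf s k : ℚ_[ℓ]) := by
    intro ℓ _ hℓP r b A hA k
    obtain ⟨r', b', A', hA'⟩ := Pool.Agent.R401.Tr6.exists_basis (W ℓ) hq hσ (hJ ℓ)
    apply coeff_eq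
    intro k
    have h1 := key ℓ hℓP b A hA b' A' hA' (k + 1)
    have h2 : (A' ^ (k + 1)).trace = (tn (fun i => f.coeff i) k : ℚ_[ℓ]) := by
      refine trace_eq_tn A' _ (fun i => ?_) k
      rw [hf ℓ hℓP r' b' A' hA', coeff_map]
      rfl
    rw [h2] at h1
    simp only [hs]
    push_cast
    linear_combination h1
  obtain ⟨ℓ₀, hℓ₀, hℓ₀P⟩ := Pool.Agent.R401.Tr6.exists_prime_not_mem hP
  have : Fact ℓ₀.Prime := ⟨hℓ₀⟩
  obtain ⟨r₀, b₀, A₀, hA₀⟩ := Pool.Agent.R401.Tr6.exists_basis (V ℓ₀) hq hσ (hI ℓ₀)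
  obtain ⟨r₁, b₁, A₁, hA₁⟩ := Pool.Agent.R401.Tr6.exists_basis (W ℓ₀) hq hσ (hJ ℓ₀)
  have hzero : ∀ k, r₀ < k → cf s k = 0 := by
    intro k hk
    have h1 := hcoeff ℓ₀ hℓ₀P r₀ b₀ A₀ hA₀ k
    rw [coeff_eq_zero_of_natDegree_lt (lt_of_le_of_lt (natDegree_charpolyRev A₀) hk)] at h1
    exact_mod_cast h1.symm
  have hfac : ∀ (ℓ : ℕ) [Fact ℓ.Prime], (ℓ : OO K) ∉ P →
      ∀ (r : ℕ) (b : Basis (Fin r) ℚ_[ℓ] (I ℓ)) (A : Matrix (Fin r) (Fin r) ℚ_[ℓ]),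
        (∀ j, mt (V ℓ) σ⁻¹ *ᵥ (b j : Fin n → ℚ_[ℓ]) = ∑ i, A i j • (b i : Fin n → ℚ_[ℓ])) →
        A.charpolyRev = (∑ k ∈ Finset.range (r₀ + 1), C (cf s k) * X ^ k).map
          (Rat.castHom ℚ_[ℓ]) := by
    intro ℓ _ hℓP r b A hA
    refine Polynomial.ext fun k => ?_
    rw [hcoeff ℓ hℓP r b A hA k, coeff_map, finsetSum_coeff]
    simp only [coeff_C_mul, coeff_X_pow, mul_ite, mul_one, mul_zero]
    rw [Finset.sum_ite_eq]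
    split_ifs with hk
    · rfl
    · rw [Finset.mem_range] at hk
      rw [hzero k (by omega), Rat.cast_zero, map_zero]
  refine ⟨_, hfac, ?_⟩
  rintro hw0 ⟨g, hg⟩
  obtain ⟨e, -⟩ := exists_emb ℓ₀
  have hfin : Finite (GK K ⧸ U) := Subgroup.quotient_finite_of_isOpen _ hUo
  have hfi : U.FiniteIndex := Subgroup.finiteIndex_of_finite_quotient
  have hM : 0 < U.index := Nat.pos_of_ne_zero hfi.index_ne_zero
  refine int_coeff A₀ _ (hfac ℓ₀ hℓ₀P r₀ b₀ A₀ hA₀) e ?_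
  have hA₁i : ∀ z ∈ spectrum ℂ (A₁.map e), IsIntegral ℤ z := by
    refine int_spec A₁ g ?_ e
    rw [hf ℓ₀ hℓ₀P r₁ b₁ A₁ hA₁, hg, Polynomial.map_map]
    congr 1
  have hkey : ∀ k, ((A₀.map e) ^ (U.index * k)).trace - ((A₁.map e) ^ (U.index * k)).trace =
      ((((q : ℚ) ^ u) ^ U.index : ℚ) : ℂ) ^ k * ((r₀ : ℂ) - r₁) := by
    intro k
    have h1 := key ℓ₀ hℓ₀P b₀ A₀ hA₀ b₁ A₁ hA₁ (U.index * k)
    have h2 := key ℓ₀ hℓ₀P b₀ A₀ hA₀ b₁ A₁ hA₁ 0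
    rw [sk_mul hUn hU] at h1
    rw [pow_zero, pow_zero, Matrix.trace_one, Matrix.trace_one, Fintype.card_fin,
      Fintype.card_fin] at h2
    rw [← pow_map, ← pow_map, tr_map, tr_map, ← map_sub, h1, Rat.cast_mul, ← h2, map_mul, map_sub,
      map_natCast, map_natCast, map_ratCast]
    push_cast
    rfl
  rcases hw with hw | hw
  · refine int_eig hM ?_ hkey hA₁i
    have hu0 : 0 ≤ u := by omega
    obtain ⟨u', rfl⟩ := Int.eq_ofNat_of_zero_le hu0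
    have h3 : ((((q : ℚ) ^ ((u' : ℕ) : ℤ)) ^ U.index : ℚ) : ℂ) =
        algebraMap ℤ ℂ (((q : ℤ) ^ u') ^ U.index) := by
      push_cast
      rfl
    rw [h3]
    exact isIntegral_algebraMap
  · refine int_eig (D := 1) hM isIntegral_one ?_ hA₁i
    intro k
    have h1 := key ℓ₀ hℓ₀P b₀ A₀ hA₀ b₁ A₁ hA₁ (U.index * k)
    have h2 := key ℓ₀ hℓ₀P b₀ A₀ hA₀ b₁ A₁ hA₁ 0
    have h4 : ∀ j, Pool.Agent.R401.Tr6.sk φ U P ((q : ℚ) ^ u) σ⁻¹ j = 0 := by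
      intro j
      unfold Pool.Agent.R401.Tr6.sk
      simp only [hw, finsum_zero, mul_zero]
    rw [h4, Rat.cast_zero] at h1 h2
    rw [pow_zero, pow_zero, Matrix.trace_one, Matrix.trace_one, Fintype.card_fin,
      Fintype.card_fin] at h2
    have h5 : (r₀ : ℂ) - r₁ = 0 := by
      have := congrArg e h2
      rwa [map_sub, map_natCast, map_natCast, map_zero] at this
    rw [h5, mul_zero, ← pow_map, ← pow_map, tr_map, tr_map, ← map_sub, h1, map_zero]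

end fam

end Pool.Agent.J6H90.WT
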