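import Pool.Agent.J6H90.WT.Stm

/-!
# WT-WS: the spaces `ws A S`
-/

set_option autoImplicit false

open Matrix Polynomial

namespace Pool.Agent.J6H90.WT

namespace PWS

theorem mem_ws {n : ℕ} {A : Matrix (Fin n) (Fin n) ℂ} {S : Set ℂ} {x : Fin n → ℂ} :
    x ∈ ws A S ↔ ∃ p : ℂ[X], p ≠ 0 ∧ (∀ z, p.IsRoot z → z ∈ S) ∧ aeval A p *ᵥ x = 0 := Iff.rfl

theorem cop {r s : ℂ[X]} {S : Set ℂ} (hr : ∀ z, r.IsRoot z → z ∈ S)
    (hs : ∀ z, s.IsRoot z → z ∉ S) : IsCoprime r s := by
  rw [Polynomial.isCoprime_iff_aeval_ne_zero_of_isAlgClosed ℂ ℂ]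
  intro z
  by_contra hcon
  push Not at hcon
  exact hs z hcon.2 (hr z hcon.1)

theorem split (r : ℂ[X]) (hr : r ≠ 0) (S : Set ℂ) : ∃ r1 r2 : ℂ[X], r = r1 * r2 ∧ r1 ≠ 0 ∧
    r2 ≠ 0 ∧ (∀ z, r1.IsRoot z → z ∈ S) ∧ (∀ z, r2.IsRoot z → z ∉ S) := by
  classical
  have h1 : r = C r.leadingCoeff * (r.roots.map fun z => X - C z).prod :=
    (IsAlgClosed.splits r).eq_prod_roots
  have h2 : r.roots = r.roots.filter (· ∈ S) + r.roots.filter (fun z => ¬ z ∈ S) :=
    (Multiset.filter_add_not _ _).symm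
  have hlc : r.leadingCoeff ≠ 0 := leadingCoeff_ne_zero.2 hr
  have hm : ∀ s : Multiset ℂ, (s.map fun z => X - C z).prod ≠ 0 := fun s =>
    (monic_multisetProd_X_sub_C s).ne_zero
  refine ⟨C r.leadingCoeff * ((r.roots.filter (· ∈ S)).map fun z => X - C z).prod,
    ((r.roots.filter (fun z => ¬ z ∈ S)).map fun z => X - C z).prod, ?_, ?_, hm _, ?_, ?_⟩
  · conv_lhs => rw [h1, h2]
    rw [Multiset.map_add, Multiset.prod_add, mul_assoc]
  · exact mul_ne_zero (C_ne_zero.2 hlc) (hm _)
  · intro z hz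
    rw [IsRoot.def, eval_mul, eval_C] at hz
    have h3 : IsRoot ((r.roots.filter (· ∈ S)).map fun z => X - C z).prod z := by
      rcases mul_eq_zero.1 hz with h | h
      · exact absurd h hlc
      · exact h
    have h4 := (mem_roots (hm _)).2 h3
    rw [roots_multiset_prod_X_sub_C] at h4
    exact (Multiset.mem_filter.1 h4).2
  · intro z hz
    have h4 := (mem_roots (hm _)).2 hz
    rw [roots_multiset_prod_X_sub_C] at h4
    exact (Multiset.mem_filter.1 h4).2

section

variable {n : ℕ} {A : Matrix (Fin n) (Fin n) ℂ}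

theorem mv_mul (p q : ℂ[X]) (x : Fin n → ℂ) : aeval A (p * q) *ᵥ x = aeval A p *ᵥ (aeval A q *ᵥ x) := by
  rw [map_mul, ← mulVec_mulVec]

/-- killed by two coprime polynomials -/
theorem eq_zero_of_cop {r s : ℂ[X]} (h : IsCoprime r s) {x : Fin n → ℂ} (hr : aeval A r *ᵥ x = 0)
    (hs : aeval A s *ᵥ x = 0) : x = 0 := by
  obtain ⟨a, b, hab⟩ := h
  have h1 : aeval A (a * r + b * s) *ᵥ x = x := by rw [hab, map_one, one_mulVec]
  rw [map_add, add_mulVec, mv_mul, mv_mul, hr, hs, mulVec_zero, mulVec_zero, add_zero] at h1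
  exact h1.symm

theorem char_zero {P : ℂ[X]} (h : A.charpoly ∣ P) (x : Fin n → ℂ) : aeval A P *ᵥ x = 0 := by
  obtain ⟨Q, rfl⟩ := h
  rw [mul_comm, mv_mul, Matrix.aeval_self_charpoly, zero_mulVec, mulVec_zero]

/-- one matrix -/
theorem one {P P1 P2 a b : ℂ[X]} {S : Set ℂ} (hP : P = P1 * P2) (h0 : P1 ≠ 0)
    (h1 : ∀ z, P1.IsRoot z → z ∈ S) (h2 : ∀ z, P2.IsRoot z → z ∉ S) (hab : a * P1 + b * P2 = 1)
    (hA : A.charpoly ∣ P) :
    (∀ x ∈ ws A S, aeval A (b * P2) *ᵥ x = x) ∧ (∀ x, aeval A (b * P2) *ᵥ x ∈ ws A S) := by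
  constructor
  · rintro x ⟨r, -, hr, hx⟩
    have h3 : aeval A P1 *ᵥ x = 0 := by
      apply eq_zero_of_cop (cop hr h2)
      · rw [← mv_mul, mul_comm, mv_mul, hx, mulVec_zero]
      · rw [← mv_mul, mul_comm, ← hP]
        exact char_zero hA x
    have h4 : b * P2 = 1 - a * P1 := by rw [← hab]; ring
    rw [h4, map_sub, sub_mulVec, map_one, one_mulVec, mv_mul, h3, mulVec_zero, sub_zero]
  · intro x
    refine ⟨P1, h0, h1, ?_⟩
    rw [← mv_mul, show P1 * (b * P2) = b * (P1 * P2) by ring, ← hP, mv_mul, char_zero hA, mulVec_zero]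

end

end PWS

open PWS

theorem ws1 : S_WS1 := by
  intro n m A B c S
  have hP0 : A.charpoly * B.charpoly * (X - C c) ≠ 0 :=
    mul_ne_zero (mul_ne_zero A.charpoly_monic.ne_zero B.charpoly_monic.ne_zero) (X_sub_C_ne_zero c)
  obtain ⟨P1, P2, hP, h10, h20, h1, h2⟩ := split _ hP0 S
  obtain ⟨a, b, hab⟩ := cop h1 h2
  have hA := one (A := A) hP h10 h1 h2 hab
    (Dvd.dvd.mul_right (Dvd.intro _ rfl) _)
  have hB := one (A := B) hP h10 h1 h2 hab
    (Dvd.dvd.mul_right (Dvd.intro_left _ rfl) _)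
  have hc : P1.eval c * P2.eval c = 0 := by
    rw [← eval_mul, ← hP, eval_mul, eval_sub, eval_X, eval_C, sub_self, mul_zero]
  refine ⟨b * P2, hA.1, hA.2, hB.1, hB.2, fun h => ?_, fun h => ?_⟩
  · have h3 : P1.eval c = 0 := by
      rcases mul_eq_zero.1 hc with h4 | h4
      · exact h4
      · exact absurd h (h2 c h4)
    have h4 : b * P2 = 1 - a * P1 := by rw [← hab]; ring
    rw [h4, eval_sub, eval_one, eval_mul, h3, mul_zero, sub_zero]
  · have h3 : P2.eval c = 0 := by
      rcases mul_eq_zero.1 hc with h4 | h4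
      · exact absurd (h1 c h4) h
      · exact h4
    rw [eval_mul, h3, mul_zero]

theorem ws2 : S_WS2 := by
  classical
  intro n A M hM S
  ext x
  constructor
  · rintro ⟨r, hr0, hr, hx⟩
    have h1 : r = C r.leadingCoeff * (r.roots.map fun z => X - C z).prod :=
      (IsAlgClosed.splits r).eq_prod_roots
    have hlc : r.leadingCoeff ≠ 0 := leadingCoeff_ne_zero.2 hr0
    refine ⟨(r.roots.map fun z => X - C (z ^ M)).prod, ?_, ?_, ?_⟩
    · have := (monic_multisetProd_X_sub_C (r.roots.map fun z => z ^ M)).ne_zero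
      rwa [Multiset.map_map] at this
    · intro z hz
      have h2 : (r.roots.map fun z => X - C (z ^ M)).prod =
          ((r.roots.map fun z => z ^ M).map fun z => X - C z).prod := by
        rw [Multiset.map_map]
        rfl
      rw [h2] at hz
      have h4 := (mem_roots (monic_multisetProd_X_sub_C _).ne_zero).2 hz
      rw [roots_multiset_prod_X_sub_C, Multiset.mem_map] at h4
      obtain ⟨y, hy, rfl⟩ := h4
      exact hr y ((mem_roots hr0).1 hy)
    · have h3 : aeval A (r.roots.map fun z => X - C z).prod *ᵥ x = 0 := by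
        rw [h1, mv_mul, aeval_C, Algebra.algebraMap_eq_smul_one, smul_mulVec, one_mulVec] at hx
        exact (smul_eq_zero.1 hx).resolve_left hlc
      have h4 : (r.roots.map fun z => X - C z).prod ∣
          ((r.roots.map fun z => X - C (z ^ M)).prod).comp (X ^ M) := by
        rw [multiset_prod_comp, Multiset.map_map]
        apply Multiset.prod_dvd_prod_of_dvd
        intro z _
        have e1 : (X - C (z ^ M) : ℂ[X]).comp (X ^ M) = X ^ M - (C z) ^ M := by
          rw [sub_comp, X_comp, C_comp, map_pow]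
        change (X - C z : ℂ[X]) ∣ (X - C (z ^ M) : ℂ[X]).comp (X ^ M)
        rw [e1]
        exact sub_dvd_pow_sub_pow (X : ℂ[X]) (C z) M
      obtain ⟨Q, hQ⟩ := h4
      have h5 : aeval (A ^ M) (r.roots.map fun z => X - C (z ^ M)).prod =
          aeval A (((r.roots.map fun z => X - C (z ^ M)).prod).comp (X ^ M)) := by
        rw [aeval_comp, map_pow, aeval_X]
      rw [h5, hQ, mul_comm, mv_mul, h3, mulVec_zero]
  · rintro ⟨r, hr0, hr, hx⟩
    refine ⟨r.comp (X ^ M), ?_, ?_, ?_⟩
    · intro h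
      rw [comp_eq_zero_iff] at h
      rcases h with h | ⟨-, h⟩
      · exact hr0 h
      · have h1 : (X ^ M : ℂ[X]).natDegree = 0 := by rw [h, natDegree_C]
        rw [natDegree_X_pow] at h1
        omega
    · intro z hz
      rw [IsRoot.def, eval_comp, eval_pow, eval_X] at hz
      exact hr _ hz
    · rw [aeval_comp, map_pow, aeval_X]
      exact hx

theorem ws3 : S_WS3 := by
  intro n A N q hq hN S x hx
  obtain ⟨r, hr0, hr, hx⟩ := hx
  have h1 : ∀ p : ℂ[X], N * aeval A p = aeval A (p.comp (C q * X)) * N := by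
    intro p
    have hk : ∀ k : ℕ, N * A ^ k = (q ^ k) • (A ^ k * N) := by
      intro k
      induction k with
      | zero => rw [pow_zero, pow_zero, mul_one, one_smul, one_mul]
      | succ k ih =>
        rw [pow_succ, ← mul_assoc, ih, smul_mul_assoc, mul_assoc, hN, mul_smul_comm, smul_smul,
          mul_assoc, pow_succ]
    induction p using Polynomial.induction_on' with
    | add p r hp hr => rw [map_add, mul_add, hp, hr, add_comp, map_add, add_mul]
    | monomial k a =>
      have e1 : aeval A (C q * X : ℂ[X]) = q • A := by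
        rw [map_mul, aeval_C, aeval_X, Algebra.algebraMap_eq_smul_one, smul_mul_assoc, one_mul]
      rw [monomial_comp, map_mul, aeval_C, map_pow, e1, aeval_monomial,
        Algebra.algebraMap_eq_smul_one, smul_mul_assoc, one_mul, smul_mul_assoc, one_mul,
        mul_smul_comm, hk, _root_.smul_pow, smul_mul_assoc, smul_mul_assoc]
  refine ⟨r.comp (C q * X), ?_, ?_, ?_⟩
  · intro h
    rw [comp_eq_zero_iff] at h
    rcases h with h | ⟨-, h⟩
    · exact hr0 h
    · have h1 : (C q * X : ℂ[X]).natDegree = 0 := by rw [h, natDegree_C]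
      rw [natDegree_C_mul_X _ hq] at h1
      omega
  · intro z hz
    rw [IsRoot.def, eval_comp, eval_mul, eval_C, eval_X] at hz
    exact hr _ hz
  · rw [mulVec_mulVec, ← h1, ← mulVec_mulVec, hx, mulVec_zero]

theorem ws4 : S_WS4 := by
  intro n A S
  constructor
  · intro h
    rw [eq_top_iff]
    rintro x -
    refine ⟨A.charpoly, A.charpoly_monic.ne_zero, fun z hz => ?_, char_zero dvd_rfl x⟩
    exact h z (Matrix.mem_spectrum_iff_isRoot_charpoly.2 hz)
  · intro h z hz
    have hz1 : A.charpoly.IsRoot z := Matrix.mem_spectrum_iff_isRoot_charpoly.1 hz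
    have h1 : (Matrix.scalar (Fin n) z - A).det = 0 := by
      rw [← Matrix.eval_charpoly]
      exact hz1
    obtain ⟨v, hv0, hv⟩ := Matrix.exists_mulVec_eq_zero_iff.2 h1
    have hMv : A.mulVec v = z • v := by
      rw [Matrix.sub_mulVec, sub_eq_zero] at hv
      rw [← hv, Matrix.scalar_apply, ← Matrix.smul_one_eq_diagonal, Matrix.smul_mulVec,
        Matrix.one_mulVec]
    have hpow : ∀ k : ℕ, (A ^ k).mulVec v = z ^ k • v := by
      intro k
      induction k with
      | zero => rw [pow_zero, Matrix.one_mulVec, pow_zero, one_smul]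
      | succ k ih =>
        rw [pow_succ, ← Matrix.mulVec_mulVec, hMv, Matrix.mulVec_smul, ih, smul_smul, pow_succ,
          mul_comm]
    have hev : ∀ p : ℂ[X], (aeval A p).mulVec v = p.eval z • v := by
      intro p
      induction p using Polynomial.induction_on' with
      | add p q hp hq => rw [map_add, Matrix.add_mulVec, hp, hq, eval_add, add_smul]
      | monomial k c =>
        rw [aeval_monomial, Algebra.algebraMap_eq_smul_one, smul_mul_assoc, one_mul, smul_mulVec,
          hpow, smul_smul, eval_monomial]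
    have hv' : v ∈ ws A S := by
      rw [h]
      trivial
    obtain ⟨r, -, hr, hx⟩ := hv'
    rw [hev] at hx
    exact hr z ((smul_eq_zero.1 hx).resolve_right hv0)

theorem ws5 : S_WS5 := by
  intro n A Q hQ S x hx
  obtain ⟨r, hr0, hr, hx⟩ := hx
  refine ⟨r, hr0, hr, ?_⟩
  have hQ' : Commute Q A := hQ
  have h1 : ∀ p : ℂ[X], Commute Q (aeval A p) := by
    intro p
    induction p using Polynomial.induction_on' with
    | add p q hp hq =>
      rw [map_add]
      exact hp.add_right hq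
    | monomial n a =>
      rw [aeval_monomial, ← Algebra.smul_def]
      exact (hQ'.pow_right n).smul_right a
  rw [mulVec_mulVec, ← (h1 r).eq, ← mulVec_mulVec, hx, mulVec_zero]

theorem ws6 : S_WS6 := by
  intro n A S S'
  constructor
  · intro h
    rw [Submodule.disjoint_def]
    rintro x ⟨r, -, hr, hx⟩ ⟨s, -, hs, hx'⟩
    exact eq_zero_of_cop (cop hr fun z hz hzS => Set.disjoint_left.1 h hzS (hs z hz)) hx hx'
  · apply le_antisymm
    · rintro x ⟨r, hr0, hr, hx⟩
      obtain ⟨r1, r2, hr12, h10, h20, h1, h2⟩ := split r hr0 S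
      obtain ⟨a, b, hab⟩ := cop h1 h2
      have h3 : x = aeval A (b * r2) *ᵥ x + aeval A (a * r1) *ᵥ x := by
        rw [← add_mulVec, ← map_add, add_comm, hab, map_one, one_mulVec]
      rw [h3]
      apply Submodule.add_mem_sup
      · refine ⟨r1, h10, h1, ?_⟩
        rw [← mv_mul, show r1 * (b * r2) = b * (r1 * r2) by ring, ← hr12, mv_mul, hx, mulVec_zero]
      · refine ⟨r2, h20, fun z hz => ?_, ?_⟩
        · have h4 : r.IsRoot z := by
            rw [hr12, IsRoot.def, eval_mul, hz.eq_zero, mul_zero]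
          exact (hr z h4).resolve_left (h2 z hz)
        · rw [← mv_mul, show r2 * (a * r1) = a * (r1 * r2) by ring, ← hr12, mv_mul, hx,
            mulVec_zero]
    · rw [sup_le_iff]
      exact ⟨fun x ⟨r, h0, hr, hx⟩ => ⟨r, h0, fun z hz => Or.inl (hr z hz), hx⟩,
        fun x ⟨r, h0, hr, hx⟩ => ⟨r, h0, fun z hz => Or.inr (hr z hz), hx⟩⟩

end Pool.Agent.J6H90.WT
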