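import Pool.Agent.J6H90.WT.PKT

/-!
# Project WT: the difference of the traces on the kernels of the powers of the monodromy operators

Generalisation of module KT (by helper50) from `N` to `N ^ a`.
-/

set_option autoImplicit false

open Matrix Polynomial

namespace Pool.Agent.J6H90.WT

namespace KTA

open KT

variable {n : ℕ}

section side

variable (h3 : S_WS3) (h4 : S_WS4) (h6 : S_WS6) {q : ℕ} (hq : 2 ≤ q) (w : ℤ)
  (A N : Matrix (Fin n) (Fin n) ℂ) (hN : N * A = (q : ℂ) • (A * N)) (hWM : WM A N q w)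
  {a : ℕ} (ha : 0 < a)

include h3 hq hN in
theorem side_c (x : Fin n → ℂ) (v : ℤ) (hx : x ∈ ws A (T q v)) (b : ℕ) :
    N ^ b *ᵥ x ∈ ws A (T q (v - 2 * b)) := by
  have hq0 : (q : ℂ) ≠ 0 := by
    have := q_pos hq
    exact_mod_cast this.ne'
  induction b with
  | zero => simpa using hx
  | succ b ih =>
    have h := h3 n A N q hq0 hN _ _ ih
    rw [T_shift hq] at h
    rw [pow_succ', ← mulVec_mulVec]
    convert h using 3
    push_cast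
    ring

include h3 h4 h6 hq hN hWM ha in
theorem side_d (y : Fin n → ℂ) (hy : y ∈ ws A (T q (w - a - 1))) :
    ∃ x ∈ ws A (T q (w + a - 1)), N ^ a *ᵥ x = y := by
  obtain ⟨J, μ, hμ, hs⟩ := dec h4 h6 A q w hWM.1 _ y hy
  have hx : ∀ j : ℤ, ∃ x ∈ ws A (T q (w + a - 1)), N ^ a *ᵥ x = μ j := by
    intro j
    have hj := hμ j
    by_cases hj2 : j ≤ -a - 1
    · have hj' : μ j ∈ ws A (wt q (w + j)) := ws_mono A Set.inter_subset_right hj
      obtain ⟨i, hi⟩ : ∃ i : ℕ, j = -(i : ℤ) := ⟨j.natAbs, by omega⟩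
      have hi2 : a + 1 ≤ i := by omega
      have hj'' : μ j ∈ ws A (wt q (w - i)) := by
        rw [hi] at hj'
        rw [hi]
        simpa [sub_eq_add_neg] using hj'
      obtain ⟨u, hu, hNu⟩ := (hWM.2 i (by omega)).2 _ hj''
      refine ⟨N ^ (i - a) *ᵥ u, ?_, ?_⟩
      · have h := N_pow h3 hq A N hN _ u hu (i - a)
        refine ws_mono A (wt_sub_T hq ?_) h
        have : ((i - a : ℕ) : ℤ) = (i : ℤ) - a := by omega
        rw [this]
        omega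
      · rw [mulVec_mulVec, ← pow_add]
        have : a + (i - a) = i := by omega
        rw [this, hNu]
    · have he : T q (w - a - 1) ∩ wt q (w + j) = ∅ := T_wt_empty hq (by omega)
      rw [he, ws_empty h6] at hj
      have h0 : μ j = 0 := (Submodule.mem_bot ℂ).1 hj
      exact ⟨0, Submodule.zero_mem _, by rw [h0, mulVec_zero]⟩
  choose f hf1 hf2 using hx
  refine ⟨∑ j ∈ J, f j, Submodule.sum_mem _ fun j _ => hf1 j, ?_⟩
  rw [mulVec_sum, ← hs]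
  exact Finset.sum_congr rfl fun j _ => hf2 j

include h3 h4 h6 hq hN hWM ha in
theorem side_e (x : Fin n → ℂ) (hx : N ^ a *ᵥ x = 0) : x ∈ ws A (T q (w + a - 1)) := by
  classical
  have htop : x ∈ ws A Set.univ := by
    rw [(h4 n A Set.univ).1 fun z _ => Set.mem_univ z]
    exact Submodule.mem_top
  obtain ⟨J, μ, hμ, hs⟩ := dec h4 h6 A q w hWM.1 _ x htop
  have hμ' : ∀ j, μ j ∈ ws A (wt q (w + j)) := fun j => ws_mono A Set.inter_subset_right (hμ j)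
  have hN1 : ∀ j, N ^ a *ᵥ μ j ∈ ws A (wt q (w + j - 2 * a)) := by
    intro j
    exact N_pow h3 hq A N hN _ (μ j) (hμ' j) a
  have hN0 : ∀ j ∈ J, N ^ a *ᵥ μ j = 0 := by
    intro j hj
    have h1 : N ^ a *ᵥ μ j = - ∑ i ∈ J.erase j, N ^ a *ᵥ μ i := by
      have h2 : N ^ a *ᵥ μ j + ∑ i ∈ J.erase j, N ^ a *ᵥ μ i = 0 := by
        rw [Finset.add_sum_erase J (fun i => N ^ a *ᵥ μ i) hj, ← mulVec_sum, hs, hx]
      exact eq_neg_of_add_eq_zero_left h2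
    have h2 : N ^ a *ᵥ μ j ∈ ws A (⋃ i ∈ J.erase j, wt q (w + i - 2 * a)) := by
      rw [h1]
      refine Submodule.neg_mem _ (Submodule.sum_mem _ fun i hi => ?_)
      exact ws_mono A (Set.subset_biUnion_of_mem (u := fun i => wt q (w + i - 2 * a)) hi) (hN1 i)
    have hd : Disjoint (wt q (w + j - 2 * a)) (⋃ i ∈ J.erase j, wt q (w + i - 2 * a)) := by
      rw [Set.disjoint_iUnion₂_right]
      intro i hi
      refine wt_disj hq ?_
      have := (Finset.mem_erase.1 hi).1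
      intro he
      apply this
      omega
    have := ((h6 n A _ _).1 hd).le_bot ⟨hN1 j, h2⟩
    exact (Submodule.mem_bot ℂ).1 this
  rw [← hs]
  refine Submodule.sum_mem _ fun j hj => ?_
  by_cases hj0 : j ≤ a - 1
  · exact ws_mono A (wt_sub_T hq (by omega)) (hμ' j)
  · obtain ⟨i, hi⟩ : ∃ i : ℕ, j = (i : ℤ) := ⟨j.natAbs, by omega⟩
    have hi0 : a ≤ i := by omega
    have hz : N ^ i *ᵥ μ j = 0 := by
      have : i = (i - a) + a := by omega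
      rw [this, pow_add, ← mulVec_mulVec, hN0 j hj, mulVec_zero]
    have h0 : μ j = 0 := by
      refine (hWM.2 i (by omega)).1 _ ?_ hz
      rw [← hi]
      exact hμ' j
    rw [h0]
    exact Submodule.zero_mem _

end side

theorem comm_pow2 {R N : Matrix (Fin n) (Fin n) ℂ} {κ : ℂ} (hN : N * R = κ • (R * N)) (k : ℕ) :
    N ^ k * R = κ ^ k • (R * N ^ k) := by
  induction k with
  | zero => simp
  | succ k ih =>
    rw [pow_succ, Matrix.mul_assoc, hN, Matrix.mul_smul, ← Matrix.mul_assoc, ih, smul_mul_assoc,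
      smul_smul, Matrix.mul_assoc R, pow_succ κ, mul_comm κ]

/-- the trace on the kernel for one representation -/
theorem side_tr (h2 : S_WS2) (h3 : S_WS3) (h4 : S_WS4) (h5 : S_WS5) (h6 : S_WS6)
    (htrk : S_TRK) (hstab : S_STAB) {q : ℕ} (hq : 2 ≤ q) (w : ℤ) {M : ℕ} (hM : 0 < M)
    (A N C C' : Matrix (Fin n) (Fin n) ℂ) (hN : N * A = (q : ℂ) • (A * N)) (hWM : WM A N q w)
    (hnil : IsNilpotent N) (hCC : C * C' = 1) (hCC' : C' * C = 1) (hNC : N * C = C * N) (t : ℂ)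
    (ht : C' * (A ^ M * C) = A ^ M * IsNilpotent.exp (t • N)) (k : ℕ) (p0 p2 : ℂ[X])
    {a : ℕ} (ha : 0 < a)
    (h01 : ∀ x ∈ ws (A ^ M) {z | ‖z‖ ^ 2 ≤ ((q : ℝ) ^ (w + a - 1)) ^ M},
      aeval (A ^ M) p0 *ᵥ x = x)
    (h02 : ∀ x, aeval (A ^ M) p0 *ᵥ x ∈ ws (A ^ M) {z | ‖z‖ ^ 2 ≤ ((q : ℝ) ^ (w + a - 1)) ^ M})
    (h21 : ∀ x ∈ ws (A ^ M) {z | ‖z‖ ^ 2 ≤ ((q : ℝ) ^ (w - a - 1)) ^ M},
      aeval (A ^ M) p2 *ᵥ x = x)
    (h22 : ∀ x, aeval (A ^ M) p2 *ᵥ x ∈ ws (A ^ M) {z | ‖z‖ ^ 2 ≤ ((q : ℝ) ^ (w - a - 1)) ^ M})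
    (P : Matrix (Fin n) (Fin n) ℂ) (hP : N ^ a * P = 0) (hP' : ∀ x, N ^ a *ᵥ x = 0 → P *ᵥ x = x) :
    (A ^ k * C * P).trace = (A ^ k * C * aeval (A ^ M) p0).trace -
      ((q : ℂ) ^ k) ^ a * (A ^ k * C * aeval (A ^ M) p2).trace := by
  have hq0 : (q : ℂ) ≠ 0 := by
    have := q_pos hq
    exact_mod_cast this.ne'
  have ext_mv : ∀ X Y : Matrix (Fin n) (Fin n) ℂ, (∀ x, X *ᵥ x = Y *ᵥ x) → X = Y := by
    intro X Y h
    exact Matrix.toLin'.injective (LinearMap.ext fun x => by simpa using h x)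
  have e0 := T_pow h2 (q := q) (w + a - 1) A hM
  have e2 := T_pow h2 (q := q) (w - a - 1) A hM
  have hstable : ∀ x ∈ ws (A ^ M) {z | ‖z‖ ^ 2 ≤ ((q : ℝ) ^ (w + a - 1)) ^ M},
      (A ^ k * C) *ᵥ x ∈ ws (A ^ M) {z | ‖z‖ ^ 2 ≤ ((q : ℝ) ^ (w + a - 1)) ^ M} := by
    intro x hx
    have hQ1 : (q : ℂ) ^ M ≠ 1 := by
      intro h
      have h' : ((q ^ M : ℕ) : ℂ) = 1 := by push_cast; exact h
      have h'' : q ^ M = 1 := by exact_mod_cast h'
      have : 1 < q ^ M := Nat.one_lt_pow hM.ne' (by omega)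
      omega
    have hC := hstab n (A ^ M) N C C' ((q : ℂ) ^ M) t hCC hCC' hnil (pow_ne_zero _ hq0) hQ1
      (comm_pow hN M) ht {z | ‖z‖ ^ 2 ≤ ((q : ℝ) ^ (w + a - 1)) ^ M} (by
        intro z hz
        simp only [Set.mem_ofPred_eq] at hz ⊢
        rw [norm_div, norm_pow, Complex.norm_natCast, div_pow]
        refine le_trans (div_le_self (by positivity) ?_) hz
        have : (1 : ℝ) ≤ q := by
          have : (2 : ℝ) ≤ q := by exact_mod_cast hq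
          linarith
        exact one_le_pow₀ (one_le_pow₀ this)) x hx
    rw [← mulVec_mulVec]
    refine h5 n (A ^ M) (A ^ k) ?_ _ _ hC
    rw [← pow_add, ← pow_add, add_comm]
  refine htrk n (N ^ a) (aeval (A ^ M) p0) (aeval (A ^ M) p2) P (A ^ k * C) (((q : ℂ) ^ k) ^ a)
    ?_ ?_ ?_ ?_ ?_ ?_ ?_ hP hP'
  · refine ext_mv _ _ fun x => ?_
    rw [← mulVec_mulVec]
    exact h01 _ (h02 x)
  · refine ext_mv _ _ fun x => ?_
    rw [← mulVec_mulVec]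
    exact h21 _ (h22 x)
  · refine ext_mv _ _ fun x => ?_
    rw [← mulVec_mulVec, ← mulVec_mulVec]
    refine h21 _ ?_
    rw [e2]
    have h := side_c h3 hq A N hN (aeval (A ^ M) p0 *ᵥ x) (w + a - 1) (by
      rw [← e0]
      exact h02 x) a
    have e : w + (a : ℤ) - 1 - 2 * a = w - a - 1 := by ring
    rwa [e] at h
  · intro y hy
    have hy' : y ∈ ws A (T q (w - a - 1)) := by
      rw [← e2, ← hy]
      exact h22 y
    obtain ⟨x, hx, hNx⟩ := side_d h3 h4 h6 hq w A N hN hWM ha y hy'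
    refine ⟨x, h01 x ?_, hNx⟩
    rw [e0]
    exact hx
  · intro x hx
    refine h01 x ?_
    rw [e0]
    exact side_e h3 h4 h6 hq w A N hN hWM ha x hx
  · refine ext_mv _ _ fun x => ?_
    rw [← mulVec_mulVec, ← mulVec_mulVec]
    exact h01 _ (hstable _ (h02 x))
  · refine comm_pow2 ?_ a
    rw [← Matrix.mul_assoc, comm_pow hN k, smul_mul_assoc, Matrix.mul_assoc (A ^ k) N C, hNC,
      ← Matrix.mul_assoc]

end KTA

/-- KTA: KT for the powers of the monodromy operator -/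
def S_KTA : Prop := ∀ (G : Type) [Group G] (n m : ℕ) (V : G →* Matrix (Fin n) (Fin n) ℂ)
  (W : G →* Matrix (Fin m) (Fin m) ℂ) (c : G →* ℂ) (U : Subgroup G) (σ τ0 : G) (M q : ℕ) (w : ℤ)
  (NV : Matrix (Fin n) (Fin n) ℂ) (NW : Matrix (Fin m) (Fin m) ℂ),
  Dat V W c U σ τ0 M q w NV NW → WM (W σ⁻¹) NW q w → IsNilpotent NV → IsNilpotent NW →
  ∀ (τ : G) (k a : ℕ), 0 < a → NV * V τ = V τ * NV → NW * W τ = W τ * NW →
  (∃ t : ℂ, V (τ⁻¹ * (σ⁻¹ ^ M * τ)) = V (σ⁻¹ ^ M) * IsNilpotent.exp (t • NV)) →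
  (∃ t : ℂ, W (τ⁻¹ * (σ⁻¹ ^ M * τ)) = W (σ⁻¹ ^ M) * IsNilpotent.exp (t • NW)) →
  ∀ (PV : Matrix (Fin n) (Fin n) ℂ) (PW : Matrix (Fin m) (Fin m) ℂ), NV ^ a * PV = 0 →
  NW ^ a * PW = 0 → (∀ x, NV ^ a *ᵥ x = 0 → PV *ᵥ x = x) →
  (∀ x, NW ^ a *ᵥ x = 0 → PW *ᵥ x = x) →
  (V (σ⁻¹ ^ k * τ) * PV).trace - (W (σ⁻¹ ^ k * τ) * PW).trace =
    (V (σ⁻¹ ^ k * τ)).trace - (W (σ⁻¹ ^ k * τ)).trace

open KT KTA in
theorem kta (h1 : S_WS1) (h2 : S_WS2) (h3 : S_WS3) (h4 : S_WS4) (h5 : S_WS5) (h6 : S_WS6)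
    (htrk : S_TRK) (hstab : S_STAB) (hwmt : S_WMT) : S_KTA := by
  intro G _ n m V W c U σ τ0 M q w NV NW hD hWMW hnV hnW τ k a ha hVτ hWτ htV htW PV PW hPV hPW
    hPV' hPW'
  have hWMV := hwmt G n m V W c U σ τ0 M q w NV NW hD hWMW
  obtain ⟨tV, htV⟩ := htV
  obtain ⟨tW, htW⟩ := htW
  have hM := hD.hM
  have hq := hD.hq
  have hq0 := q_pos hq
  have hq1 : (1 : ℝ) < q := by
    have : (2 : ℝ) ≤ q := by exact_mod_cast hq
    linarith
  set s := σ⁻¹ ^ M with hs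
  have hsU : s ∈ U := by
    rw [hs, inv_pow]
    exact U.inv_mem hD.hs
  have hVs : V s = V σ⁻¹ ^ M := by rw [hs, map_pow]
  have hWs : W s = W σ⁻¹ ^ M := by rw [hs, map_pow]
  obtain ⟨p0, a1, a2, a3, a4, a5, -⟩ := h1 n m (V σ⁻¹ ^ M) (W σ⁻¹ ^ M) (c s)
    {z | ‖z‖ ^ 2 ≤ ((q : ℝ) ^ (w + a - 1)) ^ M}
  obtain ⟨p2, b1, b2, b3, b4, -, b6⟩ := h1 n m (V σ⁻¹ ^ M) (W σ⁻¹ ^ M) (c s)
    {z | ‖z‖ ^ 2 ≤ ((q : ℝ) ^ (w - a - 1)) ^ M}
  have hg1 : V (σ⁻¹ ^ k * τ) = V σ⁻¹ ^ k * V τ := by rw [map_mul, map_pow]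
  have hg2 : W (σ⁻¹ ^ k * τ) = W σ⁻¹ ^ k * W τ := by rw [map_mul, map_pow]
  have hV := KTA.side_tr h2 h3 h4 h5 h6 htrk hstab hq w hM (V σ⁻¹) NV (V τ) (V τ⁻¹) hD.hVq hWMV
    hnV (by rw [← map_mul, mul_inv_cancel, map_one])
    (by rw [← map_mul, inv_mul_cancel, map_one]) hVτ
    tV (by rw [← hVs, ← map_mul, ← map_mul]; exact htV) k p0 p2 ha a1 a2 b1 b2 PV hPV hPV'
  have hW := KTA.side_tr h2 h3 h4 h5 h6 htrk hstab hq w hM (W σ⁻¹) NW (W τ) (W τ⁻¹) hD.hWq hWMW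
    hnW (by rw [← map_mul, mul_inv_cancel, map_one])
    (by rw [← map_mul, inv_mul_cancel, map_one]) hWτ
    tW (by rw [← hWs, ← map_mul, ← map_mul]; exact htW) k p0 p2 ha a3 a4 b3 b4 PW hPW hPW'
  rw [← hVs, ← hg1] at hV
  rw [← hWs, ← hg2] at hW
  have t0 := tr_poly V W c U hD.hT s hsU (σ⁻¹ ^ k * τ) p0
  have t2 := tr_poly V W c U hD.hT s hsU (σ⁻¹ ^ k * τ) p2
  have r0 : p0.eval (c s) * ((V (σ⁻¹ ^ k * τ)).trace - (W (σ⁻¹ ^ k * τ)).trace) =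
      (V (σ⁻¹ ^ k * τ)).trace - (W (σ⁻¹ ^ k * τ)).trace := by
    rcases hD.hc with h | h
    · rw [a5 (by
        simp only [Set.mem_ofPred_eq]
        rw [h]
        exact pow_le_pow_left₀ (by positivity) (zpow_le_zpow_right₀ hq1.le (by omega)) M), one_mul]
    · rw [h, sub_self, mul_zero]
  have r2 : p2.eval (c s) * ((V (σ⁻¹ ^ k * τ)).trace - (W (σ⁻¹ ^ k * τ)).trace) = 0 := by
    rcases hD.hc with h | h
    · rw [b6 (by
        simp only [Set.mem_ofPred_eq]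
        rw [h]
        refine not_le.2 (pow_lt_pow_left₀ ?_ (by positivity) hM.ne')
        exact zpow_lt_zpow_right₀ hq1 (by omega)), zero_mul]
    · rw [h, sub_self, mul_zero]
  rw [hV, hW]
  rw [r0] at t0
  rw [r2] at t2
  linear_combination t0 - ((q : ℂ) ^ k) ^ a * t2

end Pool.Agent.J6H90.WT
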