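import Pool.Agent.J6H90.WT.Stm

/-!
# Project WT: auxiliary linear algebra
-/

set_option autoImplicit false

open Matrix Polynomial Filter Topology

namespace Pool.Agent.J6H90.WT

theorem smul_pow_mulVec {n : ℕ} (N : Matrix (Fin n) (Fin n) ℂ) (c : ℂ) (j : ℕ) (x : Fin n → ℂ) :
    (c • N) ^ j *ᵥ x = c ^ j • (N ^ j *ᵥ x) := by
  rw [_root_.smul_pow, smul_mulVec]

theorem WM.smul {n : ℕ} {A N : Matrix (Fin n) (Fin n) ℂ} {q : ℕ} {w : ℤ} {c : ℂ} (hc : c ≠ 0)
    (h : WM A N q w) : WM A (c • N) q w := by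
  refine ⟨h.1, fun j hj => ⟨fun x hx hx0 => ?_, fun y hy => ?_⟩⟩
  · rw [smul_pow_mulVec] at hx0
    exact (h.2 j hj).1 x hx ((smul_eq_zero.1 hx0).resolve_left (pow_ne_zero _ hc))
  · obtain ⟨x, hx, hxy⟩ := (h.2 j hj).2 y hy
    refine ⟨(c ^ j)⁻¹ • x, Submodule.smul_mem _ _ hx, ?_⟩
    rw [smul_pow_mulVec, mulVec_smul, hxy, smul_smul, mul_inv_cancel₀ (pow_ne_zero _ hc), one_smul]

/-- a projector onto a subspace -/
theorem exists_proj {F : Type} [Field F] {n : ℕ} (I : Submodule F (Fin n → F)) :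
    ∃ P : Matrix (Fin n) (Fin n) F, (∀ x, P *ᵥ x ∈ I) ∧ ∀ x ∈ I, P *ᵥ x = x := by
  obtain ⟨f, hf⟩ := I.exists_isCompl
  obtain ⟨g, hg⟩ := LinearMap.exists_leftInverse_of_injective I.subtype (by
    rw [Submodule.ker_subtype])
  refine ⟨LinearMap.toMatrix' (I.subtype ∘ₗ g), fun x => ?_, fun x hx => ?_⟩
  · have : LinearMap.toMatrix' (I.subtype ∘ₗ g) *ᵥ x = (I.subtype ∘ₗ g) x := by
      rw [← Matrix.toLin'_apply, Matrix.toLin'_toMatrix']
    rw [this]
    exact (g x).2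
  · have : LinearMap.toMatrix' (I.subtype ∘ₗ g) *ᵥ x = (I.subtype ∘ₗ g) x := by
      rw [← Matrix.toLin'_apply, Matrix.toLin'_toMatrix']
    rw [this, LinearMap.comp_apply]
    have h2 := LinearMap.congr_fun hg ⟨x, hx⟩
    rw [LinearMap.comp_apply] at h2
    have h3 : g x = ⟨x, hx⟩ := h2
    rw [h3]
    rfl

/-- averages over finite quotients -/
theorem avg {Γ : Type*} [Group Γ] {A B : Subgroup Γ} (hAB : A ≤ B) [Finite (Γ ⧸ A)]
    (f : Γ → ℚ) (hf : ∀ x, ∀ b ∈ B, f (x * b) = f x) :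
    (Nat.card (Γ ⧸ A) : ℚ)⁻¹ * ∑ᶠ x : Γ ⧸ A, f x.out =
      (Nat.card (Γ ⧸ B) : ℚ)⁻¹ * ∑ᶠ x : Γ ⧸ B, f x.out := by
  classical
  have hfiA : A.FiniteIndex := Subgroup.finiteIndex_of_finite_quotient
  have hfiB : B.FiniteIndex := Subgroup.finiteIndex_of_le hAB
  have hB : Finite (Γ ⧸ B) := Subgroup.finite_quotient_of_finiteIndex
  let E := Subgroup.quotientEquivProdOfLE hAB
  have hC : Finite (B ⧸ A.subgroupOf B) := by
    have : Finite ((Γ ⧸ B) × (B ⧸ A.subgroupOf B)) := Finite.of_equiv _ E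
    exact Finite.prod_right (Γ ⧸ B)
  have := Fintype.ofFinite (Γ ⧸ A)
  have := Fintype.ofFinite (Γ ⧸ B)
  have := Fintype.ofFinite (B ⧸ A.subgroupOf B)
  have h1 : ∀ x : Γ ⧸ A, f x.out = f ((E x).1).out := by
    intro x
    have h2 : (E x).1 = ((x.out : Γ) : Γ ⧸ B) := by
      conv_lhs => rw [← Quotient.out_eq x]
      rfl
    have h3 : ((((E x).1).out : Γ) : Γ ⧸ B) = ((x.out : Γ) : Γ ⧸ B) := by
      rw [← h2]
      exact Quotient.out_eq _
    have h4 := QuotientGroup.eq.1 h3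
    rw [← hf (E x).1.out _ h4, mul_inv_cancel_left]
  rw [finsum_eq_sum_of_fintype, finsum_eq_sum_of_fintype, Finset.sum_congr rfl fun x _ => h1 x,
    Nat.card_eq_fintype_card, Nat.card_eq_fintype_card,
    Equiv.sum_comp E (fun p : (Γ ⧸ B) × (B ⧸ A.subgroupOf B) => f p.1.out), Fintype.card_congr E,
    Fintype.card_prod, Fintype.sum_prod_type]
  simp only [Finset.sum_const, Finset.card_univ, nsmul_eq_mul]
  rw [← Finset.mul_sum]
  have h5 : (Fintype.card (B ⧸ A.subgroupOf B) : ℚ) ≠ 0 := by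
    exact_mod_cast Fintype.card_ne_zero
  push_cast
  field_simp

section block

variable {F : Type} [Field F] {n m : ℕ}

/-- block diagonal matrices -/
def bd : (Matrix (Fin n) (Fin n) F × Matrix (Fin m) (Fin m) F) →+*
    Matrix (Fin n ⊕ Fin m) (Fin n ⊕ Fin m) F where
  toFun p := fromBlocks p.1 0 0 p.2
  map_one' := fromBlocks_one
  map_mul' p r := by simp [fromBlocks_multiply]
  map_zero' := fromBlocks_zero
  map_add' p r := by simp [fromBlocks_add]

theorem bd_apply (A : Matrix (Fin n) (Fin n) F) (B : Matrix (Fin m) (Fin m) F) :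
    bd (A, B) = fromBlocks A 0 0 B := rfl

theorem bd_inj {A A' : Matrix (Fin n) (Fin n) F} {B B' : Matrix (Fin m) (Fin m) F}
    (h : bd (A, B) = bd (A', B')) : A = A' ∧ B = B' := by
  rw [bd_apply, bd_apply, fromBlocks_inj] at h
  exact ⟨h.1, h.2.2.2⟩

theorem isNilpotent_bd {A : Matrix (Fin n) (Fin n) F} {B : Matrix (Fin m) (Fin m) F}
    (hA : IsNilpotent A) (hB : IsNilpotent B) : IsNilpotent (bd (A, B)) := by
  have h1 : IsNilpotent ((A, B) : Matrix (Fin n) (Fin n) F × Matrix (Fin m) (Fin m) F) := by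
    obtain ⟨a, ha⟩ := hA
    obtain ⟨b, hb⟩ := hB
    refine ⟨a + b, ?_⟩
    refine Prod.ext ?_ ?_
    · rw [Prod.pow_fst, pow_add, ha, zero_mul]; rfl
    · rw [Prod.pow_snd, pow_add, hb, mul_zero]; rfl
  exact h1.map bd

theorem exp_bd [CharZero F] {A : Matrix (Fin n) (Fin n) F} {B : Matrix (Fin m) (Fin m) F}
    (hA : IsNilpotent A) (hB : IsNilpotent B) :
    IsNilpotent.exp (bd (A, B)) = bd (IsNilpotent.exp A, IsNilpotent.exp B) := by
  have h1 : IsNilpotent ((A, B) : Matrix (Fin n) (Fin n) F × Matrix (Fin m) (Fin m) F) := by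
    obtain ⟨a, ha⟩ := hA
    obtain ⟨b, hb⟩ := hB
    refine ⟨a + b, ?_⟩
    refine Prod.ext ?_ ?_
    · rw [Prod.pow_fst, pow_add, ha, zero_mul]; rfl
    · rw [Prod.pow_snd, pow_add, hb, mul_zero]; rfl
  rw [← IsNilpotent.map_exp h1 bd]
  congr 1
  refine Prod.ext ?_ ?_
  · exact IsNilpotent.map_exp h1 (RingHom.fst (Matrix (Fin n) (Fin n) F) (Matrix (Fin m) (Fin m) F))
  · exact IsNilpotent.map_exp h1 (RingHom.snd (Matrix (Fin n) (Fin n) F) (Matrix (Fin m) (Fin m) F))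

theorem smul_bd (c : F) (A : Matrix (Fin n) (Fin n) F) (B : Matrix (Fin m) (Fin m) F) :
    c • bd (A, B) = bd (c • A, c • B) := by
  rw [bd_apply, bd_apply, fromBlocks_smul, smul_zero, smul_zero]

end block

theorem trace_unip {F : Type} [Field F] {n : ℕ} {A : Matrix (Fin n) (Fin n) F}
    (h : IsNilpotent (A - 1)) : A.trace = n := by
  have h1 := Matrix.isNilpotent_trace_of_isNilpotent h
  have h2 : (A - 1).trace = 0 := h1.eq_zero
  rw [Matrix.trace_sub, Matrix.trace_one, Fintype.card_fin, sub_eq_zero] at h2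
  exact h2

theorem exp_nat {F : Type} [Field F] [CharZero F] {n : ℕ} {N : Matrix (Fin n) (Fin n) F}
    (h : IsNilpotent N) (k : ℕ) : IsNilpotent.exp ((k : F) • N) = IsNilpotent.exp N ^ k := by
  induction k with
  | zero => simp
  | succ k ih =>
    have h1 : ((k + 1 : ℕ) : F) • N = (k : F) • N + N := by
      rw [Nat.cast_succ, add_smul, one_smul]
    rw [h1, IsNilpotent.exp_add_of_commute ((Commute.refl N).smul_left _) (h.smul _) h, ih,
      pow_succ]

theorem pow_unip {R : Type} [Ring R] {t : R} (h : IsNilpotent (t - 1)) (k : ℕ) :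
    IsNilpotent (t ^ k - 1) := by
  obtain ⟨c, hc⟩ : (t - 1) ∣ (t ^ k - 1) := by
    have := Commute.sub_dvd_pow_sub_pow (Commute.one_right t) k
    rwa [one_pow] at this
  have hcomm : Commute (t - 1) (∑ i ∈ Finset.range k, t ^ i) := by
    apply Commute.sum_right
    intro i _
    exact ((Commute.refl t).sub_left (Commute.one_left t)).pow_right i
  have h2 : t ^ k - 1 = (t - 1) * ∑ i ∈ Finset.range k, t ^ i := (mul_geom_sum t k).symm
  rw [h2]
  exact hcomm.isNilpotent_mul_right h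

end Pool.Agent.J6H90.WT
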