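import Pool.Agent.J6H90.WT.StmB
import Pool.Agent.J6H90.WT.Mat

/-!
# Project WT: the local data at a place
-/

set_option autoImplicit false

namespace Pool.Agent.J6H90.WT

open NumberField Filter Topology Pool.Agent.W401.Cheb Pool.Agent.W569.FM
open Pool.Agent.R401.Tr3 Pool.Agent.R401.Tr5 Pool.Agent.R401.Sup3 Pool.Agent.R401.Sup4
open Polynomial Matrix

set_option linter.unusedSectionVars false

section

variable {K : Type} [Field K] [NumberField K]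

/-- the inertia group is normalised by the Frobenius elements -/
theorem conj_inertia {P : Ideal (OO K)} {q : ℕ} (hq : 1 ≤ q) {σ τ : GK K} (hσ : FrobAt q P σ)
    (hτ : InInertia P τ) : InInertia P (σ * τ * σ⁻¹) := by
  intro y
  have h2 : (σ * τ * σ⁻¹) • y - y = σ • (τ • (σ⁻¹ • y) - σ⁻¹ • y) := by
    rw [smul_sub, smul_inv_smul, mul_smul, mul_smul]
  rw [h2]
  have h3 := hτ (σ⁻¹ • y)
  set z := τ • (σ⁻¹ • y) - σ⁻¹ • y
  have h4 : σ • z = (σ • z - z ^ q) + z ^ q := by abel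
  rw [h4]
  exact P.add_mem (hσ z) (P.pow_mem_of_mem h3 q (by omega))

theorem conj_pow_inertia {P : Ideal (OO K)} {q : ℕ} (hq : 1 ≤ q) {σ τ : GK K} (hσ : FrobAt q P σ)
    (hτ : InInertia P τ) (k : ℕ) : InInertia P (σ ^ k * τ * (σ ^ k)⁻¹) := by
  induction k with
  | zero => simpa using hτ
  | succ k ih =>
    have h1 := conj_inertia hq hσ ih
    have h2 : σ * (σ ^ k * τ * (σ ^ k)⁻¹) * σ⁻¹ = σ ^ (k + 1) * τ * (σ ^ (k + 1))⁻¹ := by
      rw [pow_succ']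
      group
    rwa [h2] at h1

theorem mul_inertia {P : Ideal (OO K)} {σ τ : GK K} (hσ : InInertia P σ)
    (hτ : InInertia P τ) : InInertia P (σ * τ) := (IG P).mul_mem (show σ ∈ IG P from hσ) hτ

theorem pow_inertia {P : Ideal (OO K)} {τ : GK K}
    (hτ : InInertia P τ) (k : ℕ) : InInertia P (τ ^ k) := (IG P).pow_mem (show τ ∈ IG P from hτ) k

theorem inv_inertia {P : Ideal (OO K)} {τ : GK K}
    (hτ : InInertia P τ) : InInertia P τ⁻¹ := (IG P).inv_mem (show τ ∈ IG P from hτ)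

variable {ℓ : ℕ} [Fact ℓ.Prime] {n m : ℕ}

/-- the weight-monodromy property of a representation -/
def MonoWM {n : ℕ} (ρ : GK K →* Matrix (Fin n) (Fin n) ℚ_[ℓ]) (w : ℤ) (q : ℕ)
    (P : Ideal (OO K)) : Prop :=
  ∃ (N : Matrix (Fin n) (Fin n) ℚ_[ℓ]) (H : Subgroup (GK K)), IsNilpotent N ∧
    IsOpen (H : Set (GK K)) ∧ (∃ τ ∈ H, InInertia P τ ∧ ρ τ = IsNilpotent.exp N) ∧
    (∀ τ ∈ H, InInertia P τ → ∃ t : ℚ_[ℓ], ρ τ = IsNilpotent.exp (t • N)) ∧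
    ∀ g, FrobAt q P g → ∀ e : ℚ_[ℓ] →+* ℂ, WM ((ρ g⁻¹).map e) (N.map e) q w

/-- the local data -/
structure LD (V : GK K →* Matrix (Fin n) (Fin n) ℚ_[ℓ]) (W : GK K →* Matrix (Fin m) (Fin m) ℚ_[ℓ])
    (w : ℤ) (q : ℕ) (P : Ideal (OO K)) (H : Subgroup (GK K)) (τ0 : GK K)
    (NV : Matrix (Fin n) (Fin n) ℚ_[ℓ]) (NW : Matrix (Fin m) (Fin m) ℚ_[ℓ]) : Prop where
  hHn : H.Normal
  hHo : IsOpen (H : Set (GK K))
  hτ : τ0 ∈ H
  hτI : InInertia P τ0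
  hNV : IsNilpotent NV
  hNW : IsNilpotent NW
  hVτ : V τ0 = IsNilpotent.exp NV
  hWτ : W τ0 = IsNilpotent.exp NW
  hall : ∀ τ ∈ H, InInertia P τ →
    ∃ t : ℚ_[ℓ], V τ = IsNilpotent.exp (t • NV) ∧ W τ = IsNilpotent.exp (t • NW)
  hL : ∃ L : ℚ_[ℓ][X], L.eval 1 = 0 ∧ aeval (V τ0) L = NV ∧ aeval (W τ0) L = NW
  hVq : ∀ σ, FrobAt q P σ → NV * V σ⁻¹ = (q : ℚ_[ℓ]) • (V σ⁻¹ * NV)
  hWq : ∀ σ, FrobAt q P σ → NW * W σ⁻¹ = (q : ℚ_[ℓ]) • (W σ⁻¹ * NW)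
  hVI : ∀ τ, InInertia P τ → NV * V τ = V τ * NV
  hWI : ∀ τ, InInertia P τ → NW * W τ = W τ * NW
  hWM : ∀ σ, FrobAt q P σ → ∀ e : ℚ_[ℓ] →+* ℂ, WM ((W σ⁻¹).map e) (NW.map e) q w

theorem continuous_bd {V : GK K →* Matrix (Fin n) (Fin n) ℚ_[ℓ]} (hV : Continuous V)
    {W : GK K →* Matrix (Fin m) (Fin m) ℚ_[ℓ]} (hW : Continuous W) :
    Continuous ((bd (F := ℚ_[ℓ]) (n := n) (m := m)).toMonoidHom.comp (V.prod W)) := by
  change Continuous fun g => fromBlocks (V g) 0 0 (W g)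
  exact hV.matrix_fromBlocks continuous_const continuous_const hW

theorem exists_LD (hlog : S_LOG) (hcyc : S_CYC) (hrel : S_REL)
    {V : GK K →* Matrix (Fin n) (Fin n) ℚ_[ℓ]} (hV : Continuous V)
    {W : GK K →* Matrix (Fin m) (Fin m) ℚ_[ℓ]} (hW : Continuous W) {u : ℤ}
    {φ : GK K → ℚ} {U : Subgroup (GK K)} (hUn : U.Normal) (hUo : IsOpen (U : Set (GK K)))
    (hU : ∀ x ∈ U, ∀ y, φ (x * y) = φ y)
    (hφ : ∀ y : GK K, cyc K ℓ ℚ_[ℓ] y ^ u * ((V y).trace - (W y).trace) = (φ y : ℚ_[ℓ]))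
    {P : Ideal (OO K)} (hP : P.IsMaximal) {q : ℕ} (hq : 1 ≤ q) {σ : GK K} (hσ : FrobAt q P σ)
    (hℓP : (ℓ : OO K) ∉ P) {w : ℤ} (hMW : MonoWM W w q P) :
    ∃ (H : Subgroup (GK K)) (τ0 : GK K) (NV : Matrix (Fin n) (Fin n) ℚ_[ℓ])
      (NW : Matrix (Fin m) (Fin m) ℚ_[ℓ]), H ≤ U ∧ LD V W w q P H τ0 NV NW := by
  obtain ⟨N', HW, hN', hHWo, ⟨τ', hτ'H, hτ'I, hτ'⟩, hHW, hWM⟩ := hMW
  obtain ⟨HV, hHVn, hHVo, hHV⟩ := Pool.Agent.R401.Tr9.exists_small V hV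
  obtain ⟨HX, hHXn, hHXo, hHX⟩ := Pool.Agent.R401.Tr9.exists_small W hW
  obtain ⟨HN, hHN⟩ := ProfiniteGrp.exist_openNormalSubgroup_sub_open_nhds_of_one hHWo HW.one_mem
  have hHNn : (HN : Subgroup (GK K)).Normal := HN.isNormal'
  have hHNo : IsOpen ((HN : Subgroup (GK K)) : Set (GK K)) := HN.isOpen'
  set H : Subgroup (GK K) := (U ⊓ HV) ⊓ (HX ⊓ (HN : Subgroup (GK K))) with hH
  have hHn : H.Normal := inferInstance
  have hHo : IsOpen (H : Set (GK K)) := by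
    rw [hH, Subgroup.coe_inf, Subgroup.coe_inf, Subgroup.coe_inf]
    exact (hUo.inter hHVo).inter (hHXo.inter hHNo)
  have hHU : ∀ x ∈ H, x ∈ U := fun x hx => hx.1.1
  have hHV' : ∀ x ∈ H, x ∈ HV := fun x hx => hx.1.2
  have hHX' : ∀ x ∈ H, x ∈ HX := fun x hx => hx.2.1
  have hHW' : ∀ x ∈ H, x ∈ HW := fun x hx => hHN hx.2.2
  -- unipotence
  have huW : ∀ τ ∈ H, InInertia P τ → IsNilpotent (W τ - 1) := by
    intro τ hτ hτI
    obtain ⟨t, ht⟩ := hHW τ (hHW' τ hτ) hτI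
    rw [ht]
    exact IsNilpotent.isNilpotent_exp_sub_one (hN'.smul t)
  have huV : ∀ τ ∈ H, InInertia P τ → IsNilpotent (V τ - 1) := by
    intro τ hτ hτI
    apply nilp_of_trace
    intro j
    have h1 : InInertia P (τ ^ j) := pow_inertia hτI j
    have h2 := hφ (τ ^ j)
    have h3 := hφ 1
    have h4 : φ (τ ^ j) = φ 1 := by
      rw [← mul_one (τ ^ j), hU _ (U.pow_mem (hHU τ hτ) j)]
    have h5 : (W (τ ^ j)).trace = m := trace_unip (huW _ (H.pow_mem hτ j) h1)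
    rw [cyc_inertia hP hℓP hσ h1, _root_.one_zpow, one_mul, h4, h5] at h2
    rw [map_one, _root_.one_zpow, one_mul, map_one, map_one, Matrix.trace_one, Matrix.trace_one,
      Fintype.card_fin, Fintype.card_fin] at h3
    rw [← map_pow]
    linear_combination h2 - h3
  -- the block representation
  set ρ : GK K →* Matrix (Fin n ⊕ Fin m) (Fin n ⊕ Fin m) ℚ_[ℓ] :=
    (bd (F := ℚ_[ℓ]) (n := n) (m := m)).toMonoidHom.comp (V.prod W) with hρ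
  have hρa : ∀ g, ρ g = bd (V g, W g) := fun g => rfl
  have hρc : Continuous ρ := continuous_bd hV hW
  obtain ⟨τ0, hτ0, hτ0I, hτ0c⟩ := hcyc K ℓ (Fin n ⊕ Fin m) ρ hρc H hHo (by
    intro x hx
    have h1 : ∀ k : ℕ, ρ x ^ (ℓ ^ k) = fromBlocks (V x ^ (ℓ ^ k)) 0 0 (W x ^ (ℓ ^ k)) := by
      intro k
      rw [hρa, ← map_pow]
      rfl
    simp only [h1]
    rw [← fromBlocks_one]
    have h2 : Continuous fun p : Matrix (Fin n) (Fin n) ℚ_[ℓ] × Matrix (Fin m) (Fin m) ℚ_[ℓ] =>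
        fromBlocks p.1 0 0 p.2 :=
      continuous_fst.matrix_fromBlocks continuous_const continuous_const continuous_snd
    have h3 := (h2.tendsto ((1 : Matrix (Fin n) (Fin n) ℚ_[ℓ]), (1 : Matrix (Fin m) (Fin m) ℚ_[ℓ])))
    exact h3.comp ((hHV x (hHV' x hx)).prodMk_nhds (hHX x (hHX' x hx)))) P hP hℓP (by
    intro τ hτ hτI
    have h1 : ρ τ - 1 = bd (V τ - 1, W τ - 1) := by
      rw [hρa, ← map_one (bd (F := ℚ_[ℓ]) (n := n) (m := m)), ← map_sub]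
      rfl
    rw [h1]
    exact isNilpotent_bd (huV τ hτ hτI) (huW τ hτ hτI))
  obtain ⟨L, hL1, hL⟩ := hlog ℚ_[ℓ] (n + m)
  have hLn := hL (Fin n) (by rw [Fintype.card_fin]; omega)
  have hLm := hL (Fin m) (by rw [Fintype.card_fin]; omega)
  obtain ⟨hNV, hNVe⟩ := hLn.1 (V τ0) (huV τ0 hτ0 hτ0I)
  obtain ⟨hNW, hNWe⟩ := hLm.1 (W τ0) (huW τ0 hτ0 hτ0I)
  have hall : ∀ τ ∈ H, InInertia P τ → ∃ t : ℚ_[ℓ], V τ = IsNilpotent.exp (t • aeval (V τ0) L) ∧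
      W τ = IsNilpotent.exp (t • aeval (W τ0) L) := by
    intro τ hτ hτI
    obtain ⟨c, hc⟩ := hτ0c (bd (aeval (V τ0) L, aeval (W τ0) L)) (isNilpotent_bd hNV hNW) (by
      rw [exp_bd hNV hNW, hNVe, hNWe]
      rfl) τ hτ hτI
    rw [smul_bd, exp_bd (hNV.smul c) (hNW.smul c)] at hc
    exact ⟨c, bd_inj hc⟩
  -- comparison with the hypothesis
  obtain ⟨t0, ht0⟩ := hHW τ0 (hHW' τ0 hτ0) hτ0I
  have hNWt : aeval (W τ0) L = t0 • N' := by
    rw [ht0]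
    exact hLm.2 _ (hN'.smul t0)
  have hWMN : ∀ σ, FrobAt q P σ → ∀ e : ℚ_[ℓ] →+* ℂ,
      WM ((W σ⁻¹).map e) ((aeval (W τ0) L).map e) q w := by
    intro σ hσ e
    rw [hNWt]
    have h1 : (t0 • N').map e = e t0 • N'.map e := by
      ext i j
      simp
    rw [h1]
    rcases eq_or_ne t0 0 with h0 | h0
    · have hfin : Finite (GK K ⧸ H) := Subgroup.quotient_finite_of_isOpen _ hHo
      have hfi : H.FiniteIndex := Subgroup.finiteIndex_of_finite_quotient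
      have hm0 : H.index ≠ 0 := hfi.index_ne_zero
      obtain ⟨t, -, ht⟩ := hall (τ' ^ H.index) (Subgroup.pow_index_mem H τ')
        (pow_inertia hτ'I _)
      rw [hNWt, h0, zero_smul, smul_zero, IsNilpotent.exp_zero, map_pow, hτ', ← exp_nat hN'] at ht
      have h2 := hLm.2 _ (hN'.smul ((H.index : ℕ) : ℚ_[ℓ]))
      have h3 := hLm.2 0 IsNilpotent.zero
      rw [IsNilpotent.exp_zero] at h3
      rw [ht, h3] at h2
      have h4 : N' = 0 := (smul_eq_zero.1 h2.symm).resolve_left (Nat.cast_ne_zero.2 hm0)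
      have h5 := hWM σ hσ e
      have h6 : N'.map e = 0 := by
        rw [h4]
        ext i j
        simp
      rw [h6] at h5
      rw [h6, smul_zero]
      exact h5
    · exact (hWM σ hσ e).smul (by rwa [Ne, map_eq_zero])
  have hVrel := fun σ hσ => hrel K ℓ n V hV H hHo (fun x hx => hHV x (hHV' x hx)) P q σ τ0
    (aeval (V τ0) L) hP hℓP hq hσ hτ0 hτ0I hNV hNVe
  have hWrel := fun σ hσ => hrel K ℓ m W hW H hHo (fun x hx => hHX x (hHX' x hx)) P q σ τ0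
    (aeval (W τ0) L) hP hℓP hq hσ hτ0 hτ0I hNW hNWe
  exact ⟨H, τ0, aeval (V τ0) L, aeval (W τ0) L, hHU, {
    hHn := hHn
    hHo := hHo
    hτ := hτ0
    hτI := hτ0I
    hNV := hNV
    hNW := hNW
    hVτ := hNVe.symm
    hWτ := hNWe.symm
    hall := hall
    hL := ⟨L, hL1, rfl, rfl⟩
    hVq := fun σ hσ => (hVrel σ hσ).1
    hWq := fun σ hσ => (hWrel σ hσ).1
    hVI := (hVrel σ hσ).2
    hWI := (hWrel σ hσ).2
    hWM := hWMN }⟩

end

end Pool.Agent.J6H90.WT
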