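import Pool.Agent.J6H90.WT.Stm

/-!
# WT-BC: base change of the nondegeneracy of the trace form
-/

set_option autoImplicit false

open Matrix

namespace Pool.Agent.J6H90.WT

theorem bc : S_BC := by
  intro F _ e m G _ W hnd z hz hzg
  classical
  obtain ⟨f, hf, hspan, hli⟩ := Submodule.exists_fun_fin_finrank_span_eq F (Set.range W)
  choose g hg using hf
  generalize Module.finrank F (Submodule.span F (Set.range W)) = r at f hspan hli g hg
  -- the Gram matrix
  let B : Matrix (Fin r) (Fin r) F := fun j i => (f i * f j).trace
  have hBdet : B.det ≠ 0 := by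
    intro h0
    obtain ⟨v, hv0, hv⟩ := Matrix.exists_mulVec_eq_zero_iff.2 h0
    apply hv0
    have hz0 : (∑ i, v i • f i) = 0 := by
      apply hnd
      · rw [← hspan]
        exact Submodule.sum_mem _ fun i _ =>
          Submodule.smul_mem _ _ (Submodule.subset_span ⟨i, rfl⟩)
      · intro h
        have hWh : W h ∈ Submodule.span F (Set.range f) := by
          rw [hspan]
          exact Submodule.subset_span ⟨h, rfl⟩
        obtain ⟨c, hc⟩ := (Submodule.mem_span_range_iff_exists_fun F).1 hWh
        rw [← hc, Finset.mul_sum, Matrix.trace_sum]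
        apply Finset.sum_eq_zero
        intro j _
        rw [mul_smul_comm, Matrix.trace_smul, Finset.sum_mul, Matrix.trace_sum]
        have := congrFun hv j
        simp only [Matrix.mulVec, dotProduct, B, Pi.zero_apply] at this
        have h2 : (∑ i, (v i • f i * f j).trace) = 0 := by
          rw [← this]
          refine Finset.sum_congr rfl fun i _ => ?_
          rw [smul_mul_assoc, Matrix.trace_smul, smul_eq_mul, mul_comm]
        rw [h2, smul_zero]
    exact funext fun i => (Fintype.linearIndependent_iff.1 hli) v hz0 i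
  -- z is a combination of the f i
  have hzs : z ∈ Submodule.span ℂ (Set.range fun i => (f i).map e) := by
    refine (Submodule.span_le.2 ?_) hz
    rintro _ ⟨h, rfl⟩
    have hWh : W h ∈ Submodule.span F (Set.range f) := by
      rw [hspan]
      exact Submodule.subset_span ⟨h, rfl⟩
    obtain ⟨c, hc⟩ := (Submodule.mem_span_range_iff_exists_fun F).1 hWh
    have h3 : (W h).map e = ∑ i, e (c i) • (f i).map e := by
      rw [← hc]
      ext a b
      simp [Matrix.map_apply, Matrix.sum_apply, map_sum]
    show (W h).map e ∈ _
    rw [h3]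
    exact Submodule.sum_mem _ fun i _ =>
      Submodule.smul_mem _ _ (Submodule.subset_span ⟨i, rfl⟩)
  obtain ⟨c, hc⟩ := (Submodule.mem_span_range_iff_exists_fun ℂ).1 hzs
  have hBe : (B.map e).det ≠ 0 := by
    have : (B.map e).det = e B.det := by
      rw [RingHom.map_det]; rfl
    rw [this]
    exact (map_ne_zero e).2 hBdet
  have hBc : (B.map e) *ᵥ c = 0 := by
    ext j
    have h4 := hzg (g j)
    rw [hg j, ← hc, Finset.sum_mul, Matrix.trace_sum] at h4
    simp only [Matrix.mulVec, dotProduct, Pi.zero_apply, Matrix.map_apply, B]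
    rw [← h4]
    refine Finset.sum_congr rfl fun i _ => ?_
    rw [smul_mul_assoc, Matrix.trace_smul, smul_eq_mul, mul_comm, ← Matrix.map_mul]
    congr 1
    simp only [Matrix.trace, map_sum, Matrix.diag_apply, Matrix.map_apply]
  have hc0 : c = 0 := by
    by_contra hne
    exact hBe (Matrix.exists_mulVec_eq_zero_iff.1 ⟨c, hne, hBc⟩)
  rw [← hc, hc0]
  simp

end Pool.Agent.J6H90.WT
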