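import Pool.Agent.J6H90.WT.StmB

/-!
# Project WT, module CYC: the tame inertia group is procyclic
-/

set_option autoImplicit false

open Matrix Polynomial NumberField Filter Topology Pool.Agent.W401.Cheb Pool.Agent.W569.FM

namespace Pool.Agent.J6H90.WT

section closed

variable {E : Type} [Field E]

theorem isOpen_fix_int (x : OO E) : IsOpen {g : GF E | g • x = x} := by
  have hx : IsIntegral E (x : AlgebraicClosure E) := Algebra.IsIntegral.isIntegral _
  have h1 := stabilizer_isOpen_of_isIntegral (K := E) (x : AlgebraicClosure E)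
  have h2 : {g : GF E | g • x = x} = (MulAction.stabilizer (GF E) (x : AlgebraicClosure E) : Set (GF E)) := by
    ext g
    rw [SetLike.mem_coe, MulAction.mem_stabilizer_iff]
    constructor
    · intro h
      exact congrArg (fun z : OO E => (z : AlgebraicClosure E)) h
    · intro h
      exact RingOfIntegers.ext h
  rw [h2]; exact h1

/-- the inertia group is closed -/
theorem isClosed_inert (P : Ideal (OO E)) : IsClosed {g : GF E | InInertia P g} := by
  have h1 : {g : GF E | InInertia P g} = ⋂ x : OO E, {g : GF E | g • x - x ∈ P} := by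
    ext g; simp only [Set.mem_iInter]; rfl
  rw [h1]
  refine isClosed_iInter fun x => ?_
  rw [← isOpen_compl_iff, isOpen_iff_mem_nhds]
  intro g hg
  have h2 : IsOpen {h : GF E | (g⁻¹ * h) • x = x} :=
    (isOpen_fix_int x).preimage (continuous_const.mul continuous_id)
  refine Filter.mem_of_superset (h2.mem_nhds (by simp)) ?_
  intro h hh hcon
  apply hg
  have h3 : h • x = g • x := by
    have h4 : (g⁻¹ * h) • x = x := hh
    rw [mul_smul, inv_smul_eq_iff] at h4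
    exact h4
  show g • x - x ∈ P
  rw [← h3]; exact hcon

end closed

section padic

variable {ℓ : ℕ} [Fact ℓ.Prime] {ι : Type} [Fintype ι] [DecidableEq ι]

/-- the elements `exp (c N0)`, `c` a `p`-adic integer, form a closed set -/
theorem isClosed_oneparam {N0 : Matrix ι ι ℚ_[ℓ]} (hN : IsNilpotent N0) :
    IsClosed (Set.range fun c : ℤ_[ℓ] => IsNilpotent.exp ((c : ℚ_[ℓ]) • N0)) := by
  obtain ⟨D, hD⟩ := hN
  have h1 : (fun c : ℤ_[ℓ] => IsNilpotent.exp ((c : ℚ_[ℓ]) • N0)) =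
      fun c : ℤ_[ℓ] => ∑ i ∈ Finset.range D, ((i.factorial : ℚ)⁻¹) • ((c : ℚ_[ℓ]) • N0) ^ i := by
    funext c
    apply IsNilpotent.exp_eq_sum
    rw [_root_.smul_pow, hD, smul_zero]
  have h2 : Continuous fun c : ℤ_[ℓ] => IsNilpotent.exp ((c : ℚ_[ℓ]) • N0) := by
    rw [h1]
    refine continuous_finsetSum _ fun i _ => ?_
    have h3 : (fun c : ℤ_[ℓ] => ((i.factorial : ℚ)⁻¹) • ((c : ℚ_[ℓ]) • N0) ^ i) =
        fun c : ℤ_[ℓ] => (c : ℚ_[ℓ]) ^ i • (((i.factorial : ℚ)⁻¹) • N0 ^ i) := by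
      funext c
      rw [_root_.smul_pow, smul_comm]
    rw [h3]
    exact (continuous_subtype_val.pow i).smul continuous_const
  exact (isCompact_range h2).isClosed

theorem exp_natCast {N0 : Matrix ι ι ℚ_[ℓ]} (hN : IsNilpotent N0) (k : ℕ) :
    IsNilpotent.exp ((k : ℚ_[ℓ]) • N0) = IsNilpotent.exp N0 ^ k := by
  induction k with
  | zero => rw [Nat.cast_zero, zero_smul, pow_zero, IsNilpotent.exp_zero]
  | succ k ih =>
    have h1 : Commute ((k : ℚ_[ℓ]) • N0) N0 := (Commute.refl N0).smul_left _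
    rw [Nat.cast_succ, add_smul, one_smul, IsNilpotent.exp_add_of_commute h1 (hN.smul _) hN, ih,
      pow_succ]

end padic

theorem cyc (hcycfin : S_CYCFIN) (_hlog : S_LOG) : S_CYC := by
  classical
  intro K _ _ ℓ _ ι _ _ ρ hρ H hHn hH hU P hP hℓP _
  have hℓ : ℓ.Prime := Fact.out
  obtain ⟨l, hl, hlP⟩ := Pool.Agent.R703.FM.exists_prime_mem P hP
  have hne : ℓ ≠ l := by
    rintro rfl
    exact hℓP hlP
  -- the compact group
  set J : Set (GK K) := {g | g ∈ H ∧ InInertia P g} with hJ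
  have hJc : IsClosed J := (Subgroup.isClosed_of_isOpen H hH).inter (isClosed_inert P)
  -- the condition modulo an open normal subgroup
  let W : OpenNormalSubgroup (GK K) → Subgroup (GK K) := fun U => ρ.ker ⊔ (U : Subgroup (GK K))
  have hWn : ∀ U, (W U).Normal := fun U => by
    have := U.isNormal'
    exact Subgroup.sup_normal _ _
  have hWo : ∀ U, IsOpen (W U : Set (GK K)) := fun U =>
    Subgroup.isOpen_mono le_sup_right U.isOpen'
  let S : OpenNormalSubgroup (GK K) → Set (GK K) := fun U =>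
    J ∩ {g | ∀ τ ∈ J, ∃ k : ℕ, τ * (g ^ k)⁻¹ ∈ W U}
  have hSc : ∀ U, IsClosed (S U) := by
    intro U
    refine hJc.inter ?_
    rw [← isOpen_compl_iff, isOpen_iff_mem_nhds]
    intro g hg
    have h2 : IsOpen {h : GK K | g⁻¹ * h ∈ W U} :=
      (hWo U).preimage (continuous_const.mul continuous_id)
    refine Filter.mem_of_superset (h2.mem_nhds (by
      show g⁻¹ * g ∈ W U
      rw [inv_mul_cancel]
      exact (W U).one_mem)) ?_
    intro h hh hcon
    apply hg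
    intro τ hτ
    obtain ⟨k, hk⟩ := hcon τ hτ
    refine ⟨k, ?_⟩
    have := hWn U
    rw [← QuotientGroup.eq_one_iff] at hk ⊢
    have h3 : ((g : GK K) : GK K ⧸ W U) = (h : GK K ⧸ W U) := QuotientGroup.eq.2 hh
    rw [QuotientGroup.mk_mul, QuotientGroup.mk_inv, QuotientGroup.mk_pow] at hk ⊢
    rw [h3]
    exact hk
  have hSn : ∀ U, (S U).Nonempty := by
    intro U
    have := hWn U
    have hpow : ∀ x ∈ H, ∃ k : ℕ, x ^ (ℓ ^ k) ∈ W U := by
      intro x hx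
      have hcomp : IsClosed (ρ '' (W U : Set (GK K))ᶜ) :=
        ((hWo U).isClosed_compl.isCompact.image hρ).isClosed
      have h2 : (1 : Matrix ι ι ℚ_[ℓ]) ∉ ρ '' (W U : Set (GK K))ᶜ := by
        rintro ⟨y, hy, hy1⟩
        exact hy ((le_sup_left : ρ.ker ≤ W U) hy1)
      have h3 := (hU x hx).eventually (hcomp.isOpen_compl.mem_nhds h2)
      obtain ⟨k, hk⟩ := h3.exists
      refine ⟨k, ?_⟩
      by_contra hcon
      exact hk ⟨x ^ (ℓ ^ k), hcon, map_pow ρ x _⟩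
    set f : H →* (GK K ⧸ W U) := (QuotientGroup.mk' (W U)).comp H.subtype with hf
    have hE : IsPGroup ℓ f.range := by
      rintro ⟨_, x, rfl⟩
      obtain ⟨k, hk⟩ := hpow x x.2
      refine ⟨k, Subtype.ext ?_⟩
      change f x ^ (ℓ ^ k) = 1
      rw [← map_pow]
      exact (QuotientGroup.eq_one_iff _).2 hk
    have hopen : IsOpen (f.rangeRestrict.ker : Set H) := by
      have h2 : (f.rangeRestrict.ker : Set H) = H.subtype ⁻¹' (W U : Set (GK K)) := by
        ext x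
        rw [SetLike.mem_coe, MonoidHom.ker_rangeRestrict, MonoidHom.mem_ker]
        exact QuotientGroup.eq_one_iff _
      rw [h2]
      exact (hWo U).preimage continuous_subtype_val
    obtain ⟨g, hg, h⟩ := hcycfin K ℓ l hℓ hl hne H hH f.range hE f.rangeRestrict hopen P hP hlP
    refine ⟨g, ⟨g.2, hg⟩, ?_⟩
    rintro τ ⟨hτH, hτ⟩
    obtain ⟨k, hk⟩ := h ⟨τ, hτH⟩ hτ
    refine ⟨k, ?_⟩
    have h3 := congrArg Subtype.val hk
    have h4 : ((τ : GK K) : GK K ⧸ W U) = ((g : GK K) : GK K ⧸ W U) ^ k := h3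
    rw [← QuotientGroup.eq_one_iff, QuotientGroup.mk_mul, QuotientGroup.mk_inv,
      QuotientGroup.mk_pow, h4, mul_inv_cancel]
  have hSd : Directed (fun x1 x2 => x1 ⊇ x2) S := by
    intro U1 U2
    refine ⟨U1 ⊓ U2, ?_, ?_⟩
    · rintro g ⟨h1, h2⟩
      refine ⟨h1, fun τ hτ => ?_⟩
      obtain ⟨k, hk⟩ := h2 τ hτ
      refine ⟨k, ?_⟩
      refine (sup_le_sup_left (?_ : ((U1 ⊓ U2 : OpenNormalSubgroup (GK K)) : Subgroup (GK K)) ≤ U1)
        _ : W (U1 ⊓ U2) ≤ W U1) hk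
      intro x hx
      exact hx.1
    · rintro g ⟨h1, h2⟩
      refine ⟨h1, fun τ hτ => ?_⟩
      obtain ⟨k, hk⟩ := h2 τ hτ
      refine ⟨k, ?_⟩
      refine (sup_le_sup_left (?_ : ((U1 ⊓ U2 : OpenNormalSubgroup (GK K)) : Subgroup (GK K)) ≤ U2)
        _ : W (U1 ⊓ U2) ≤ W U2) hk
      intro x hx
      exact hx.2
  obtain ⟨U0, -⟩ := ProfiniteGrp.exist_openNormalSubgroup_sub_open_nhds_of_one
    (isOpen_univ : IsOpen (Set.univ : Set (GK K))) (Set.mem_univ _)
  have : Nonempty (OpenNormalSubgroup (GK K)) := ⟨U0⟩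
  have hne' : (⋂ U, S U).Nonempty :=
    IsCompact.nonempty_iInter_of_directed_nonempty_isCompact_isClosed S hSd hSn
      (fun U => (hSc U).isCompact) hSc
  obtain ⟨τ0, hτ0⟩ := hne'
  rw [Set.mem_iInter] at hτ0
  have hJ0 : τ0 ∈ J := (hτ0 U0).1
  refine ⟨τ0, hJ0.1, hJ0.2, ?_⟩
  intro N0 hN0 hexp τ hτH hτ
  have hC := isClosed_oneparam hN0
  suffices h : ρ τ ∈ Set.range fun c : ℤ_[ℓ] => IsNilpotent.exp ((c : ℚ_[ℓ]) • N0) by
    obtain ⟨c, hc⟩ := h
    exact ⟨c, hc.symm⟩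
  by_contra hcon
  have h1 : (fun u => ρ (τ * u)) ⁻¹'
      (Set.range fun c : ℤ_[ℓ] => IsNilpotent.exp ((c : ℚ_[ℓ]) • N0))ᶜ ∈ 𝓝 (1 : GK K) := by
    apply (hC.isOpen_compl.preimage (hρ.comp (continuous_const.mul continuous_id))).mem_nhds
    show ρ (τ * 1) ∉ _
    rwa [mul_one]
  obtain ⟨s, hs1, hs2, hs3⟩ := mem_nhds_iff.1 h1
  obtain ⟨U, hUs⟩ := ProfiniteGrp.exist_openNormalSubgroup_sub_open_nhds_of_one hs2 hs3
  have hUn : (U : Subgroup (GK K)).Normal := U.isNormal'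
  obtain ⟨k, hk⟩ := (hτ0 U).2 τ ⟨hτH, hτ⟩
  obtain ⟨a, ha, u, hu, hau⟩ := Subgroup.mem_sup_of_normal_right.1 hk
  -- `τ = a u τ0 ^ k`
  have h2 : τ = a * u * τ0 ^ k := by rw [hau, inv_mul_cancel_right]
  have h3 : τ⁻¹ * u⁻¹ * τ⁻¹⁻¹ ∈ (U : Subgroup (GK K)) :=
    hUn.conj_mem _ ((U : Subgroup (GK K)).inv_mem hu) τ⁻¹
  have h4 := hs1 (hUs h3)
  apply h4
  refine ⟨(k : ℤ_[ℓ]), ?_⟩
  show IsNilpotent.exp (((k : ℤ_[ℓ]) : ℚ_[ℓ]) • N0) = ρ (τ * (τ⁻¹ * u⁻¹ * τ⁻¹⁻¹))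
  rw [PadicInt.coe_natCast, exp_natCast hN0, hexp, ← map_pow]
  have h5 : τ * (τ⁻¹ * u⁻¹ * τ⁻¹⁻¹) = u⁻¹ * (a * u * τ0 ^ k) := by
    rw [← h2]
    group
  have h6 : ρ a = 1 := ha
  rw [h5, map_mul, map_mul, map_mul, h6, one_mul, ← mul_assoc, ← map_mul, inv_mul_cancel, map_one,
    one_mul]

end Pool.Agent.J6H90.WT
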