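import Pool.Agent.J6H90.WT.StmB
import Pool.Agent.W880.UF2.Wild

/-!
# Module CYCFIN: the image of the inertia group in a finite `p`-group is cyclic (helper98)
-/

set_option autoImplicit false

open Matrix Polynomial NumberField Filter Topology Pool.Agent.W401.Cheb Pool.Agent.W569.FM
open Pool.Agent.W258.FM Pool.Agent.W880.UF2

namespace Pool.Agent.J6H90.WT

section general

variable {R : Type*} [CommRing R] [IsDedekindDomain R] {G : Type*} [Group G]
  [MulSemiringAction G R] [FaithfulSMul G R]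

/-- an inertia element with trivial multiplier has order a power of `l` -/
lemma cycfin_pow [Finite G] {P : Ideal R} (hP : P.IsMaximal) {l : ℕ}
    (hlp : l.Prime) (hlP : (l : R) ∈ P) {w : G} (hwI : Iner P w)
    (hwt : ∀ y ∈ P, w • y - y ∈ P ^ 2) : ∃ a : ℕ, w ^ (l ^ a) = 1 := by
  obtain ⟨a, M, hM, hord⟩ := Nat.exists_eq_pow_mul_and_not_dvd
    (show orderOf w ≠ 0 from (orderOf_pos w).ne') l hlp.ne_one
  refine ⟨a, ?_⟩
  have hMP : (M : R) ∉ P := by
    intro h
    have hco : Nat.Coprime M l := ((Nat.Prime.coprime_iff_not_dvd hlp).2 hM).symm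
    have hb := Nat.gcd_eq_gcd_ab M l
    rw [hco] at hb
    apply hP.ne_top
    rw [Ideal.eq_top_iff_one]
    have e : (1 : R) = (M : R) * ((M.gcdA l : ℤ) : R) + (l : R) * ((M.gcdB l : ℤ) : R) := by
      have := congrArg (fun z : ℤ => (z : R)) hb
      push_cast at this
      exact this
    rw [e]
    exact Ideal.add_mem _ (Ideal.mul_mem_right _ _ h) (Ideal.mul_mem_right _ _ hlP)
  refine key hP hMP ?_ (hwI.pow _) (pow_triv hwI hwt _)
  rw [← pow_mul, ← hord]
  exact pow_orderOf_eq_one w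

theorem cycfin_gen [Finite G] {P : Ideal R} (hP : P.IsMaximal) (h0 : P ≠ ⊥) {l : ℕ}
    (hlp : l.Prime) (hlP : (l : R) ∈ P) (J : Subgroup G) (hJ : ∀ τ ∈ J, Iner P τ) :
    ∃ g ∈ J, ∀ τ ∈ J, ∃ k a : ℕ, ((g ^ k)⁻¹ * τ) ^ (l ^ a) = 1 := by
  obtain ⟨π, hπ, hπ2, hsp⟩ := exists_unif hP.isPrime h0
  have hex : ∀ τ : J, ∃ u : R, (τ : G) • π - u * π ∈ P ^ 2 := fun τ =>
    hsp _ (Iner.mem (hJ τ τ.2) π hπ)
  choose θ hθ using hex
  have huniq : ∀ (g : G) (u v : R), g • π - u * π ∈ P ^ 2 → g • π - v * π ∈ P ^ 2 →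
      Ideal.Quotient.mk P u = Ideal.Quotient.mk P v := by
    intro g u v hu hv
    rw [Ideal.Quotient.eq]
    refine cancel_unif hP hπ hπ2 ?_
    have e : (u - v) * π = (g • π - v * π) - (g • π - u * π) := by ring
    rw [e]
    exact Ideal.sub_mem _ hv hu
  let f : J →* R ⧸ P :=
    { toFun := fun τ => Ideal.Quotient.mk P (θ τ)
      map_one' := by
        rw [← map_one (Ideal.Quotient.mk P)]
        exact huniq 1 _ _ (by simpa using hθ 1) (by simp)
      map_mul' := by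
        intro a b
        rw [← map_mul]
        refine huniq ((a * b : J) : G) _ _ (hθ _) ?_
        have e : ((a * b : J) : G) • π - (θ a * θ b) * π =
            ((a : G) • ((b : G) • π) - θ a * ((b : G) • π)) +
              θ a * ((b : G) • π - θ b * π) := by
          rw [Subgroup.coe_mul, mul_smul]; ring
        rw [e]
        refine Ideal.add_mem _ ?_ (Ideal.mul_mem_left _ _ (hθ b))
        exact mult_all hπ hsp (hJ a a.2) (hθ a) _ (Iner.mem (hJ b b.2) π hπ) }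
  have hdom : IsDomain (R ⧸ P) := Ideal.Quotient.isDomain P
  set F : J →* (R ⧸ P)ˣ := f.toHomUnits with hF
  have hfin : Finite F.range := Set.finite_range F |>.to_subtype
  have hcyc : IsCyclic F.range := isCyclic_subgroup_units F.range
  obtain ⟨x, hx⟩ := IsCyclic.exists_generator (α := F.range)
  obtain ⟨g, hg⟩ := x.2
  refine ⟨g, g.2, ?_⟩
  intro τ hτ
  have h1 : (⟨F ⟨τ, hτ⟩, ⟨_, rfl⟩⟩ : F.range) ∈ Submonoid.powers x := by
    rw [(isOfFinOrder_of_finite x).mem_powers_iff_mem_zpowers]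
    exact hx _
  obtain ⟨k, hk⟩ := h1
  refine ⟨k, ?_⟩
  have hk2 : F (g ^ k) = F ⟨τ, hτ⟩ := by
    have := congrArg (Subtype.val) hk
    rw [map_pow, hg]
    simpa using this
  have hwJ : ((g : G) ^ k)⁻¹ * τ ∈ J := J.mul_mem (J.inv_mem (J.pow_mem g.2 k)) hτ
  refine cycfin_pow hP hlp hlP (hJ _ hwJ) ?_
  set w : J := ⟨((g : G) ^ k)⁻¹ * τ, hwJ⟩ with hw
  have hw2 : w = (g ^ k)⁻¹ * ⟨τ, hτ⟩ := by
    apply Subtype.ext
    rw [hw]
    simp
  have h3 : F w = 1 := by
    rw [hw2, map_mul, map_inv, hk2, inv_mul_cancel]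
  have h4 : f w = 1 := by
    have := congrArg (Units.val) h3
    simpa [hF] using this
  have h5 : θ w - 1 ∈ P := by
    rw [← Ideal.Quotient.eq, map_one]
    exact h4
  intro y hy
  have h6 := mult_all hπ hsp (hJ _ hwJ) (hθ w) y hy
  have e : (((g : G) ^ k)⁻¹ * τ) • y - y = ((((g : G) ^ k)⁻¹ * τ) • y - θ w * y) + (θ w - 1) * y := by
    ring
  rw [e]
  refine Ideal.add_mem _ h6 ?_
  rw [pow_two]
  exact Ideal.mul_mem_mul h5 hy

end general

/-- the inertia group of `P` -/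
def cycfinIner {F : Type} [Field F] (P : Ideal (OO F)) : Subgroup (GF F) where
  carrier := {τ | InInertia P τ}
  mul_mem' := by
    intro a b ha hb x
    have e : (a * b) • x - x = (a • (b • x) - b • x) + (b • x - x) := by
      rw [mul_smul]; ring
    rw [e]
    exact Ideal.add_mem _ (ha _) (hb _)
  one_mem' := by
    intro x
    simp
  inv_mem' := by
    intro a ha x
    have h := ha (a⁻¹ • x)
    rw [smul_inv_smul] at h
    have e : a⁻¹ • x - x = -(x - a⁻¹ • x) := by ring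
    rw [e]
    exact (Ideal.neg_mem_iff _).2 h

/-- **CYCFIN** -/
theorem cycfin : S_CYCFIN := by
  intro F _ _ p l hp hl hpl H hH hHo E _ hE f hopen P hP hlP
  -- the field
  have hW : IsOpen (((↑) : H → GF F) '' (f.ker : Set H)) :=
    hHo.isOpenMap_subtype_val _ hopen
  have hW1 : ((↑) : H → GF F) '' (f.ker : Set H) ∈ nhds (1 : GF F) :=
    hW.mem_nhds ⟨1, f.ker.one_mem, rfl⟩
  obtain ⟨L, hfd, hnorm, hLW⟩ :=
    (krullTopology_mem_nhds_one_iff_of_normal F (AlgebraicClosure F) _).1 hW1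
  have hgal : IsGalois F L := ⟨⟩
  have hnf : NumberField L := NumberField.of_module_finite F L
  set r : GF F →* Gal(L/F) := AlgEquiv.restrictNormalHom L with hr
  have hrk : r.ker = L.fixingSubgroup := by
    rw [hr, IntermediateField.restrictNormalHom_ker]
  -- the prime
  set φ : 𝓞 L →+* OO F := algebraMap (𝓞 L) (OO F) with hφ
  have hcomm : ∀ (τ : GF F) (x : 𝓞 L), φ (r τ • x) = τ • φ x := by
    intro τ x
    apply RingOfIntegers.ext
    exact AlgEquiv.restrictNormal_commutes τ L (x : L)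
  set P0 : Ideal (𝓞 L) := P.comap φ with hP0
  have hP0p : P0.IsPrime := by
    have := hP.isPrime
    exact Ideal.comap_isPrime φ P
  have hlP0 : (l : 𝓞 L) ∈ P0 := by
    rw [hP0, Ideal.mem_comap, map_natCast]
    exact hlP
  have hP0b : P0 ≠ ⊥ := by
    intro h
    rw [h, Ideal.mem_bot] at hlP0
    exact hl.ne_zero (by exact_mod_cast hlP0)
  have hmax : P0.IsMaximal := hP0p.isMaximal hP0b
  have hff : FaithfulSMul Gal(L/F) (𝓞 L) := by
    refine ⟨?_⟩
    intro a b hab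
    ext x
    obtain ⟨y, z, hz, rfl⟩ := IsFractionRing.div_surjective (A := 𝓞 L) x
    have ey : a (algebraMap (𝓞 L) L y) = b (algebraMap (𝓞 L) L y) :=
      congrArg (algebraMap (𝓞 L) L) (hab y)
    have ez : a (algebraMap (𝓞 L) L z) = b (algebraMap (𝓞 L) L z) :=
      congrArg (algebraMap (𝓞 L) L) (hab z)
    rw [map_div₀, map_div₀, ey, ez]
  obtain ⟨g, hg, hall⟩ := cycfin_gen (G := Gal(L/F)) hmax hP0b hl hlP0
    ((cycfinIner P ⊓ H).map r) (by
      rintro _ ⟨τ, hτ, rfl⟩ x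
      rw [hP0, Ideal.mem_comap, map_sub, hcomm]
      exact hτ.1 (φ x))
  obtain ⟨g', hg', rfl⟩ := hg
  refine ⟨⟨g', hg'.2⟩, hg'.1, ?_⟩
  intro τ hτ
  obtain ⟨k, a, hka⟩ := hall (r τ) ⟨τ, ⟨hτ, τ.2⟩, rfl⟩
  refine ⟨k, ?_⟩
  set w : H := ((⟨g', hg'.2⟩ : H) ^ k)⁻¹ * τ with hw
  have h1 : r ((w : GF F) ^ (l ^ a)) = 1 := by
    rw [map_pow, ← hka]
    congr 1
    rw [hw]
    push_cast
    rw [map_mul, map_inv, map_pow]
  have h2 : (w : GF F) ^ (l ^ a) ∈ L.fixingSubgroup := by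
    rw [← hrk]
    exact h1
  obtain ⟨v, hv, hv2⟩ := hLW h2
  have h3 : v = w ^ (l ^ a) := Subtype.ext (by rw [hv2]; push_cast; rfl)
  have h4 : f w ^ (l ^ a) = 1 := by
    rw [← map_pow, ← h3]
    exact hv
  obtain ⟨m, hm⟩ := hE (f w)
  have h5 : f w = 1 := by
    have hd1 := orderOf_dvd_of_pow_eq_one h4
    have hd2 := orderOf_dvd_of_pow_eq_one hm
    have hcop : Nat.Coprime (l ^ a) (p ^ m) :=
      Nat.Coprime.pow _ _ ((Nat.coprime_primes hl hp).2 (Ne.symm hpl))
    have : orderOf (f w) ∣ 1 := by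
      have := Nat.dvd_gcd hd1 hd2
      rwa [hcop.gcd_eq_one] at this
    exact orderOf_eq_one_iff.1 (Nat.dvd_one.1 this)
  rw [hw, map_mul, map_inv, map_pow, inv_mul_eq_one] at h5
  exact h5.symm

end Pool.Agent.J6H90.WT
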