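import Pool.Agent.J6H90.WT.Stm
import Pool.Agent.R401.Burn

/-!
# Project WT, module DUAL
-/

set_option autoImplicit false

open Matrix Polynomial

namespace Pool.Agent.J6H90.WT

section dual

variable {n m : ℕ}

/-- a matrix all of whose powers (of positive exponent) have trace `0` is nilpotent -/
theorem nil_of_tr {z : Matrix (Fin n) (Fin n) ℂ} (h : ∀ r : ℕ, (z ^ (r + 1)).trace = 0) :
    IsNilpotent z := by
  have h2 := Pool.Agent.R401.Burn.isNilpotent_of_trace_pow (k := ℂ) (V := Fin n → ℂ)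
    (fun m h1 _ => Nat.cast_ne_zero.2 h1.ne') (Matrix.toLin' z) (by
      intro r
      rw [← Matrix.toLin'_pow, Matrix.trace_toLin'_eq]
      exact h r)
  obtain ⟨e, he⟩ := h2
  refine ⟨e, ?_⟩
  rw [← Matrix.toLin'_pow] at he
  exact (LinearEquiv.map_eq_zero_iff Matrix.toLin').1 he

/-- the second component as a linear map -/
def sec (n m : ℕ) : Tri n m →ₗ[ℂ] Matrix (Fin m) (Fin m) ℂ :=
  (LinearMap.fst ℂ _ _).comp (LinearMap.snd ℂ _ _)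

theorem sec_apply (a : Tri n m) : sec n m a = a.2.1 := rfl

/-- the algebra of the second components -/
def BB (𝒜 : Subalgebra ℂ (Tri n m)) : Submodule ℂ (Matrix (Fin m) (Fin m) ℂ) :=
  𝒜.toSubmodule.map (sec n m)

theorem mem_BB {𝒜 : Subalgebra ℂ (Tri n m)} {a : Matrix (Fin m) (Fin m) ℂ} :
    a ∈ BB 𝒜 ↔ ∃ b ∈ 𝒜, b.2.1 = a := Iff.rfl

/-- every linear form is given by the trace form on the algebra of the second components -/
theorem repr_form {𝒜 : Subalgebra ℂ (Tri n m)} (h𝒜 : Nondeg 𝒜)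
    (f : Matrix (Fin m) (Fin m) ℂ →ₗ[ℂ] ℂ) :
    ∃ b₀ ∈ 𝒜, ∀ b ∈ 𝒜, f b.2.1 = (b₀.2.1 * b.2.1).trace := by
  let Φ : BB 𝒜 →ₗ[ℂ] Module.Dual ℂ (BB 𝒜) :=
    LinearMap.mk₂ ℂ (fun b b' : BB 𝒜 => ((b : Matrix (Fin m) (Fin m) ℂ) * b').trace)
      (by intro a b c; simp [add_mul])
      (by intro c a b; simp)
      (by intro a b c; simp [mul_add])
      (by intro c a b; simp)
  have hinj : Function.Injective Φ := by
    rw [injective_iff_map_eq_zero]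
    rintro ⟨b, hb⟩ h
    obtain ⟨a, ha, rfl⟩ := mem_BB.1 hb
    have h1 : a.2.1 = 0 := by
      apply h𝒜 a ha
      intro b hb
      have := LinearMap.congr_fun h (⟨b.2.1, mem_BB.2 ⟨b, hb, rfl⟩⟩ : BB 𝒜)
      exact this
    exact Subtype.ext h1
  have hsurj : Function.Surjective Φ :=
    (LinearMap.injective_iff_surjective_of_finrank_eq_finrank (Subspace.dual_finrank_eq).symm).1 hinj
  obtain ⟨⟨b, hb⟩, h1⟩ := hsurj (f.comp (BB 𝒜).subtype)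
  obtain ⟨a, ha, rfl⟩ := mem_BB.1 hb
  refine ⟨a, ha, fun b hb => ?_⟩
  have := LinearMap.congr_fun h1 (⟨b.2.1, mem_BB.2 ⟨b, hb, rfl⟩⟩ : BB 𝒜)
  exact this.symm

theorem eq_zero_of_mulVec {z : Matrix (Fin m) (Fin m) ℂ} (h : ∀ v, z *ᵥ v = 0) : z = 0 := by
  apply Matrix.toLin'.injective
  ext v i
  simp [h]

theorem left_ideal {𝒜 : Subalgebra ℂ (Tri n m)} (h𝒜 : Nondeg 𝒜) {E x : Tri n m} (hE : E ∈ 𝒜)
    (hx : x ∈ 𝒜) (h : ∀ v, x.2.1 *ᵥ v = 0 → E.2.1 *ᵥ v = 0) :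
    ∃ y ∈ 𝒜, (y * x).2.1 = E.2.1 := by
  by_contra hcon
  push Not at hcon
  -- the left ideal
  let L : Submodule ℂ (Matrix (Fin m) (Fin m) ℂ) := (BB 𝒜).map (LinearMap.mulRight ℂ x.2.1)
  have hEL : E.2.1 ∉ L := by
    rintro ⟨b, hb, h1⟩
    obtain ⟨a, ha, rfl⟩ := mem_BB.1 hb
    exact hcon a ha h1
  obtain ⟨f, hf1, hf2⟩ := Submodule.exists_le_ker_of_notMem hEL
  obtain ⟨b₀, hb₀, h0⟩ := repr_form h𝒜 f
  have h1 : (x * b₀).2.1 = 0 := by
    apply h𝒜 _ (𝒜.mul_mem hx hb₀)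
    intro b hb
    have h2 : f (b * x).2.1 = 0 := hf2 ⟨b.2.1, mem_BB.2 ⟨b, hb, rfl⟩, rfl⟩
    rw [h0 _ (𝒜.mul_mem hb hx)] at h2
    have h3 : ((x * b₀).2.1 * b.2.1).trace = (b₀.2.1 * (b * x).2.1).trace := by
      show (x.2.1 * b₀.2.1 * b.2.1).trace = (b₀.2.1 * (b.2.1 * x.2.1)).trace
      rw [Matrix.trace_mul_cycle, ← Matrix.trace_mul_cycle, mul_assoc, Matrix.trace_mul_comm,
        mul_assoc]
    rw [h3, h2]
  have h2 : E.2.1 * b₀.2.1 = 0 := by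
    apply eq_zero_of_mulVec
    intro v
    rw [← mulVec_mulVec]
    apply h
    rw [mulVec_mulVec]
    have h3 : x.2.1 * b₀.2.1 = 0 := h1
    rw [h3, zero_mulVec]
  apply hf1
  rw [h0 _ hE, Matrix.trace_mul_comm, h2, Matrix.trace_zero]

theorem right_ideal {𝒜 : Subalgebra ℂ (Tri n m)} (h𝒜 : Nondeg 𝒜) {E x : Tri n m} (hE : E ∈ 𝒜)
    (hx : x ∈ 𝒜) (h : ∀ v, ∃ v', x.2.1 *ᵥ v' = E.2.1 *ᵥ v) :
    ∃ y ∈ 𝒜, (x * y).2.1 = E.2.1 := by
  by_contra hcon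
  push Not at hcon
  -- the right ideal
  let L : Submodule ℂ (Matrix (Fin m) (Fin m) ℂ) := (BB 𝒜).map (LinearMap.mulLeft ℂ x.2.1)
  have hEL : E.2.1 ∉ L := by
    rintro ⟨b, hb, h1⟩
    obtain ⟨a, ha, rfl⟩ := mem_BB.1 hb
    exact hcon a ha h1
  obtain ⟨f, hf1, hf2⟩ := Submodule.exists_le_ker_of_notMem hEL
  obtain ⟨b₀, hb₀, h0⟩ := repr_form h𝒜 f
  have h1 : (b₀ * x).2.1 = 0 := by
    apply h𝒜 _ (𝒜.mul_mem hb₀ hx)
    intro b hb
    have h2 : f (x * b).2.1 = 0 := hf2 ⟨b.2.1, mem_BB.2 ⟨b, hb, rfl⟩, rfl⟩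
    rw [h0 _ (𝒜.mul_mem hx hb)] at h2
    have h3 : ((b₀ * x).2.1 * b.2.1).trace = (b₀.2.1 * (x * b).2.1).trace := by
      show (b₀.2.1 * x.2.1 * b.2.1).trace = (b₀.2.1 * (x.2.1 * b.2.1)).trace
      rw [mul_assoc]
    rw [h3, h2]
  have h2 : b₀.2.1 * E.2.1 = 0 := by
    apply eq_zero_of_mulVec
    intro v
    obtain ⟨v', hv'⟩ := h v
    rw [← mulVec_mulVec, ← hv', mulVec_mulVec]
    have h3 : b₀.2.1 * x.2.1 = 0 := h1
    rw [h3, zero_mulVec]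
  apply hf1
  rw [h0 _ hE, h2, Matrix.trace_zero]

theorem TT_comm (a b : Tri n m) : TT (a * b) = TT (b * a) := by
  show (a.1 * b.1).trace - (a.2.1 * b.2.1).trace = (b.1 * a.1).trace - (b.2.1 * a.2.1).trace
  rw [Matrix.trace_mul_comm, Matrix.trace_mul_comm a.2.1]

theorem TT_sub (a b : Tri n m) : TT (a - b) = TT a - TT b := by
  show (a.1 - b.1).trace - (a.2.1 - b.2.1).trace = a.1.trace - a.2.1.trace - (b.1.trace - b.2.1.trace)
  rw [Matrix.trace_sub, Matrix.trace_sub]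
  ring

/-- an element of `𝒜` orthogonal to `𝒜` whose second component is `0` has a nilpotent first
component -/
theorem nil_first {𝒜 : Subalgebra ℂ (Tri n m)} {z : Tri n m} (hz : z ∈ 𝒜) (h2 : z.2.1 = 0)
    (h : ∀ b ∈ 𝒜, TT (z * b) = 0) : IsNilpotent z.1 := by
  apply nil_of_tr
  intro r
  have h3 := h (z ^ r) (𝒜.pow_mem hz r)
  have h4 : TT (z * z ^ r) = (z.1 ^ (r + 1)).trace := by
    show (z.1 * (z ^ r).1).trace - (z.2.1 * (z ^ r).2.1).trace = _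
    rw [h2, zero_mul, Matrix.trace_zero, sub_zero, Prod.pow_fst, ← pow_succ']
  rw [← h4, h3]

theorem dk : S_DK := by
  intro n m 𝒜 h𝒜 E hE x hx hTE hTx hxE hEE hker v hv
  obtain ⟨y, hy, hyx⟩ := left_ideal h𝒜 hE hx hker
  have hz : E - y * x ∈ 𝒜 := 𝒜.sub_mem hE (𝒜.mul_mem hy hx)
  have hnil : IsNilpotent (E - y * x).1 := by
    apply nil_first hz
    · show E.2.1 - (y * x).2.1 = 0
      rw [hyx, sub_self]
    · intro b hb
      rw [sub_mul, TT_sub, hTE b hb, mul_assoc, TT_comm, mul_assoc, hTx _ (𝒜.mul_mem hb hy),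
        sub_zero]
  obtain ⟨e, he⟩ := hnil
  set v' := E.1 *ᵥ v with hv'
  have h1 : x.1 *ᵥ v' = 0 := by rw [hv', mulVec_mulVec, hxE, hv]
  have h2 : (E - y * x).1 *ᵥ v' = v' := by
    show (E.1 - y.1 * x.1) *ᵥ v' = v'
    rw [sub_mulVec, ← mulVec_mulVec, h1, mulVec_zero, sub_zero, hv', mulVec_mulVec, hEE]
  have h3 : ∀ k : ℕ, ((E - y * x).1 ^ k) *ᵥ v' = v' := by
    intro k
    induction k with
    | zero => rw [pow_zero, one_mulVec]
    | succ k ih => rw [pow_succ, ← mulVec_mulVec, h2, ih]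
  rw [← h3 e, he, zero_mulVec]

theorem di : S_DI := by
  intro n m 𝒜 h𝒜 E hE x hx hTE hTx hEx hEE him v
  obtain ⟨y, hy, hxy⟩ := right_ideal h𝒜 hE hx him
  have hz : E - x * y ∈ 𝒜 := 𝒜.sub_mem hE (𝒜.mul_mem hx hy)
  have hnil : IsNilpotent (E - x * y).1 := by
    apply nil_first hz
    · show E.2.1 - (x * y).2.1 = 0
      rw [hxy, sub_self]
    · intro b hb
      rw [sub_mul, TT_sub, hTE b hb, mul_assoc, hTx _ (𝒜.mul_mem hy hb), sub_zero]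
  obtain ⟨e, he⟩ := hnil
  set z : Matrix (Fin n) (Fin n) ℂ := (E - x * y).1 with hzdef
  have hzE : E.1 * z = z := by
    show E.1 * (E.1 - x.1 * y.1) = E.1 - x.1 * y.1
    rw [mul_sub, hEE, ← mul_assoc, hEx]
  have hxy1 : x.1 * y.1 = E.1 - z := by
    show x.1 * y.1 = E.1 - (E.1 - x.1 * y.1)
    abel
  have hEk : ∀ k : ℕ, E.1 * (z ^ k * E.1) = z ^ k * E.1 := by
    intro k
    cases k with
    | zero => rw [pow_zero, one_mul, hEE]
    | succ k => rw [pow_succ', ← mul_assoc, ← mul_assoc, hzE]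
  have hEg : E.1 * ((∑ i ∈ Finset.range e, z ^ i) * E.1) = (∑ i ∈ Finset.range e, z ^ i) * E.1 := by
    rw [Finset.sum_mul, Finset.mul_sum]
    exact Finset.sum_congr rfl fun i _ => hEk i
  have h1 : (1 - z) * ∑ i ∈ Finset.range e, z ^ i = 1 := by
    rw [mul_neg_geom_sum, he, sub_zero]
  refine ⟨(y.1 * ((∑ i ∈ Finset.range e, z ^ i) * E.1)) *ᵥ v, ?_⟩
  rw [mulVec_mulVec, ← mul_assoc, hxy1, sub_mul, hEg, ← one_sub_mul, ← mul_assoc, h1, one_mul]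

end dual

end Pool.Agent.J6H90.WT
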