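import Pool.Agent.J6H90.WT.Stm

/-! Project WT, module KT: the difference of the traces on the kernels of the monodromy operators. -/

set_option autoImplicit false

open Matrix Polynomial

namespace Pool.Agent.J6H90.WT

namespace KT

variable {n : ℕ}

theorem ws_mono (A : Matrix (Fin n) (Fin n) ℂ) {S S' : Set ℂ} (h : S ⊆ S') : ws A S ≤ ws A S' := by
  rintro x ⟨p, hp, hpS, hx⟩
  exact ⟨p, hp, fun z hz => h (hpS z hz), hx⟩

theorem ws_empty (h6 : S_WS6) (A : Matrix (Fin n) (Fin n) ℂ) : ws A ∅ = ⊥ := by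
  have := (h6 n A ∅ ∅).1 (disjoint_bot_left)
  exact disjoint_self.1 this

theorem ws_biUnion (h6 : S_WS6) (A : Matrix (Fin n) (Fin n) ℂ) (T : ℤ → Set ℂ) (J : Finset ℤ) :
    ws A (⋃ j ∈ J, T j) = ⨆ j ∈ J, ws A (T j) := by
  classical
  induction J using Finset.induction_on with
  | empty => simp [ws_empty h6]
  | insert a s ha ih =>
    rw [Finset.set_biUnion_insert, (h6 n A _ _).2, ih, Finset.iSup_insert]

theorem ws_spec (h4 : S_WS4) (h6 : S_WS6) (A : Matrix (Fin n) (Fin n) ℂ) {S S' : Set ℂ}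
    (h : ∀ z ∈ spectrum ℂ A, z ∈ S') : ws A S = ws A (S ∩ S') := by
  have h1 : ws A S' = ⊤ := (h4 n A S').1 h
  have h2 : ws A (S \ S') = ⊥ := by
    have := (h6 n A (S \ S') S').1 Set.disjoint_sdiff_left
    rw [h1] at this
    exact disjoint_top.1 this
  have h3 : S = (S ∩ S') ∪ (S \ S') := (Set.inter_union_sdiff S S').symm
  conv_lhs => rw [h3]
  rw [(h6 n A _ _).2, h2, sup_bot_eq]

/-- the finite set of weights -/
theorem exists_weights (A : Matrix (Fin n) (Fin n) ℂ) (q : ℕ) (w : ℤ)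
    (h : ∀ z ∈ spectrum ℂ A, ∃ j : ℤ, z ∈ wt q (w + j)) :
    ∃ J : Finset ℤ, ∀ z ∈ spectrum ℂ A, z ∈ ⋃ j ∈ J, wt q (w + j) := by
  classical
  have hf : (spectrum ℂ A).Finite := Matrix.finite_spectrum A
  choose f hf' using h
  have : Fintype (spectrum ℂ A) := hf.fintype
  refine ⟨(Finset.univ : Finset (spectrum ℂ A)).image (fun z => f z.1 z.2), fun z hz => ?_⟩
  simp only [Finset.mem_image, Finset.mem_univ, true_and, Set.mem_iUnion, exists_prop]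
  exact ⟨f z hz, ⟨⟨z, hz⟩, rfl⟩, hf' z hz⟩

theorem dec (h4 : S_WS4) (h6 : S_WS6) (A : Matrix (Fin n) (Fin n) ℂ) (q : ℕ) (w : ℤ)
    (h : ∀ z ∈ spectrum ℂ A, ∃ j : ℤ, z ∈ wt q (w + j)) (S : Set ℂ) (x : Fin n → ℂ)
    (hx : x ∈ ws A S) :
    ∃ (J : Finset ℤ) (μ : ℤ → Fin n → ℂ), (∀ j, μ j ∈ ws A (S ∩ wt q (w + j))) ∧
      ∑ j ∈ J, μ j = x := by
  obtain ⟨J, hJ⟩ := exists_weights A q w h
  rw [ws_spec h4 h6 A hJ] at hx
  have e : S ∩ ⋃ j ∈ J, wt q (w + j) = ⋃ j ∈ J, (S ∩ wt q (w + j)) := by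
    rw [Set.inter_iUnion₂]
  rw [e, ws_biUnion h6, Submodule.mem_iSup_finset_iff_exists_sum] at hx
  obtain ⟨μ, hμ⟩ := hx
  exact ⟨J, fun j => (μ j : Fin n → ℂ), fun j => (μ j).2, hμ⟩

theorem q_pos {q : ℕ} (hq : 2 ≤ q) : (0 : ℝ) < q := by
  have : (2 : ℝ) ≤ q := by exact_mod_cast hq
  linarith

theorem norm_q_mul {q : ℕ} (z : ℂ) : ‖(q : ℂ) * z‖ ^ 2 = (q : ℝ) ^ 2 * ‖z‖ ^ 2 := by
  rw [norm_mul, mul_pow, Complex.norm_natCast]

theorem wt_shift {q : ℕ} (hq : 2 ≤ q) (v : ℤ) : {z : ℂ | (q : ℂ) * z ∈ wt q v} = wt q (v - 2) := by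
  have hq0 := q_pos hq
  ext z
  simp only [wt, Set.mem_ofPred_eq, norm_q_mul]
  rw [zpow_sub₀ hq0.ne', eq_div_iff (by positivity)]
  constructor
  · intro h
    rw [← h]
    norm_cast
    ring
  · intro h
    rw [← h]
    norm_cast
    ring

theorem wt_disj {q : ℕ} (hq : 2 ≤ q) {a b : ℤ} (h : a ≠ b) : Disjoint (wt q a) (wt q b) := by
  rw [Set.disjoint_left]
  intro z h1 h2
  simp only [wt, Set.mem_ofPred_eq] at h1 h2
  rw [h1] at h2
  exact h (zpow_right_injective₀ (q_pos hq) (by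
    have : (2 : ℝ) ≤ q := by exact_mod_cast hq
    intro h3; rw [h3] at this; norm_num at this) h2)

theorem N_pow (h3 : S_WS3) {q : ℕ} (hq : 2 ≤ q) (A N : Matrix (Fin n) (Fin n) ℂ)
    (hN : N * A = (q : ℂ) • (A * N)) (v : ℤ) (x : Fin n → ℂ) (hx : x ∈ ws A (wt q v)) (a : ℕ) :
    N ^ a *ᵥ x ∈ ws A (wt q (v - 2 * a)) := by
  have hq0 : (q : ℂ) ≠ 0 := by
    have := q_pos hq
    exact_mod_cast this.ne'
  induction a with
  | zero => simpa using hx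
  | succ a ih =>
    have h := h3 n A N q hq0 hN _ _ ih
    rw [wt_shift hq] at h
    rw [pow_succ', ← mulVec_mulVec]
    convert h using 3
    push_cast
    ring

/-- the part of weight at most `v` -/
def T (q : ℕ) (v : ℤ) : Set ℂ := {z | ‖z‖ ^ 2 ≤ (q : ℝ) ^ v}

theorem wt_sub_T {q : ℕ} (hq : 2 ≤ q) {a b : ℤ} (h : a ≤ b) : wt q a ⊆ T q b := by
  intro z hz
  simp only [wt, T, Set.mem_ofPred_eq] at hz ⊢
  rw [hz]
  have : (1 : ℝ) ≤ q := by
    have : (2 : ℝ) ≤ q := by exact_mod_cast hq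
    linarith
  exact zpow_le_zpow_right₀ this h

theorem T_wt_empty {q : ℕ} (hq : 2 ≤ q) {a b : ℤ} (h : b < a) : T q b ∩ wt q a = ∅ := by
  rw [Set.eq_empty_iff_forall_notMem]
  rintro z ⟨h1, h2⟩
  simp only [wt, T, Set.mem_ofPred_eq] at h1 h2
  rw [h2] at h1
  have : (1 : ℝ) < q := by
    have : (2 : ℝ) ≤ q := by exact_mod_cast hq
    linarith
  exact absurd h1 (not_le.2 (zpow_lt_zpow_right₀ this h))

theorem T_shift {q : ℕ} (hq : 2 ≤ q) (v : ℤ) : {z : ℂ | (q : ℂ) * z ∈ T q v} = T q (v - 2) := by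
  have hq0 := q_pos hq
  ext z
  simp only [T, Set.mem_ofPred_eq, norm_q_mul]
  rw [zpow_sub₀ hq0.ne', le_div_iff₀ (by positivity)]
  have e : (q : ℝ) ^ (2 : ℤ) = (q : ℝ) ^ 2 := by norm_cast
  rw [e, mul_comm]

section side

variable (h3 : S_WS3) (h4 : S_WS4) (h6 : S_WS6) {q : ℕ} (hq : 2 ≤ q) (w : ℤ)
  (A N : Matrix (Fin n) (Fin n) ℂ) (hN : N * A = (q : ℂ) • (A * N)) (hWM : WM A N q w)

include h3 hq hN in
theorem side_c (x : Fin n → ℂ) (hx : x ∈ ws A (T q w)) : N *ᵥ x ∈ ws A (T q (w - 2)) := by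
  have hq0 : (q : ℂ) ≠ 0 := by
    have := q_pos hq
    exact_mod_cast this.ne'
  have h := h3 n A N q hq0 hN _ _ hx
  rwa [T_shift hq] at h

include h3 h4 h6 hq hN hWM in
theorem side_d (y : Fin n → ℂ) (hy : y ∈ ws A (T q (w - 2))) : ∃ x ∈ ws A (T q w), N *ᵥ x = y := by
  obtain ⟨J, μ, hμ, hs⟩ := dec h4 h6 A q w hWM.1 _ y hy
  have hx : ∀ j : ℤ, ∃ x ∈ ws A (T q w), N *ᵥ x = μ j := by
    intro j
    have hj := hμ j
    by_cases hj2 : j ≤ -2
    · have hj' : μ j ∈ ws A (wt q (w + j)) := ws_mono A Set.inter_subset_right hj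
      obtain ⟨i, hi⟩ : ∃ i : ℕ, j = -(i : ℤ) := ⟨j.natAbs, by omega⟩
      have hi2 : 2 ≤ i := by omega
      have hj'' : μ j ∈ ws A (wt q (w - i)) := by
        rw [hi] at hj'
        rw [hi]
        simpa [sub_eq_add_neg] using hj'
      obtain ⟨u, hu, hNu⟩ := (hWM.2 i (by omega)).2 _ hj''
      refine ⟨N ^ (i - 1) *ᵥ u, ?_, ?_⟩
      · have h := N_pow h3 hq A N hN _ u hu (i - 1)
        refine ws_mono A (wt_sub_T hq ?_) h
        have : ((i - 1 : ℕ) : ℤ) = (i : ℤ) - 1 := by omega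
        rw [this]
        omega
      · rw [mulVec_mulVec, ← pow_succ']
        have : i - 1 + 1 = i := by omega
        rw [this, hNu]
    · have he : T q (w - 2) ∩ wt q (w + j) = ∅ := T_wt_empty hq (by omega)
      rw [he, ws_empty h6] at hj
      have h0 : μ j = 0 := (Submodule.mem_bot ℂ).1 hj
      exact ⟨0, Submodule.zero_mem _, by rw [h0, mulVec_zero]⟩
  choose f hf1 hf2 using hx
  refine ⟨∑ j ∈ J, f j, Submodule.sum_mem _ fun j _ => hf1 j, ?_⟩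
  rw [mulVec_sum, ← hs]
  exact Finset.sum_congr rfl fun j _ => hf2 j

include h3 h4 h6 hq hN hWM in
theorem side_e (x : Fin n → ℂ) (hx : N *ᵥ x = 0) : x ∈ ws A (T q w) := by
  classical
  have htop : x ∈ ws A Set.univ := by
    rw [(h4 n A Set.univ).1 fun z _ => Set.mem_univ z]
    exact Submodule.mem_top
  obtain ⟨J, μ, hμ, hs⟩ := dec h4 h6 A q w hWM.1 _ x htop
  have hμ' : ∀ j, μ j ∈ ws A (wt q (w + j)) := fun j => ws_mono A Set.inter_subset_right (hμ j)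
  have hN1 : ∀ j, N *ᵥ μ j ∈ ws A (wt q (w + j - 2)) := by
    intro j
    have h := N_pow h3 hq A N hN _ (μ j) (hμ' j) 1
    simpa using h
  have hN0 : ∀ j ∈ J, N *ᵥ μ j = 0 := by
    intro j hj
    have h1 : N *ᵥ μ j = - ∑ i ∈ J.erase j, N *ᵥ μ i := by
      have h2 : N *ᵥ μ j + ∑ i ∈ J.erase j, N *ᵥ μ i = 0 := by
        rw [Finset.add_sum_erase J (fun i => N *ᵥ μ i) hj, ← mulVec_sum, hs, hx]
      exact eq_neg_of_add_eq_zero_left h2
    have h2 : N *ᵥ μ j ∈ ws A (⋃ i ∈ J.erase j, wt q (w + i - 2)) := by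
      rw [h1]
      refine Submodule.neg_mem _ (Submodule.sum_mem _ fun i hi => ?_)
      exact ws_mono A (Set.subset_biUnion_of_mem (u := fun i => wt q (w + i - 2)) hi) (hN1 i)
    have hd : Disjoint (wt q (w + j - 2)) (⋃ i ∈ J.erase j, wt q (w + i - 2)) := by
      rw [Set.disjoint_iUnion₂_right]
      intro i hi
      refine wt_disj hq ?_
      have := (Finset.mem_erase.1 hi).1
      intro he
      apply this
      omega
    have := ((h6 n A _ _).1 hd).le_bot ⟨hN1 j, h2⟩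
    exact (Submodule.mem_bot ℂ).1 this
  rw [← hs]
  refine Submodule.sum_mem _ fun j hj => ?_
  by_cases hj0 : j ≤ 0
  · exact ws_mono A (wt_sub_T hq (by omega)) (hμ' j)
  · obtain ⟨i, hi⟩ : ∃ i : ℕ, j = (i : ℤ) := ⟨j.natAbs, by omega⟩
    have hi0 : 0 < i := by omega
    have hz : N ^ i *ᵥ μ j = 0 := by
      have : i = (i - 1) + 1 := by omega
      rw [this, pow_succ, ← mulVec_mulVec, hN0 j hj, mulVec_zero]
    have h0 : μ j = 0 := by
      refine (hWM.2 i hi0).1 _ ?_ hz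
      rw [← hi]
      exact hμ' j
    rw [h0]
    exact Submodule.zero_mem _

end side

/-- powers -/
theorem T_pow (h2 : S_WS2) {q : ℕ} (v : ℤ) (A : Matrix (Fin n) (Fin n) ℂ) {M : ℕ}
    (hM : 0 < M) : ws (A ^ M) {z | ‖z‖ ^ 2 ≤ ((q : ℝ) ^ v) ^ M} = ws A (T q v) := by
  rw [← h2 n A M hM]
  congr 1
  ext z
  simp only [T, Set.mem_ofPred_eq]
  rw [norm_pow, ← pow_mul, mul_comm M 2, pow_mul]
  exact pow_le_pow_iff_left₀ (by positivity) (by positivity) hM.ne'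

theorem comm_pow {A N : Matrix (Fin n) (Fin n) ℂ} {q : ℂ} (hN : N * A = q • (A * N)) (k : ℕ) :
    N * A ^ k = q ^ k • (A ^ k * N) := by
  induction k with
  | zero => simp
  | succ k ih =>
    rw [pow_succ, ← Matrix.mul_assoc, ih, smul_mul_assoc, Matrix.mul_assoc (A ^ k) N A, hN,
      Matrix.mul_smul, smul_smul, ← Matrix.mul_assoc, pow_succ]

/-- the trace on the kernel for one representation -/
theorem side_tr (h2 : S_WS2) (h3 : S_WS3) (h4 : S_WS4) (h5 : S_WS5) (h6 : S_WS6)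
    (htrk : S_TRK) (hstab : S_STAB) {q : ℕ} (hq : 2 ≤ q) (w : ℤ) {M : ℕ} (hM : 0 < M)
    (A N C C' : Matrix (Fin n) (Fin n) ℂ) (hN : N * A = (q : ℂ) • (A * N)) (hWM : WM A N q w)
    (hnil : IsNilpotent N) (hCC : C * C' = 1) (hCC' : C' * C = 1) (hNC : N * C = C * N) (t : ℂ)
    (ht : C' * (A ^ M * C) = A ^ M * IsNilpotent.exp (t • N)) (k : ℕ) (p0 p2 : ℂ[X])
    (h01 : ∀ x ∈ ws (A ^ M) {z | ‖z‖ ^ 2 ≤ ((q : ℝ) ^ w) ^ M}, aeval (A ^ M) p0 *ᵥ x = x)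
    (h02 : ∀ x, aeval (A ^ M) p0 *ᵥ x ∈ ws (A ^ M) {z | ‖z‖ ^ 2 ≤ ((q : ℝ) ^ w) ^ M})
    (h21 : ∀ x ∈ ws (A ^ M) {z | ‖z‖ ^ 2 ≤ ((q : ℝ) ^ (w - 2)) ^ M}, aeval (A ^ M) p2 *ᵥ x = x)
    (h22 : ∀ x, aeval (A ^ M) p2 *ᵥ x ∈ ws (A ^ M) {z | ‖z‖ ^ 2 ≤ ((q : ℝ) ^ (w - 2)) ^ M})
    (P : Matrix (Fin n) (Fin n) ℂ) (hP : N * P = 0) (hP' : ∀ x, N *ᵥ x = 0 → P *ᵥ x = x) :
    (A ^ k * C * P).trace = (A ^ k * C * aeval (A ^ M) p0).trace -
      (q : ℂ) ^ k * (A ^ k * C * aeval (A ^ M) p2).trace := by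
  have hq0 : (q : ℂ) ≠ 0 := by
    have := q_pos hq
    exact_mod_cast this.ne'
  have ext_mv : ∀ X Y : Matrix (Fin n) (Fin n) ℂ, (∀ x, X *ᵥ x = Y *ᵥ x) → X = Y := by
    intro X Y h
    exact Matrix.toLin'.injective (LinearMap.ext fun x => by simpa using h x)
  have e0 := T_pow h2 (q := q) w A hM
  have e2 := T_pow h2 (q := q) (w - 2) A hM
  have hstable : ∀ x ∈ ws (A ^ M) {z | ‖z‖ ^ 2 ≤ ((q : ℝ) ^ w) ^ M},
      (A ^ k * C) *ᵥ x ∈ ws (A ^ M) {z | ‖z‖ ^ 2 ≤ ((q : ℝ) ^ w) ^ M} := by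
    intro x hx
    have hQ1 : (q : ℂ) ^ M ≠ 1 := by
      intro h
      have h' : ((q ^ M : ℕ) : ℂ) = 1 := by push_cast; exact h
      have h'' : q ^ M = 1 := by exact_mod_cast h'
      have : 1 < q ^ M := Nat.one_lt_pow hM.ne' (by omega)
      omega
    have hC := hstab n (A ^ M) N C C' ((q : ℂ) ^ M) t hCC hCC' hnil (pow_ne_zero _ hq0) hQ1
      (comm_pow hN M) ht {z | ‖z‖ ^ 2 ≤ ((q : ℝ) ^ w) ^ M} (by
        intro z hz
        simp only [Set.mem_ofPred_eq] at hz ⊢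
        rw [norm_div, norm_pow, Complex.norm_natCast, div_pow]
        refine le_trans (div_le_self (by positivity) ?_) hz
        have : (1 : ℝ) ≤ q := by
          have : (2 : ℝ) ≤ q := by exact_mod_cast hq
          linarith
        exact one_le_pow₀ (one_le_pow₀ this)) x hx
    rw [← mulVec_mulVec]
    refine h5 n (A ^ M) (A ^ k) ?_ _ _ hC
    rw [← pow_add, ← pow_add, add_comm]
  refine htrk n N (aeval (A ^ M) p0) (aeval (A ^ M) p2) P (A ^ k * C) ((q : ℂ) ^ k)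
    ?_ ?_ ?_ ?_ ?_ ?_ ?_ hP hP'
  · refine ext_mv _ _ fun x => ?_
    rw [← mulVec_mulVec]
    exact h01 _ (h02 x)
  · refine ext_mv _ _ fun x => ?_
    rw [← mulVec_mulVec]
    exact h21 _ (h22 x)
  · refine ext_mv _ _ fun x => ?_
    rw [← mulVec_mulVec, ← mulVec_mulVec]
    refine h21 _ ?_
    rw [e2]
    refine side_c h3 hq w A N hN _ ?_
    rw [← e0]
    exact h02 x
  · intro y hy
    have hy' : y ∈ ws A (T q (w - 2)) := by
      rw [← e2, ← hy]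
      exact h22 y
    obtain ⟨x, hx, hNx⟩ := side_d h3 h4 h6 hq w A N hN hWM y hy'
    refine ⟨x, h01 x ?_, hNx⟩
    rw [e0]
    exact hx
  · intro x hx
    refine h01 x ?_
    rw [e0]
    exact side_e h3 h4 h6 hq w A N hN hWM x hx
  · refine ext_mv _ _ fun x => ?_
    rw [← mulVec_mulVec, ← mulVec_mulVec]
    exact h01 _ (hstable _ (h02 x))
  · rw [← Matrix.mul_assoc, comm_pow hN k, smul_mul_assoc, Matrix.mul_assoc (A ^ k) N C, hNC,
      ← Matrix.mul_assoc]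

/-- the difference of the traces against a polynomial in `s` -/
theorem tr_poly {G : Type} [Group G] {n m : ℕ} (V : G →* Matrix (Fin n) (Fin n) ℂ)
    (W : G →* Matrix (Fin m) (Fin m) ℂ) (c : G →* ℂ) (U : Subgroup G)
    (hT : ∀ x ∈ U, ∀ y, (V (x * y)).trace - (W (x * y)).trace =
      c x * ((V y).trace - (W y).trace)) (s : G) (hs : s ∈ U) (g : G) (p : ℂ[X]) :
    (V g * aeval (V s) p).trace - (W g * aeval (W s) p).trace =
      p.eval (c s) * ((V g).trace - (W g).trace) := by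
  induction p using Polynomial.induction_on' with
  | add p r hp hr =>
    rw [map_add, map_add, Matrix.mul_add, Matrix.mul_add, Matrix.trace_add, Matrix.trace_add,
      Polynomial.eval_add, add_mul, ← hp, ← hr]
    ring
  | monomial i a =>
    rw [Polynomial.aeval_monomial, Polynomial.aeval_monomial, Polynomial.eval_monomial]
    have h := hT (s ^ i) (Subgroup.pow_mem U hs i) g
    have e1 : (V g * (algebraMap ℂ (Matrix (Fin n) (Fin n) ℂ) a * V s ^ i)).trace =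
        a * (V (s ^ i * g)).trace := by
      rw [Algebra.algebraMap_eq_smul_one, smul_mul_assoc, one_mul, Matrix.mul_smul,
        Matrix.trace_smul, smul_eq_mul, Matrix.trace_mul_comm, ← map_pow, ← map_mul]
    have e2 : (W g * (algebraMap ℂ (Matrix (Fin m) (Fin m) ℂ) a * W s ^ i)).trace =
        a * (W (s ^ i * g)).trace := by
      rw [Algebra.algebraMap_eq_smul_one, smul_mul_assoc, one_mul, Matrix.mul_smul,
        Matrix.trace_smul, smul_eq_mul, Matrix.trace_mul_comm, ← map_pow, ← map_mul]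
    rw [e1, e2, ← mul_sub, h, map_pow]
    ring

end KT

open KT in
theorem kt (h1 : S_WS1) (h2 : S_WS2) (h3 : S_WS3) (h4 : S_WS4) (h5 : S_WS5) (h6 : S_WS6)
    (htrk : S_TRK) (hstab : S_STAB) (hwmt : S_WMT) : S_KT := by
  intro G _ n m V W c U σ τ0 M q w NV NW hD hWMW hnV hnW τ k hVτ hWτ htV htW PV PW hPV hPW hPV' hPW'
  have hWMV := hwmt G n m V W c U σ τ0 M q w NV NW hD hWMW
  obtain ⟨tV, htV⟩ := htV
  obtain ⟨tW, htW⟩ := htW
  have hM := hD.hM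
  have hq := hD.hq
  have hq0 := q_pos hq
  set s := σ⁻¹ ^ M with hs
  have hsU : s ∈ U := by
    rw [hs, inv_pow]
    exact U.inv_mem hD.hs
  have hVs : V s = V σ⁻¹ ^ M := by rw [hs, map_pow]
  have hWs : W s = W σ⁻¹ ^ M := by rw [hs, map_pow]
  obtain ⟨p0, a1, a2, a3, a4, a5, -⟩ := h1 n m (V σ⁻¹ ^ M) (W σ⁻¹ ^ M) (c s)
    {z | ‖z‖ ^ 2 ≤ ((q : ℝ) ^ w) ^ M}
  obtain ⟨p2, b1, b2, b3, b4, -, b6⟩ := h1 n m (V σ⁻¹ ^ M) (W σ⁻¹ ^ M) (c s)
    {z | ‖z‖ ^ 2 ≤ ((q : ℝ) ^ (w - 2)) ^ M}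
  have hg1 : V (σ⁻¹ ^ k * τ) = V σ⁻¹ ^ k * V τ := by rw [map_mul, map_pow]
  have hg2 : W (σ⁻¹ ^ k * τ) = W σ⁻¹ ^ k * W τ := by rw [map_mul, map_pow]
  have hV := side_tr h2 h3 h4 h5 h6 htrk hstab hq w hM (V σ⁻¹) NV (V τ) (V τ⁻¹) hD.hVq hWMV hnV
    (by rw [← map_mul, mul_inv_cancel, map_one]) (by rw [← map_mul, inv_mul_cancel, map_one]) hVτ
    tV (by rw [← hVs, ← map_mul, ← map_mul]; exact htV) k p0 p2 a1 a2 b1 b2 PV hPV hPV'
  have hW := side_tr h2 h3 h4 h5 h6 htrk hstab hq w hM (W σ⁻¹) NW (W τ) (W τ⁻¹) hD.hWq hWMW hnW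
    (by rw [← map_mul, mul_inv_cancel, map_one]) (by rw [← map_mul, inv_mul_cancel, map_one]) hWτ
    tW (by rw [← hWs, ← map_mul, ← map_mul]; exact htW) k p0 p2 a3 a4 b3 b4 PW hPW hPW'
  rw [← hVs, ← hg1] at hV
  rw [← hWs, ← hg2] at hW
  have t0 := tr_poly V W c U hD.hT s hsU (σ⁻¹ ^ k * τ) p0
  have t2 := tr_poly V W c U hD.hT s hsU (σ⁻¹ ^ k * τ) p2
  have r0 : p0.eval (c s) * ((V (σ⁻¹ ^ k * τ)).trace - (W (σ⁻¹ ^ k * τ)).trace) =
      (V (σ⁻¹ ^ k * τ)).trace - (W (σ⁻¹ ^ k * τ)).trace := by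
    rcases hD.hc with h | h
    · rw [a5 (by simp only [Set.mem_ofPred_eq]; rw [h]), one_mul]
    · rw [h, sub_self, mul_zero]
  have r2 : p2.eval (c s) * ((V (σ⁻¹ ^ k * τ)).trace - (W (σ⁻¹ ^ k * τ)).trace) = 0 := by
    rcases hD.hc with h | h
    · rw [b6 (by
        simp only [Set.mem_ofPred_eq]
        rw [h]
        refine not_le.2 (pow_lt_pow_left₀ ?_ (by positivity) hM.ne')
        have : (1 : ℝ) < q := by
          have : (2 : ℝ) ≤ q := by exact_mod_cast hq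
          linarith
        exact zpow_lt_zpow_right₀ this (by omega)), zero_mul]
    · rw [h, sub_self, mul_zero]
  rw [hV, hW]
  rw [r0] at t0
  rw [r2] at t2
  linear_combination t0 - (q : ℂ) ^ k * t2

end Pool.Agent.J6H90.WT
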