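import Pool.Agent.J6H90.WT.Stm

/-!
# WT-LOG: logarithms of unipotent matrices
-/

set_option autoImplicit false

open Matrix Polynomial

namespace Pool.Agent.J6H90.WT

section E

variable {k : Type} [Field k] [CharZero k]

/-- the truncated exponential series -/
noncomputable def EE (k : Type) [Field k] (D : ℕ) : k[X] :=
  ∑ i ∈ Finset.range D, C ((i.factorial : k)⁻¹) * X ^ i

theorem exp_eq_EE {ι : Type} [Fintype ι] [DecidableEq ι] {a : Matrix ι ι k} {D : ℕ}
    (h : a ^ D = 0) : IsNilpotent.exp a = aeval a (EE k D) := by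
  rw [IsNilpotent.exp_eq_sum h, EE, map_sum]
  refine Finset.sum_congr rfl fun i _ => ?_
  rw [map_mul, aeval_C, map_pow, aeval_X, ← Algebra.smul_def, ← Rat.cast_smul_eq_qsmul k]
  push_cast
  rfl

theorem pow_card {ι : Type} [Fintype ι] [DecidableEq ι] {a : Matrix ι ι k} (h : IsNilpotent a)
    {D : ℕ} (hD : Fintype.card ι ≤ D) : a ^ D = 0 := by
  have h1 := Matrix.isNilpotent_charpoly_sub_pow_of_isNilpotent h
  have h2 : a.charpoly = X ^ Fintype.card ι := by
    have := h1.eq_zero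
    exact sub_eq_zero.1 this
  have h3 := Matrix.aeval_self_charpoly a
  rw [h2, map_pow, aeval_X] at h3
  exact pow_eq_zero_of_le hD h3

theorem dvd_pow_sub (L δ : k[X]) (hL : (X - C 1) ∣ L) (hδ : (X - C 1) ∣ δ) (m : ℕ) :
    (X - C 1) * δ ∣ (L + δ) ^ (m + 2) - L ^ (m + 2) := by
  rw [← geom_sum₂_mul, add_sub_cancel_left]
  apply mul_dvd_mul _ dvd_rfl
  apply Finset.dvd_sum
  intro i hi
  rcases Nat.eq_zero_or_pos i with h0 | h0
  · subst h0
    apply Dvd.dvd.mul_left
    exact dvd_pow hL (by omega)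
  · apply Dvd.dvd.mul_right
    exact dvd_pow (dvd_add hL hδ) (by omega)

theorem EE_comp (D : ℕ) (L : k[X]) : (EE k (D + 2)).comp L =
    1 + L + ∑ i ∈ Finset.range D, C (((i + 2).factorial : k)⁻¹) * L ^ (i + 2) := by
  unfold EE
  rw [Finset.sum_range_succ', Finset.sum_range_succ']
  simp
  ring

theorem exists_L (D j : ℕ) : ∃ L : k[X], (X - C 1) ∣ L ∧
    (X - C 1) ^ (j + 1) ∣ (EE k (D + 2)).comp L - X := by
  induction j with
  | zero =>
    refine ⟨0, dvd_zero _, ?_⟩
    rw [EE_comp]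
    have h1 : ∑ i ∈ Finset.range D, C (((i + 2).factorial : k)⁻¹) * (0 : k[X]) ^ (i + 2) = 0 :=
      Finset.sum_eq_zero fun i _ => by rw [zero_pow (by omega), mul_zero]
    rw [h1, zero_add, pow_one, add_zero, add_zero, ← C_1]
    exact ⟨-1, by ring⟩
  | succ j ih =>
    obtain ⟨L, hL, R, hR⟩ := ih
    set c : k := - R.eval 1 with hc
    set δ : k[X] := (X - C 1) ^ (j + 1) * C c with hδ
    have hδ1 : (X - C 1) ∣ δ := Dvd.dvd.mul_right (dvd_pow_self _ (by omega)) _
    refine ⟨L + δ, dvd_add hL hδ1, ?_⟩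
    have h1 : (EE k (D + 2)).comp (L + δ) - X = (∑ i ∈ Finset.range D,
        C (((i + 2).factorial : k)⁻¹) * ((L + δ) ^ (i + 2) - L ^ (i + 2))) +
        (X - C 1) ^ (j + 1) * (R + C c) := by
      have h2 : (X - C 1) ^ (j + 1) * (R + C c) = ((EE k (D + 2)).comp L - X) + δ := by
        rw [hR, hδ]
        ring
      rw [h2, EE_comp, EE_comp]
      simp only [mul_sub, Finset.sum_sub_distrib]
      ring
    rw [h1]
    apply dvd_add
    · apply Finset.dvd_sum
      intro i _
      apply Dvd.dvd.mul_left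
      refine dvd_trans ?_ (dvd_pow_sub L δ hL hδ1 i)
      rw [hδ, pow_succ, mul_comm]
      exact mul_dvd_mul dvd_rfl (Dvd.intro _ rfl)
    · rw [pow_succ]
      apply mul_dvd_mul dvd_rfl
      rw [dvd_iff_isRoot, IsRoot.def, eval_add, eval_C, hc, add_neg_cancel]

end E

theorem exp_eq_one {k : Type} [Field k] [CharZero k] {ι : Type} [Fintype ι] [DecidableEq ι]
    {M : Matrix ι ι k} (hM : IsNilpotent M) (h : IsNilpotent.exp M = 1) : M = 0 := by
  classical
  by_contra h0
  obtain ⟨d, hd1, hd2⟩ : ∃ d : ℕ, M ^ (d + 1) ≠ 0 ∧ M ^ (d + 2) = 0 := by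
    have h1 : ∃ e : ℕ, M ^ e = 0 := hM
    have h2 := Nat.find_spec h1
    have h3 : Nat.find h1 ≠ 0 := by
      intro h4
      rw [h4, pow_zero] at h2
      apply h0
      rw [← mul_one M, h2, mul_zero]
    have h4 : Nat.find h1 ≠ 1 := by
      intro h4
      rw [h4, pow_one] at h2
      exact h0 h2
    obtain ⟨d, hd⟩ : ∃ d, Nat.find h1 = d + 2 := ⟨Nat.find h1 - 2, by omega⟩
    refine ⟨d, Nat.find_min h1 (by omega), ?_⟩
    rw [hd] at h2
    exact h2
  have h1 := IsNilpotent.exp_eq_sum hd2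
  rw [h, Finset.sum_range_succ', Finset.sum_range_succ'] at h1
  have h2 : M ^ d * 1 = M ^ d * (∑ i ∈ Finset.range d,
      (((i + 1 + 1).factorial : ℚ)⁻¹ • M ^ (i + 1 + 1)) +
      ((0 + 1).factorial : ℚ)⁻¹ • M ^ (0 + 1) + ((0).factorial : ℚ)⁻¹ • M ^ 0) := by
    rw [← h1]
  rw [mul_add, mul_add, Finset.mul_sum, Finset.sum_eq_zero] at h2
  · apply hd1
    simp at h2
    rw [pow_succ]
    exact h2
  · intro i _
    rw [mul_smul_comm, ← pow_add, show d + (i + 1 + 1) = (d + 2) + i by omega, pow_add, hd2,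
      zero_mul, smul_zero]

theorem log : S_LOG := by
  intro k _ _ D
  obtain ⟨L, ⟨L', hL'⟩, ⟨R, hR⟩⟩ := exists_L (k := k) D D
  refine ⟨L, ?_, ?_⟩
  · rw [hL', eval_mul, eval_sub, eval_X, eval_C, sub_self, zero_mul]
  intro ι _ _ hι
  have hfirst : ∀ t : Matrix ι ι k, IsNilpotent (t - 1) →
      IsNilpotent (aeval t L) ∧ IsNilpotent.exp (aeval t L) = t := by
    intro t ht
    have ht0 : (t - 1) ^ D = 0 := pow_card ht hι
    have ht1 : aeval t (X - C (1 : k)) = t - 1 := by
      rw [map_sub, aeval_X, aeval_C, map_one]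
    have h1 : (aeval t L) ^ D = 0 := by
      rw [← map_pow, hL', mul_pow, map_mul, map_pow, ht1, ht0, zero_mul]
    refine ⟨⟨D, h1⟩, ?_⟩
    have h2 : (aeval t L) ^ (D + 2) = 0 := pow_eq_zero_of_le (by omega) h1
    rw [exp_eq_EE h2, ← aeval_comp]
    have h3 : (EE k (D + 2)).comp L = X + (X - C 1) ^ (D + 1) * R := by
      rw [← hR]
      ring
    rw [h3, map_add, aeval_X, map_mul, map_pow, ht1, pow_succ, ht0, zero_mul, zero_mul, add_zero]
  refine ⟨hfirst, ?_⟩
  intro N hN
  have hN0 : N ^ D = 0 := pow_card hN hι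
  have hN2 : N ^ (D + 2) = 0 := pow_eq_zero_of_le (by omega) hN0
  set N' : Matrix ι ι k := aeval (IsNilpotent.exp N) L with hN'
  have he : IsNilpotent (IsNilpotent.exp N - 1) := by
    rw [IsNilpotent.exp_eq_sum hN2, Finset.sum_range_succ']
    simp only [pow_zero, Nat.factorial_zero, Nat.cast_one, inv_one, one_smul, add_sub_cancel_right]
    have h1 : ∑ i ∈ Finset.range (D + 1), (((i + 1).factorial : ℚ)⁻¹ • N ^ (i + 1)) =
        N * ∑ i ∈ Finset.range (D + 1), (((i + 1).factorial : ℚ)⁻¹ • N ^ i) := by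
      rw [Finset.mul_sum]
      refine Finset.sum_congr rfl fun i _ => ?_
      rw [mul_smul_comm, pow_succ']
    rw [h1]
    have hc : Commute N (∑ i ∈ Finset.range (D + 1), (((i + 1).factorial : ℚ)⁻¹ • N ^ i)) := by
      apply Commute.sum_right
      intro i _
      exact (Commute.pow_right (Commute.refl N) i).smul_right _
    exact hc.isNilpotent_mul_right hN
  obtain ⟨h1, h2⟩ := hfirst _ he
  have hcomm : Commute N' N := by
    have h3 : Commute N (IsNilpotent.exp N) := by
      rw [IsNilpotent.exp_eq_sum hN2]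
      apply Commute.sum_right
      intro i _
      exact (Commute.pow_right (Commute.refl N) i).smul_right _
    have h4 : ∀ p : k[X], Commute N (aeval (IsNilpotent.exp N) p) := by
      intro p
      induction p using Polynomial.induction_on' with
      | add p q hp hq =>
        rw [map_add]
        exact hp.add_right hq
      | monomial n a =>
        rw [aeval_monomial, ← Algebra.smul_def]
        exact (h3.pow_right n).smul_right a
    exact (h4 L).symm
  have h3 : IsNilpotent.exp (N' + -N) = 1 := by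
    rw [IsNilpotent.exp_add_of_commute hcomm.neg_right h1 hN.neg, h2,
      IsNilpotent.exp_mul_exp_neg_self hN]
  have h4 : IsNilpotent (N' + -N) := hcomm.neg_right.isNilpotent_add h1 hN.neg
  have h5 := exp_eq_one h4 h3
  rw [← sub_eq_add_neg] at h5
  exact sub_eq_zero.1 h5

theorem expk : S_EXPK := by
  classical
  intro k _ _ ι _ _ N hN x
  obtain ⟨D, hD⟩ := id hN
  constructor
  · intro h
    by_contra h0
    obtain ⟨d, hd1, hd2⟩ : ∃ d : ℕ, N ^ (d + 1) *ᵥ x ≠ 0 ∧ N ^ (d + 2) *ᵥ x = 0 := by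
      have h1 : ∃ e : ℕ, N ^ e *ᵥ x = 0 := ⟨D, by rw [hD, zero_mulVec]⟩
      have h2 := Nat.find_spec h1
      have h3 : Nat.find h1 ≠ 0 := by
        intro h4
        rw [h4, pow_zero, one_mulVec] at h2
        apply h0
        rw [h2, mulVec_zero]
      have h4 : Nat.find h1 ≠ 1 := by
        intro h4
        rw [h4, pow_one] at h2
        exact h0 h2
      obtain ⟨d, hd⟩ : ∃ d, Nat.find h1 = d + 2 := ⟨Nat.find h1 - 2, by omega⟩
      refine ⟨d, Nat.find_min h1 (by omega), ?_⟩
      rw [hd] at h2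
      exact h2
    have hD2 : N ^ (D + 2) = 0 := pow_eq_zero_of_le (by omega) hD
    have h1 := IsNilpotent.exp_eq_sum hD2
    rw [Finset.sum_range_succ', Finset.sum_range_succ'] at h1
    have h2 : N ^ d *ᵥ x = N ^ d *ᵥ (IsNilpotent.exp N *ᵥ x) := by rw [h]
    rw [h1, Matrix.mulVec_mulVec, mul_add, mul_add, Finset.mul_sum, Matrix.add_mulVec,
      Matrix.add_mulVec, Matrix.sum_mulVec, Finset.sum_eq_zero] at h2
    · apply hd1
      simp at h2
      rw [pow_succ]
      exact h2
    · intro i _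
      rw [mul_smul_comm, ← pow_add, show d + (i + 1 + 1) = i + (d + 2) by omega, pow_add,
        Matrix.smul_mulVec, ← Matrix.mulVec_mulVec, hd2, mulVec_zero, smul_zero]
  · intro h
    have hD2 : N ^ (D + 1) = 0 := pow_eq_zero_of_le (by omega) hD
    rw [IsNilpotent.exp_eq_sum hD2, Finset.sum_range_succ', Matrix.add_mulVec, Matrix.sum_mulVec,
      Finset.sum_eq_zero]
    · simp
    · intro i _
      rw [Matrix.smul_mulVec, pow_succ, ← Matrix.mulVec_mulVec, h, mulVec_zero, smul_zero]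

end Pool.Agent.J6H90.WT
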