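import Pool.Agent.J6H90.WT.StmB

/-!
# Project WT: the module REL

`ρ(σ) exp(N) ρ(σ)⁻¹ = exp(N)^q = exp(q N)`; logarithms are unique, so `ρ(σ) N ρ(σ)⁻¹ = q N`.  The
inertia group at `P` commutes with `N`, since `σ τ` is a Frobenius element, too.
-/

set_option autoImplicit false

open Matrix Polynomial NumberField Filter Topology Pool.Agent.W401.Cheb Pool.Agent.W569.FM

namespace Pool.Agent.J6H90.WT

namespace REL

section ring

variable {A : Type*} [Ring A]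

theorem conj_pow {u v : A} (huv : u * v = 1) (hvu : v * u = 1) (a : A) (i : ℕ) :
    (u * a * v) ^ i = u * a ^ i * v := by
  induction i with
  | zero => rw [pow_zero, pow_zero, mul_one, huv]
  | succ i ih =>
    rw [pow_succ, ih, pow_succ]
    calc u * a ^ i * v * (u * a * v) = u * a ^ i * (v * u) * a * v := by noncomm_ring
      _ = u * (a ^ i * a) * v := by rw [hvu]; noncomm_ring

theorem conj_nilp {u v : A} (huv : u * v = 1) (hvu : v * u = 1) {a : A} (ha : IsNilpotent a) :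
    IsNilpotent (u * a * v) := by
  obtain ⟨k, hk⟩ := ha
  exact ⟨k, by rw [conj_pow huv hvu, hk, mul_zero, zero_mul]⟩

theorem exp_conj [Algebra ℚ A] {u v : A} (huv : u * v = 1) (hvu : v * u = 1) {a : A}
    (ha : IsNilpotent a) : IsNilpotent.exp (u * a * v) = u * IsNilpotent.exp a * v := by
  obtain ⟨k, hk⟩ := ha
  have hk' : (u * a * v) ^ k = 0 := by rw [conj_pow huv hvu, hk, mul_zero, zero_mul]
  rw [IsNilpotent.exp_eq_sum hk, IsNilpotent.exp_eq_sum hk', Finset.mul_sum, Finset.sum_mul]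
  refine Finset.sum_congr rfl fun i _ => ?_
  rw [conj_pow huv hvu, mul_smul_comm, smul_mul_assoc]

theorem nilp_nsmul {a : A} (ha : IsNilpotent a) (q : ℕ) : IsNilpotent (q • a) := by
  obtain ⟨k, hk⟩ := ha
  exact ⟨k, by rw [_root_.smul_pow, hk, smul_zero]⟩

theorem exp_nsmul [Algebra ℚ A] {a : A} (ha : IsNilpotent a) (q : ℕ) :
    IsNilpotent.exp (q • a) = IsNilpotent.exp a ^ q := by
  induction q with
  | zero => rw [zero_smul, pow_zero, IsNilpotent.exp_zero]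
  | succ q ih =>
    rw [succ_nsmul, pow_succ, ← ih]
    exact IsNilpotent.exp_add_of_commute ((Commute.refl a).smul_left q) (nilp_nsmul ha q) ha

end ring

theorem frobAt_mul {K : Type} [Field K] {P : Ideal (OO K)} {q : ℕ} (hq : 1 ≤ q) {σ τ : GK K}
    (hσ : FrobAt q P σ) (hτ : InInertia P τ) : FrobAt q P (σ * τ) := by
  have hP : ∀ y ∈ P, σ • y ∈ P := by
    intro y hy
    have h1 := P.add_mem (hσ y) (P.pow_mem_of_mem hy q (by omega))
    rwa [sub_add_cancel] at h1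
  intro x
  have h1 := P.add_mem (hP _ (hτ x)) (hσ x)
  have h2 : σ • (τ • x - x) + (σ • x - x ^ q) = (σ * τ) • x - x ^ q := by
    rw [smul_sub, mul_smul]
    abel
  rwa [h2] at h1

end REL

open REL

/-- REL -/
theorem rel (hlog : S_LOG) : S_REL := by
  intro K _ _ ℓ _ n ρ hρ H hHn hHo hH P q σ τ0 N hP hℓP hq hσ hτH hτ hN hexp
  obtain ⟨L, -, hL⟩ := hlog ℚ_[ℓ] n
  have hL2 := (hL (Fin n) (by rw [Fintype.card_fin])).2
  obtain ⟨l, hl, hlP⟩ := Pool.Agent.R703.FM.exists_prime_mem P hP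
  have hne : ℓ ≠ l := by
    rintro rfl
    exact hℓP hlP
  have key : ∀ s : GK K, FrobAt q P s → N * ρ s⁻¹ = (q : ℚ_[ℓ]) • (ρ s⁻¹ * N) := by
    intro s hs
    have huv : ρ s * ρ s⁻¹ = 1 := by rw [← map_mul, mul_inv_cancel, map_one]
    have hvu : ρ s⁻¹ * ρ s = 1 := by rw [← map_mul, inv_mul_cancel, map_one]
    have h1 := Pool.Agent.R401.Tr9.tame_rel' ρ hρ H hHo hH hl hne hq hP hlP hτH hτ hs
    rw [map_mul, map_mul, ← hexp, ← exp_conj huv hvu hN, ← exp_nsmul hN] at h1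
    have h2 : ρ s * N * ρ s⁻¹ = q • N := by
      rw [← hL2 _ (conj_nilp huv hvu hN), h1, hL2 _ (nilp_nsmul hN q)]
    calc N * ρ s⁻¹ = ρ s⁻¹ * (ρ s * N * ρ s⁻¹) := by
          rw [← mul_assoc, ← mul_assoc, hvu, one_mul]
      _ = (q : ℚ_[ℓ]) • (ρ s⁻¹ * N) := by
          rw [h2, mul_smul_comm, Nat.cast_smul_eq_nsmul]
  refine ⟨key σ hσ, fun τ hτ' => ?_⟩
  have h1 := key (σ * τ) (frobAt_mul hq hσ hτ')
  rw [_root_.mul_inv_rev, map_mul, mul_assoc, ← mul_smul_comm, ← key σ hσ] at h1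
  have huv : ρ σ⁻¹ * ρ σ = 1 := by rw [← map_mul, inv_mul_cancel, map_one]
  have h2 : N * ρ τ⁻¹ = ρ τ⁻¹ * N := by
    have h3 := congrArg (· * ρ σ) h1
    simp only [mul_assoc, huv, mul_one] at h3
    exact h3
  have h3 : ρ τ * ρ τ⁻¹ = 1 := by rw [← map_mul, mul_inv_cancel, map_one]
  have h4 : ρ τ⁻¹ * ρ τ = 1 := by rw [← map_mul, inv_mul_cancel, map_one]
  calc N * ρ τ = ρ τ * ρ τ⁻¹ * N * ρ τ := by rw [h3, one_mul]
    _ = ρ τ * (ρ τ⁻¹ * N) * ρ τ := by rw [mul_assoc (ρ τ)]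
    _ = ρ τ * (N * ρ τ⁻¹) * ρ τ := by rw [h2]
    _ = ρ τ * N := by rw [mul_assoc, mul_assoc, h4, mul_one]

end Pool.Agent.J6H90.WT
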