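import Pool.Agent.J6H90.WT.Stm

/-!
# The trace on the kernel, and stability of the weight spaces (modules WT-TRK, WT-STAB)
-/

set_option autoImplicit false

open Matrix Polynomial

namespace Pool.Agent.J6H90.WT

theorem trk_ext {n : ℕ} {A B : Matrix (Fin n) (Fin n) ℂ} (h : ∀ v, A *ᵥ v = B *ᵥ v) : A = B := by
  ext i j
  have := congrFun (h (Pi.single j 1)) i
  simpa using this

/-- **TRK.** -/
theorem trk : S_TRK := by
  intro n N E0 E2 P R κ h00 h22 hN2 hsurj hker hR hNR hNP hP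
  have hcol : ∀ j : Fin n, E2 *ᵥ (fun i => E2 i j) = fun i => E2 i j := by
    intro j
    funext i
    have := congrFun (congrFun h22 i) j
    simpa [Matrix.mul_apply, Matrix.mulVec, dotProduct] using this
  choose x hx0 hxN using fun j : Fin n => hsurj _ (hcol j)
  let S0 : Matrix (Fin n) (Fin n) ℂ := Matrix.of fun i j => x j i
  have hES0 : E0 * S0 = S0 := by
    ext i j
    exact congrFun (hx0 j) i
  have hNS0 : N * S0 = E2 := by
    ext i j
    exact congrFun (hxN j) i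
  obtain ⟨S, hES, hNS⟩ : ∃ S : Matrix (Fin n) (Fin n) ℂ, E0 * S = S ∧ N * S = E2 :=
    ⟨S0, hES0, hNS0⟩
  obtain ⟨P0, hP0⟩ : ∃ P0 : Matrix (Fin n) (Fin n) ℂ, P0 = E0 - S * (N * E0) := ⟨_, rfl⟩
  have hNP0 : N * P0 = 0 := by
    rw [hP0, Matrix.mul_sub, ← Matrix.mul_assoc N S, hNS, hN2, sub_self]
  have hP0v : ∀ v, N *ᵥ v = 0 → P0 *ᵥ v = v := by
    intro v hv
    rw [hP0, Matrix.sub_mulVec, ← Matrix.mulVec_mulVec, ← Matrix.mulVec_mulVec, hker v hv, hv,
      mulVec_zero, sub_zero]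
  have hP0P : P0 * P = P := trk_ext fun v => by
    rw [← mulVec_mulVec]
    apply hP0v
    rw [mulVec_mulVec, hNP, zero_mulVec]
  have hNRP0 : N * (R * P0) = 0 := by
    rw [← Matrix.mul_assoc, hNR, Matrix.smul_mul, Matrix.mul_assoc, hNP0, Matrix.mul_zero,
      smul_zero]
  have hPRP0 : P * (R * P0) = R * P0 := trk_ext fun v => by
    rw [← mulVec_mulVec]
    apply hP
    rw [mulVec_mulVec, hNRP0, zero_mulVec]
  have t1 : (R * P).trace = (R * P0).trace := by
    calc (R * P).trace = (R * P0 * P).trace := by rw [Matrix.mul_assoc, hP0P]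
      _ = (P * (R * P0)).trace := Matrix.trace_mul_comm _ _
      _ = _ := by rw [hPRP0]
  have hERS : E0 * (R * S) = R * S := by
    have h1 : R * S = R * E0 * S := by rw [Matrix.mul_assoc, hES]
    rw [h1, ← Matrix.mul_assoc, hR]
  have t2 : (R * (S * (N * E0))).trace = κ * (R * E2).trace := by
    calc (R * (S * (N * E0))).trace = (R * S * (N * E0)).trace := by rw [Matrix.mul_assoc]
      _ = (N * E0 * (R * S)).trace := Matrix.trace_mul_comm _ _
      _ = (κ • (R * E2)).trace := by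
          rw [Matrix.mul_assoc, hERS, ← Matrix.mul_assoc, hNR, Matrix.smul_mul, Matrix.mul_assoc,
            hNS]
      _ = _ := by rw [Matrix.trace_smul, smul_eq_mul]
  rw [t1, hP0, Matrix.mul_sub, Matrix.trace_sub, t2]

theorem ws_mono' {n : ℕ} {A : Matrix (Fin n) (Fin n) ℂ} {S S' : Set ℂ} (h : S ⊆ S') :
    ws A S ≤ ws A S' := by
  rintro x ⟨p, hp, hpS, hx⟩
  exact ⟨p, hp, fun z hz => h (hpS z hz), hx⟩

theorem pow_comm_smul {n : ℕ} {B N : Matrix (Fin n) (Fin n) ℂ} {Q : ℂ}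
    (hNB : N * B = Q • (B * N)) (i : ℕ) : N ^ i * B = Q ^ i • (B * N ^ i) := by
  induction i with
  | zero => simp
  | succ i ih =>
    rw [pow_succ', Matrix.mul_assoc, ih, Matrix.mul_smul, ← Matrix.mul_assoc, hNB,
      Matrix.smul_mul, smul_smul, Matrix.mul_assoc, pow_succ]

/-- **STAB.** -/
theorem stab (h3 : S_WS3) (h5 : S_WS5) : S_STAB := by
  intro n B N C C' Q t hCC hCC' hN hQ0 hQ1 hNB hconj S hS x hx
  have h1Q : 1 - Q ≠ 0 := sub_ne_zero.2 hQ1.symm
  obtain ⟨a, ha⟩ : ∃ a : ℂ, a = t / (1 - Q) := ⟨_, rfl⟩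
  have hcom : ∀ b c : ℂ, Commute (b • N) (c • N) := fun b c =>
    ((Commute.refl N).smul_left b).smul_right c
  have hnil : ∀ b : ℂ, IsNilpotent (b • N) := fun b => hN.smul b
  obtain ⟨k, hk⟩ := id hN
  have hk' : ∀ b : ℂ, (b • N) ^ k = 0 := fun b => by rw [_root_.smul_pow, hk, smul_zero]
  have hexp : ∀ b : ℂ, IsNilpotent.exp (b • N) * B = B * IsNilpotent.exp ((b * Q) • N) := by
    intro b
    rw [IsNilpotent.exp_eq_sum (hk' b), IsNilpotent.exp_eq_sum (hk' (b * Q)), Finset.sum_mul,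
      Finset.mul_sum]
    refine Finset.sum_congr rfl fun i _ => ?_
    rw [smul_mul_assoc, mul_smul_comm, _root_.smul_pow, _root_.smul_pow, Matrix.smul_mul, pow_comm_smul hNB,
      Matrix.mul_smul, smul_smul, mul_pow]
  have hh : IsNilpotent.exp (a • N) * IsNilpotent.exp (-(a • N)) = 1 :=
    IsNilpotent.exp_mul_exp_neg_self (hnil a)
  have hh' : IsNilpotent.exp (-(a • N)) * IsNilpotent.exp (a • N) = 1 :=
    IsNilpotent.exp_neg_mul_exp_self (hnil a)
  have key : IsNilpotent.exp (-(a • N)) * B * IsNilpotent.exp (a • N) = C' * (B * C) := by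
    rw [hconj, ← neg_smul, hexp, Matrix.mul_assoc, ← IsNilpotent.exp_add_of_commute
      (hcom _ _) (hnil _) (hnil _), ← add_smul]
    congr 3
    rw [ha]
    field_simp
    ring
  set h : Matrix (Fin n) (Fin n) ℂ := IsNilpotent.exp (a • N) with hdef
  set h' : Matrix (Fin n) (Fin n) ℂ := IsNilpotent.exp (-(a • N)) with hdef'
  have hκ : (C * h') * B = B * (C * h') := by
    calc (C * h') * B = C * (h' * B) * (h * h') := by rw [hh, Matrix.mul_one, Matrix.mul_assoc]
      _ = C * (h' * B * h) * h' := by simp only [Matrix.mul_assoc]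
      _ = C * (C' * (B * C)) * h' := by rw [key]
      _ = (C * C') * (B * (C * h')) := by simp only [Matrix.mul_assoc]
      _ = _ := by rw [hCC, Matrix.one_mul]
  have hNws : ∀ y ∈ ws B S, N *ᵥ y ∈ ws B S := by
    intro y hy
    refine ws_mono' ?_ (h3 n B N Q hQ0 hNB S y hy)
    intro z hz
    have := hS _ hz
    rwa [mul_div_cancel_left₀ z hQ0] at this
  have hpw : ∀ i : ℕ, ∀ y ∈ ws B S, N ^ i *ᵥ y ∈ ws B S := by
    intro i
    induction i with
    | zero => intro y hy; simpa using hy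
    | succ i ih =>
      intro y hy
      rw [pow_succ, ← mulVec_mulVec]
      exact ih _ (hNws y hy)
  have hhx : h *ᵥ x ∈ ws B S := by
    rw [hdef, IsNilpotent.exp_eq_sum (hk' a), Matrix.sum_mulVec]
    refine Submodule.sum_mem _ fun i _ => ?_
    rw [_root_.smul_pow, Matrix.smul_mulVec, Matrix.smul_mulVec]
    exact Submodule.smul_of_tower_mem _ _ ((ws B S).smul_mem _ (hpw i x hx))
  have hC : C *ᵥ x = (C * h') *ᵥ (h *ᵥ x) := by
    rw [mulVec_mulVec, Matrix.mul_assoc, hh', Matrix.mul_one]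
  rw [hC]
  exact h5 n B (C * h') hκ S _ hhx

end Pool.Agent.J6H90.WT
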