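import Pool.Agent.J6H90.WT.Stm

/-!
# Module WMT: transfer of the weight-monodromy property
-/

set_option autoImplicit false

open Matrix Polynomial

namespace Pool.Agent.J6H90.WT

section wmt

variable {G : Type} [Group G] {n m : ℕ} (V : G →* Matrix (Fin n) (Fin n) ℂ)
  (W : G →* Matrix (Fin m) (Fin m) ℂ) (c : G →* ℂ)

/-- the triples -/
def Phi : G →* Tri n m := V.prod (W.prod c)

/-- the algebra generated by the triples -/
def AA : Subalgebra ℂ (Tri n m) := Algebra.adjoin ℂ (Set.range (Phi V W c))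

theorem Phi_mem (g : G) : Phi V W c g ∈ AA V W c := Algebra.subset_adjoin ⟨g, rfl⟩

theorem AA_span {a : Tri n m} (ha : a ∈ AA V W c) :
    a ∈ Submodule.span ℂ (Set.range (Phi V W c)) := by
  have h1 : a ∈ Subalgebra.toSubmodule (Algebra.adjoin ℂ (Set.range (Phi V W c))) := ha
  rw [Algebra.adjoin_eq_span] at h1
  have h2 : Submonoid.closure (Set.range (Phi V W c)) = MonoidHom.mrange (Phi V W c) := by
    rw [← MonoidHom.coe_mrange, Submonoid.closure_eq]
  rw [h2] at h1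
  exact h1

theorem AA_snd {a : Tri n m} (ha : a ∈ AA V W c) :
    a.2.1 ∈ Submodule.span ℂ (Set.range W) := by
  have h1 := AA_span V W c ha
  clear ha
  induction h1 using Submodule.span_induction with
  | mem x hx =>
    obtain ⟨g, rfl⟩ := hx
    exact Submodule.subset_span ⟨g, rfl⟩
  | zero => exact Submodule.zero_mem _
  | add x y _ _ hx hy => exact Submodule.add_mem _ hx hy
  | smul r x _ hx => exact Submodule.smul_mem _ r hx

theorem AA_nondeg (hnd : ∀ z ∈ Submodule.span ℂ (Set.range W), (∀ g, (z * W g).trace = 0) → z = 0) :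
    Nondeg (AA V W c) := by
  intro a ha h
  exact hnd _ (AA_snd V W c ha) fun g => h _ (Phi_mem V W c g)

theorem TT_add (a b : Tri n m) : TT (a + b) = TT a + TT b := by
  simp only [TT, Prod.fst_add, Prod.snd_add, trace_add]
  ring

theorem TT_smul (r : ℂ) (a : Tri n m) : TT (r • a) = r * TT a := by
  simp only [TT, Prod.smul_fst, Prod.smul_snd, trace_smul, smul_eq_mul]
  ring

theorem TT_zero : TT (0 : Tri n m) = 0 := by simp [TT]

/-- elements that act on `TT` by their third component -/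
def QQ : Subalgebra ℂ (Tri n m) where
  carrier := {a | a ∈ AA V W c ∧ ∀ b ∈ AA V W c, TT (a * b) = a.2.2 * TT b}
  mul_mem' := by
    rintro a a' ⟨ha, h⟩ ⟨ha', h'⟩
    refine ⟨mul_mem ha ha', fun b hb => ?_⟩
    rw [mul_assoc, h _ (mul_mem ha' hb), h' _ hb, Prod.snd_mul, Prod.snd_mul, mul_assoc]
  add_mem' := by
    rintro a a' ⟨ha, h⟩ ⟨ha', h'⟩
    refine ⟨add_mem ha ha', fun b hb => ?_⟩
    rw [add_mul, TT_add, h _ hb, h' _ hb, Prod.snd_add, Prod.snd_add, add_mul]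
  algebraMap_mem' := by
    intro r
    refine ⟨algebraMap_mem _ r, fun b hb => ?_⟩
    rw [← Algebra.smul_def, TT_smul]
    rfl

theorem QQ_le {a : Tri n m} (ha : a ∈ QQ V W c) : a ∈ AA V W c := ha.1

theorem QQ_TT {a b : Tri n m} (ha : a ∈ QQ V W c) (hb : b ∈ AA V W c) :
    TT (a * b) = a.2.2 * TT b := ha.2 b hb

theorem Phi_QQ {U : Subgroup G}
    (hT : ∀ x ∈ U, ∀ y, (V (x * y)).trace - (W (x * y)).trace =
      c x * ((V y).trace - (W y).trace)) {x : G} (hx : x ∈ U) : Phi V W c x ∈ QQ V W c := by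
  refine ⟨Phi_mem V W c x, fun b hb => ?_⟩
  have h1 := AA_span V W c hb
  clear hb
  induction h1 using Submodule.span_induction with
  | mem y hy =>
    obtain ⟨g, rfl⟩ := hy
    have h2 := hT x hx g
    rw [← map_mul]
    exact h2
  | zero => rw [mul_zero, TT_zero, mul_zero]
  | add y z _ _ hy hz => rw [mul_add, TT_add, hy, hz, TT_add, mul_add]
  | smul r y _ hy =>
    rw [mul_smul_comm, TT_smul, hy, TT_smul]
    ring

theorem aeval_fst (a : Tri n m) (p : ℂ[X]) : (aeval a p).1 = aeval a.1 p :=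
  (Polynomial.aeval_algHom_apply (AlgHom.fst ℂ _ _) a p).symm

theorem aeval_snd (a : Tri n m) (p : ℂ[X]) : (aeval a p).2.1 = aeval a.2.1 p := by
  have h1 : (aeval a p).2 = aeval a.2 p :=
    (Polynomial.aeval_algHom_apply (AlgHom.snd ℂ _ _) a p).symm
  rw [h1]
  exact (Polynomial.aeval_algHom_apply (AlgHom.fst ℂ _ _) a.2 p).symm

theorem aeval_thd (a : Tri n m) (p : ℂ[X]) : (aeval a p).2.2 = p.eval a.2.2 := by
  have h1 : (aeval a p).2 = aeval a.2 p :=
    (Polynomial.aeval_algHom_apply (AlgHom.snd ℂ _ _) a p).symm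
  rw [h1]
  have h2 := (Polynomial.aeval_algHom_apply (AlgHom.snd ℂ _ _) a.2 p).symm
  rw [← Polynomial.coe_aeval_eq_eval]
  exact h2

theorem aeval_QQ {a : Tri n m} (ha : a ∈ QQ V W c) (p : ℂ[X]) : aeval a p ∈ QQ V W c :=
  (Algebra.adjoin_le (Set.singleton_subset_iff.2 ha)) (Polynomial.aeval_mem_adjoin_singleton ℂ a)

end wmt

/-- a matrix whose square acts as itself -/
theorem mat_ext {n : ℕ} {A B : Matrix (Fin n) (Fin n) ℂ} (h : ∀ x, A *ᵥ x = B *ᵥ x) : A = B := by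
  apply Matrix.ext_of_mulVec_single
  intro i
  exact h _

/-- weights and powers -/
theorem ws_wt (h2 : S_WS2) {n : ℕ} (A : Matrix (Fin n) (Fin n) ℂ) {M : ℕ} (hM : 0 < M) (q : ℕ)
    (w : ℤ) : ws (A ^ M) {z | ‖z‖ ^ 2 = ((q : ℝ) ^ w) ^ M} = ws A (wt q w) := by
  rw [← h2 n A M hM]
  congr 1
  ext z
  simp only [wt, Set.mem_ofPred_eq, norm_pow]
  rw [← pow_mul, mul_comm M 2, pow_mul]
  exact pow_left_inj₀ (by positivity) (by positivity) hM.ne'

theorem wt_shift {q : ℕ} (hq : 2 ≤ q) (w : ℤ) : {z : ℂ | (q : ℂ) * z ∈ wt q w} = wt q (w - 2) := by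
  ext z
  have hq0 : (q : ℝ) ≠ 0 := by
    have : (0 : ℝ) < q := by exact_mod_cast (by omega : 0 < q)
    exact this.ne'
  simp only [wt, Set.mem_ofPred_eq, norm_mul, Complex.norm_natCast]
  rw [mul_pow, zpow_sub₀ hq0]
  have h2 : (q : ℝ) ^ (2 : ℤ) = (q : ℝ) ^ 2 := by norm_cast
  rw [h2, eq_div_iff (pow_ne_zero 2 hq0), mul_comm]

theorem N_pow (h3 : S_WS3) {n : ℕ} {A N : Matrix (Fin n) (Fin n) ℂ} {q : ℕ} (hq : 2 ≤ q)
    (hN : N * A = (q : ℂ) • (A * N)) (w : ℤ) {x : Fin n → ℂ} (hx : x ∈ ws A (wt q w)) (j : ℕ) :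
    N ^ j *ᵥ x ∈ ws A (wt q (w - 2 * j)) := by
  induction j with
  | zero => simpa using hx
  | succ j ih =>
    have hq0 : (q : ℂ) ≠ 0 := by
      have : q ≠ 0 := by omega
      exact_mod_cast this
    have h4 := h3 n A N q hq0 hN _ _ ih
    rw [wt_shift hq, mulVec_mulVec, ← pow_succ'] at h4
    have h5 : w - 2 * ((j + 1 : ℕ) : ℤ) = w - 2 * (j : ℤ) - 2 := by push_cast; ring
    rw [h5]
    exact h4

/-- **Module WMT.** -/
theorem wmt (h1 : S_WS1) (h2 : S_WS2) (h3 : S_WS3) (h4 : S_WS4) (_h5 : S_WS5) (h6 : S_WS6)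
    (hdk : S_DK) (hdi : S_DI) : S_WMT := by
  intro G _ n m V W c U σ τ0 M q w NV NW D hWM
  obtain ⟨hT, hnd, hM, hs, hτ, hcτ, hq, hc, ⟨L, hL1, hLV, hLW⟩, hVq, hWq⟩ := D
  have hND := AA_nondeg V W c hnd
  set s : Tri n m := Phi V W c (σ⁻¹ ^ M) with hsdef
  have hsQ : s ∈ QQ V W c := by
    apply Phi_QQ V W c hT
    have h7 : σ⁻¹ ^ M = (σ ^ M)⁻¹ := inv_pow σ M
    rw [h7]
    exact U.inv_mem hs
  have hs1 : s.1 = V σ⁻¹ ^ M := map_pow V _ _
  have hs2 : s.2.1 = W σ⁻¹ ^ M := map_pow W _ _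
  have hs3 : s.2.2 = c (σ⁻¹ ^ M) := rfl
  set ν : Tri n m := aeval (Phi V W c τ0) L with hνdef
  have hνQ : ν ∈ QQ V W c := aeval_QQ V W c (Phi_QQ V W c hT hτ) L
  have hν1 : ν.1 = NV := by rw [hνdef, aeval_fst]; exact hLV
  have hν2 : ν.2.1 = NW := by rw [hνdef, aeval_snd]; exact hLW
  -- the traces are zero
  have hzero : ∀ a ∈ QQ V W c, (a.2.2 = 0 ∨ ∀ y, (V y).trace = (W y).trace) →
      ∀ b ∈ AA V W c, TT (a * b) = 0 := by
    rintro a ha (h | h) b hb
    · rw [QQ_TT V W c ha hb, h, zero_mul]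
    · have h8 := AA_span V W c (mul_mem (QQ_le V W c ha) hb)
      clear_value s ν
      generalize a * b = d at h8
      induction h8 using Submodule.span_induction with
      | mem y hy =>
        obtain ⟨g, rfl⟩ := hy
        change (V g).trace - (W g).trace = 0
        rw [h g, sub_self]
      | zero => exact TT_zero
      | add y z _ _ hy hz => rw [TT_add, hy, hz, add_zero]
      | smul r y _ hy => rw [TT_smul, hy, mul_zero]
  -- the projectors
  have hproj : ∀ S : Set ℂ, (c (σ⁻¹ ^ M) ∉ S ∨ ∀ y, (V y).trace = (W y).trace) →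
      ∃ E ∈ QQ V W c, (∀ b ∈ AA V W c, TT (E * b) = 0) ∧ E.1 * E.1 = E.1 ∧
        (∀ x ∈ ws (V σ⁻¹ ^ M) S, E.1 *ᵥ x = x) ∧ (∀ x, E.1 *ᵥ x ∈ ws (V σ⁻¹ ^ M) S) ∧
        (∀ x ∈ ws (W σ⁻¹ ^ M) S, E.2.1 *ᵥ x = x) ∧ (∀ x, E.2.1 *ᵥ x ∈ ws (W σ⁻¹ ^ M) S) ∧
        ((c (σ⁻¹ ^ M) ∉ S) → E.2.2 = 0) := by
    intro S hS
    obtain ⟨p, p1, p2, p3, p4, -, p6⟩ := h1 n m (V σ⁻¹ ^ M) (W σ⁻¹ ^ M) (c (σ⁻¹ ^ M)) S
    have e1 : (aeval s p).1 = aeval (V σ⁻¹ ^ M) p := by rw [aeval_fst, hs1]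
    have e2 : (aeval s p).2.1 = aeval (W σ⁻¹ ^ M) p := by rw [aeval_snd, hs2]
    have e3 : (aeval s p).2.2 = p.eval (c (σ⁻¹ ^ M)) := by rw [aeval_thd, hs3]
    refine ⟨aeval s p, aeval_QQ V W c hsQ p, ?_, ?_, ?_, ?_, ?_, ?_, ?_⟩
    · apply hzero _ (aeval_QQ V W c hsQ p)
      rcases hS with h | h
      · left
        rw [e3]
        exact p6 h
      · exact Or.inr h
    · rw [e1]
      apply mat_ext
      intro x
      rw [← mulVec_mulVec]
      exact p1 _ (p2 x)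
    · rw [e1]; exact p1
    · rw [e1]; exact p2
    · rw [e2]; exact p3
    · rw [e2]; exact p4
    · intro h
      rw [e3]
      exact p6 h
  constructor
  · -- integral weights
    let S0 : Set ℂ := {z | ∃ j : ℤ, ‖z‖ ^ 2 = ((q : ℝ) ^ (w + j)) ^ M}
    have hS0 : ∀ z : ℂ, z ^ M ∈ S0 → ∃ j : ℤ, z ∈ wt q (w + j) := by
      rintro z ⟨j, hj⟩
      refine ⟨j, ?_⟩
      rw [norm_pow, ← pow_mul, mul_comm M 2, pow_mul] at hj
      exact (pow_left_inj₀ (by positivity) (by positivity) hM.ne').1 hj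
    have hW0 : ws (W σ⁻¹ ^ M) S0 = ⊤ := by
      rw [← h2 m (W σ⁻¹) M hM]
      apply (h4 m (W σ⁻¹) _).1
      intro z hz
      obtain ⟨j, hj⟩ := hWM.1 z hz
      refine ⟨j, ?_⟩
      change ‖z ^ M‖ ^ 2 = _
      rw [norm_pow, ← pow_mul, mul_comm M 2, pow_mul]
      congr 1
    have hcS : c (σ⁻¹ ^ M) ∉ S0ᶜ ∨ ∀ y, (V y).trace = (W y).trace := by
      rcases hc with h | h
      · left
        rw [Set.mem_compl_iff, not_not]
        exact ⟨0, by rw [add_zero]; exact h⟩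
      · exact Or.inr h
    obtain ⟨E, hEQ, hE0, hEE, hE1, hE1', hE2, hE2', -⟩ := hproj S0ᶜ hcS
    have hEW : ∀ v, E.2.1 *ᵥ v = 0 := by
      intro v
      have h8 := (h6 m (W σ⁻¹ ^ M) S0 S0ᶜ).1 disjoint_compl_right
      rw [hW0] at h8
      have h9 : ws (W σ⁻¹ ^ M) S0ᶜ = ⊥ := top_disjoint.1 h8
      have h10 := hE2' v
      rw [h9] at h10
      exact (Submodule.mem_bot ℂ).1 h10
    have hEV : ∀ v, E.1 *ᵥ v = 0 := by
      intro v
      refine hdk n m (AA V W c) hND E (QQ_le V W c hEQ) 0 (zero_mem _) hE0 ?_ ?_ hEE ?_ v ?_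
      · intro b _
        rw [zero_mul, TT_zero]
      · simp
      · intro v _
        exact hEW v
      · simp
    have hbot : ws (V σ⁻¹ ^ M) S0ᶜ = ⊥ := by
      rw [eq_bot_iff]
      intro x hx
      rw [Submodule.mem_bot, ← hE1 x hx]
      exact hEV x
    have htop : ws (V σ⁻¹ ^ M) S0 = ⊤ := by
      have h8 := (h6 n (V σ⁻¹ ^ M) S0 S0ᶜ).2
      rw [hbot, sup_bot_eq, Set.union_compl_self] at h8
      rw [← h8]
      exact (h4 n (V σ⁻¹ ^ M) Set.univ).1 fun _ _ => Set.mem_univ _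
    rw [← h2 n (V σ⁻¹) M hM] at htop
    intro z hz
    exact hS0 z ((h4 n (V σ⁻¹) _).2 htop z hz)
  · intro j hj
    -- the constant `c` is not in the sets
    have hcS : ∀ i : ℤ, i ≠ 0 → (c (σ⁻¹ ^ M) ∉ {z : ℂ | ‖z‖ ^ 2 = ((q : ℝ) ^ (w + i)) ^ M} ∨
        ∀ y, (V y).trace = (W y).trace) := by
      intro i hi
      rcases hc with h | h
      · left
        intro h8
        have h9 : ((q : ℝ) ^ w) ^ M = ((q : ℝ) ^ (w + i)) ^ M := by rw [← h]; exact h8
        have hq1 : (1 : ℝ) < q := by exact_mod_cast (by omega : 1 < q)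
        have h10 := (pow_left_inj₀ (by positivity) (by positivity) hM.ne').1 h9
        have h11 := zpow_right_injective₀ (by linarith) hq1.ne' h10
        omega
      · exact Or.inr h
    obtain ⟨E, hEQ, hE0, hEE, hE1, hE1', hE2, hE2', -⟩ := hproj _ (hcS j (by omega))
    obtain ⟨F, hFQ, hF0, hFF, hF1, hF1', hF2, hF2', -⟩ := hproj _ (hcS (-j) (by omega))
    have hwm : w + -(j : ℤ) = w - j := by ring
    simp only [hwm] at hF1 hF1' hF2 hF2'
    simp only [ws_wt h2 _ hM] at hE1 hE1' hE2 hE2' hF1 hF1' hF2 hF2'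
    set x : Tri n m := ν ^ j * E with hxdef
    have hxQ : x ∈ QQ V W c := mul_mem (pow_mem hνQ j) hEQ
    have hx1 : x.1 = NV ^ j * E.1 := by rw [hxdef, Prod.fst_mul, Prod.pow_fst, hν1]
    have hx2 : x.2.1 = NW ^ j * E.2.1 := by
      rw [hxdef, Prod.snd_mul, Prod.fst_mul, Prod.pow_snd, Prod.pow_fst, hν2]
    have hxTT : ∀ b ∈ AA V W c, TT (x * b) = 0 := by
      intro b hb
      rw [hxdef, mul_assoc, QQ_TT V W c (pow_mem hνQ j) (mul_mem (QQ_le V W c hEQ) hb), hE0 b hb,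
        mul_zero]
    constructor
    · intro x0 hx0 hN0
      have h8 := hdk n m (AA V W c) hND E (QQ_le V W c hEQ) x (QQ_le V W c hxQ) hE0 hxTT
        (by rw [hx1, mul_assoc, hEE]) hEE ?_ x0 ?_
      · rw [← hE1 x0 hx0]
        exact h8
      · intro v hv
        rw [hx2, ← mulVec_mulVec] at hv
        exact (hWM.2 j hj).1 _ (hE2' v) hv
      · rw [hx1, ← mulVec_mulVec, hE1 x0 hx0]
        exact hN0
    · intro y hy
      have h8 := hdi n m (AA V W c) hND F (QQ_le V W c hFQ) x (QQ_le V W c hxQ) hF0 hxTT ?_ hFF ?_ y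
      · obtain ⟨v, hv⟩ := h8
        refine ⟨E.1 *ᵥ v, hE1' v, ?_⟩
        rw [mulVec_mulVec, ← hx1, hv]
        exact hF1 y hy
      · rw [hx1]
        apply mat_ext
        intro v
        rw [← mulVec_mulVec]
        apply hF1
        rw [← mulVec_mulVec]
        have h9 := N_pow h3 hq hVq _ (hE1' v) j
        have h10 : w + (j : ℤ) - 2 * j = w - j := by ring
        rw [h10] at h9
        exact h9
      · intro v
        obtain ⟨x', hx', hx''⟩ := (hWM.2 j hj).2 _ (hF2' v)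
        refine ⟨x', ?_⟩
        rw [hx2, ← mulVec_mulVec, hE2 x' hx']
        exact hx''

end Pool.Agent.J6H90.WT
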