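import Pool.Agent.J6H90.WT.Fin
import Pool.Agent.J6H90.WT.KTA

/-!
# Project WT: the traces on the kernels of the powers of the monodromy operator
-/

set_option autoImplicit false

namespace Pool.Agent.J6H90.WT

open NumberField Filter Topology Pool.Agent.W401.Cheb Pool.Agent.W569.FM Pool.Agent.R401.Img
open Pool.Agent.R401.Tr3 Pool.Agent.R401.Tr5 Pool.Agent.R401.Sup3 Pool.Agent.R401.Sup4
open Pool.Agent.R401.Sup (c_ne c_inv continuous_mt)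
open Pool.Agent.R401.Tr4 (trace_pow)
open Polynomial Matrix Module

set_option linter.unusedSectionVars false

section trOn

variable {F : Type} [Field F] {n : ℕ}

/-- `s` is the trace of the matrix `M` on the subspace `I` -/
def TrOn (M : Matrix (Fin n) (Fin n) F) (I : Submodule F (Fin n → F)) (s : F) : Prop :=
  ∃ (r : ℕ) (b : Basis (Fin r) F I) (A : Matrix (Fin r) (Fin r) F),
    (∀ j, M *ᵥ (b j : Fin n → F) = ∑ i, A i j • (b i : Fin n → F)) ∧ s = A.trace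

theorem trOn_iff {M P : Matrix (Fin n) (Fin n) F} {I : Submodule F (Fin n → F)}
    (hM : ∀ x ∈ I, M *ᵥ x ∈ I) (hP : ∀ x, P *ᵥ x ∈ I) (hP' : ∀ x ∈ I, P *ᵥ x = x) (s : F) :
    TrOn M I s ↔ s = (M * P).trace := by
  constructor
  · rintro ⟨r, b, A, hA, rfl⟩
    have := trace_pow hP hP' b hA 1
    rwa [pow_one, pow_one] at this
  · rintro rfl
    let b₀ : Basis (Fin (finrank F I)) F I := finBasis _ _
    let E₀ : I →ₗ[F] I := (Matrix.toLin' M).restrict fun x hx => by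
      rw [Matrix.toLin'_apply]
      exact hM x hx
    set A₀ := LinearMap.toMatrix b₀ b₀ E₀ with hA₀
    have hA : ∀ j, M *ᵥ (b₀ j : Fin n → F) = ∑ i, A₀ i j • (b₀ i : Fin n → F) := by
      intro j
      have h1 : E₀ (b₀ j) = ∑ i, A₀ i j • b₀ i := by
        rw [hA₀]
        simp only [LinearMap.toMatrix_apply]
        exact (b₀.sum_repr _).symm
      have h2 := congrArg (Subtype.val) h1
      rw [LinearMap.coe_restrict_apply, Matrix.toLin'_apply] at h2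
      rw [h2, Submodule.coe_sum]
      rfl
    refine ⟨_, b₀, A₀, hA, ?_⟩
    have := trace_pow hP hP' b₀ hA 1
    rw [pow_one, pow_one] at this
    exact this.symm

theorem ker_smul {N : Matrix (Fin n) (Fin n) F} {c : F} (hc : c ≠ 0) (a : ℕ) :
    LinearMap.ker (Matrix.toLin' ((c • N) ^ a)) = LinearMap.ker (Matrix.toLin' (N ^ a)) := by
  ext x
  rw [LinearMap.mem_ker, LinearMap.mem_ker, Matrix.toLin'_apply, Matrix.toLin'_apply,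
    _root_.smul_pow, Matrix.smul_mulVec, smul_eq_zero, or_iff_right (pow_ne_zero a hc)]

end trOn

section mono

variable {K : Type} [Field K] [NumberField K] {ℓ : ℕ} [Fact ℓ.Prime] {n m : ℕ}

/-- `N` is a monodromy operator -/
def IsMono {n : ℕ} (ρ : GK K →* Matrix (Fin n) (Fin n) ℚ_[ℓ]) (P : Ideal (OO K))
    (N : Matrix (Fin n) (Fin n) ℚ_[ℓ]) : Prop :=
  IsNilpotent N ∧ ∃ H : Subgroup (GK K), IsOpen (H : Set (GK K)) ∧
    (∃ τ ∈ H, InInertia P τ ∧ ρ τ = IsNilpotent.exp N) ∧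
    ∀ τ ∈ H, InInertia P τ → ∃ t : ℚ_[ℓ], ρ τ = IsNilpotent.exp (t • N)

theorem half_unique (hlog : S_LOG) {ρ : GK K →* Matrix (Fin n) (Fin n) ℚ_[ℓ]} {P : Ideal (OO K)}
    {N N' : Matrix (Fin n) (Fin n) ℚ_[ℓ]} (h : IsMono ρ P N) (h' : IsMono ρ P N') :
    ∃ c : ℚ_[ℓ], N = c • N' := by
  obtain ⟨hN, H, -, ⟨τ, -, hτI, hτ⟩, -⟩ := h
  obtain ⟨hN', H', hHo, -, hall⟩ := h'
  obtain ⟨L, -, hL⟩ := hlog ℚ_[ℓ] n
  have hLn := hL (Fin n) (by rw [Fintype.card_fin])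
  have hfin : Finite (GK K ⧸ H') := Subgroup.quotient_finite_of_isOpen _ hHo
  have hfi : H'.FiniteIndex := Subgroup.finiteIndex_of_finite_quotient
  obtain ⟨σ, hσH, hσ⟩ : ∃ k : ℕ, 0 < k ∧ τ ^ k ∈ H' := by
    obtain ⟨k, hk0, -, hk⟩ := Subgroup.exists_pow_mem_of_index_ne_zero hfi.index_ne_zero τ
    exact ⟨k, hk0, hk⟩
  obtain ⟨t, ht⟩ := hall _ hσ (pow_inertia hτI σ)
  rw [map_pow, hτ, ← exp_nat hN] at ht
  have h2 := hLn.2 _ (hN.smul ((σ : ℕ) : ℚ_[ℓ]))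
  rw [ht, hLn.2 _ (hN'.smul t)] at h2
  have h3 : ((σ : ℕ) : ℚ_[ℓ]) ≠ 0 := Nat.cast_ne_zero.2 (by omega)
  exact ⟨((σ : ℕ) : ℚ_[ℓ])⁻¹ * t, by rw [mul_smul, h2, smul_smul, inv_mul_cancel₀ h3, one_smul]⟩

theorem mono_unique (hlog : S_LOG) {ρ : GK K →* Matrix (Fin n) (Fin n) ℚ_[ℓ]} {P : Ideal (OO K)}
    {N N' : Matrix (Fin n) (Fin n) ℚ_[ℓ]} (h : IsMono ρ P N) (h' : IsMono ρ P N') :
    ∃ c : ℚ_[ℓ], c ≠ 0 ∧ N = c • N' := by
  obtain ⟨c, hc⟩ := half_unique hlog h h'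
  obtain ⟨d, hd⟩ := half_unique hlog h' h
  rcases eq_or_ne c 0 with h0 | h0
  · have hN : N = 0 := by rw [hc, h0, zero_smul]
    have hN' : N' = 0 := by rw [hd, hN, smul_zero]
    exact ⟨1, one_ne_zero, by rw [hN, hN', smul_zero]⟩
  · exact ⟨c, h0, hc⟩

theorem LD.isMonoV {V : GK K →* Matrix (Fin n) (Fin n) ℚ_[ℓ]}
    {W : GK K →* Matrix (Fin m) (Fin m) ℚ_[ℓ]} {w : ℤ} {q : ℕ} {P : Ideal (OO K)}
    {H : Subgroup (GK K)} {τ0 : GK K} {NV : Matrix (Fin n) (Fin n) ℚ_[ℓ]}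
    {NW : Matrix (Fin m) (Fin m) ℚ_[ℓ]} (h : LD V W w q P H τ0 NV NW) : IsMono V P NV :=
  ⟨h.hNV, H, h.hHo, ⟨τ0, h.hτ, h.hτI, h.hVτ⟩, fun τ hτ hτI => by
    obtain ⟨t, ht, -⟩ := h.hall τ hτ hτI
    exact ⟨t, ht⟩⟩

theorem LD.isMonoW {V : GK K →* Matrix (Fin n) (Fin n) ℚ_[ℓ]}
    {W : GK K →* Matrix (Fin m) (Fin m) ℚ_[ℓ]} {w : ℤ} {q : ℕ} {P : Ideal (OO K)}
    {H : Subgroup (GK K)} {τ0 : GK K} {NV : Matrix (Fin n) (Fin n) ℚ_[ℓ]}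
    {NW : Matrix (Fin m) (Fin m) ℚ_[ℓ]} (h : LD V W w q P H τ0 NV NW) : IsMono W P NW :=
  ⟨h.hNW, H, h.hHo, ⟨τ0, h.hτ, h.hτI, h.hWτ⟩, fun τ hτ hτI => by
    obtain ⟨t, -, ht⟩ := h.hall τ hτ hτI
    exact ⟨t, ht⟩⟩

/-- elements of degree `k` -/
theorem exists_factor {P : Ideal (OO K)} {q : ℕ} {σ : GK K} (hσ : FrobAt q P σ) {k : ℕ}
    {g : GK K} (hg : FrobAt (q ^ k) P g⁻¹) : ∃ τ, InInertia P τ ∧ g = σ⁻¹ ^ k * τ := by
  have hk : ∀ (k : ℕ), FrobAt (q ^ k) P (σ ^ k) := by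
    intro k
    induction k with
    | zero =>
      intro x
      simp
    | succ k ih =>
      intro x
      have h2 : (σ ^ (k + 1)) • x - x ^ (q ^ (k + 1)) =
          (σ • (σ ^ k • x) - (σ ^ k • x) ^ q) + ((σ ^ k • x) ^ q - (x ^ (q ^ k)) ^ q) := by
        rw [pow_succ' σ, mul_smul, pow_succ q, pow_mul x]
        abel
      rw [h2]
      refine P.add_mem (hσ _) ?_
      exact Ideal.mem_of_dvd P (sub_dvd_pow_sub_pow _ _ q) (ih x)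
  refine ⟨σ ^ k * g, ?_, ?_⟩
  · have h1 : InInertia P (g⁻¹ * (σ ^ k)⁻¹) := by
      intro x
      set y := (σ ^ k)⁻¹ • x with hy
      have hx : x = σ ^ k • y := by rw [hy, smul_inv_smul]
      have h2 : (g⁻¹ * (σ ^ k)⁻¹) • x - x = (g⁻¹ • y - y ^ (q ^ k)) - (σ ^ k • y - y ^ (q ^ k)) := by
        rw [mul_smul, ← hy, ← hx]
        abel
      rw [h2]
      exact P.sub_mem (hg y) (hk k y)
    have h3 := inv_inertia h1
    rwa [_root_.mul_inv_rev, inv_inv, inv_inv] at h3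
  · rw [_root_.inv_pow, inv_mul_cancel_left]

variable {V : GK K →* Matrix (Fin n) (Fin n) ℚ_[ℓ]} {W : GK K →* Matrix (Fin m) (Fin m) ℚ_[ℓ]}
  {u : ℤ} {φ : GK K → ℚ} {U : Subgroup (GK K)} (hU : ∀ x ∈ U, ∀ y, φ (x * y) = φ y)
  (hφ : ∀ y : GK K, cyc K ℓ ℚ_[ℓ] y ^ u * ((V y).trace - (W y).trace) = (φ y : ℚ_[ℓ]))
  {P : Ideal (OO K)} (hP : P.IsMaximal) {q : ℕ} (hq : 2 ≤ q) {σ : GK K} (hσ : FrobAt q P σ)
  (hℓP : (ℓ : OO K) ∉ P) {w : ℤ} (hw : w = 2 * u ∨ ∀ y, φ y = 0)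
  {H : Subgroup (GK K)} {τ0 : GK K} {NV : Matrix (Fin n) (Fin n) ℚ_[ℓ]}
  {NW : Matrix (Fin m) (Fin m) ℚ_[ℓ]} (hHU : H ≤ U) (h : LD V W w q P H τ0 NV NW)
  (hnd : ∀ z ∈ Submodule.span ℚ_[ℓ] (Set.range W), (∀ g, (z * W g).trace = 0) → z = 0)

include hU hφ hP hq hσ hℓP hw hHU h hnd in
theorem kta_local (hbc : S_BC) (hkta : S_KTA) (e : ℚ_[ℓ] →+* ℂ) {a : ℕ} (ha : 0 < a)
    {SV : Matrix (Fin n) (Fin n) ℚ_[ℓ]} {SW : Matrix (Fin m) (Fin m) ℚ_[ℓ]}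
    (hSV : NV ^ a * SV * NV ^ a = NV ^ a) (hSW : NW ^ a * SW * NW ^ a = NW ^ a) {τ : GK K}
    (hτ : InInertia P τ) (k : ℕ) :
    (V (σ⁻¹ ^ k * τ) * (1 - SV * NV ^ a)).trace - (W (σ⁻¹ ^ k * τ) * (1 - SW * NW ^ a)).trace =
      (V (σ⁻¹ ^ k * τ)).trace - (W (σ⁻¹ ^ k * τ)).trace := by
  have hHn := h.hHn
  have hfin : Finite (GK K ⧸ H) := Subgroup.quotient_finite_of_isOpen _ h.hHo
  have hfi : H.FiniteIndex := Subgroup.finiteIndex_of_finite_quotient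
  have hq1 : 1 ≤ q := by omega
  set M := H.index with hM
  -- the commutator
  set c : GK K := σ ^ M * τ⁻¹ * (σ ^ M)⁻¹ * τ with hc
  have hcI : InInertia P c := mul_inertia (conj_pow_inertia hq1 hσ (inv_inertia hτ) M) hτ
  have hcH : c ∈ H := by
    have h1 : c = σ ^ M * (τ⁻¹ * (σ ^ M)⁻¹ * τ) := by rw [hc]; group
    rw [h1]
    refine H.mul_mem (Subgroup.pow_index_mem H σ) ?_
    have h2 := hHn.conj_mem _ (H.inv_mem (Subgroup.pow_index_mem H σ)) τ⁻¹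
    rwa [inv_inv] at h2
  obtain ⟨t, htV, htW⟩ := h.hall c hcH hcI
  have hcc : τ⁻¹ * (σ⁻¹ ^ M * τ) = σ⁻¹ ^ M * c := by
    rw [hc, _root_.inv_pow]
    group
  have h1 := hkta (GK K) n m (mc e V) (mc e W) (cc e u) H σ τ0 M q w (NV.map e) (NW.map e)
    (dat hU hφ hP hq hσ hℓP hw hHU h hnd hbc e) (h.hWM σ hσ e) (isNilpotent_map e h.hNV)
    (isNilpotent_map e h.hNW) τ k a ha
    (by rw [mc_apply, ← mul_map, ← mul_map, h.hVI τ hτ])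
    (by rw [mc_apply, ← mul_map, ← mul_map, h.hWI τ hτ])
    ⟨e t, by
      rw [hcc, map_mul, mc_apply e V c, htV, exp_map e (h.hNV.smul t), smul_map]⟩
    ⟨e t, by
      rw [hcc, map_mul, mc_apply e W c, htW, exp_map e (h.hNW.smul t), smul_map]⟩
    ((1 - SV * NV ^ a).map e) ((1 - SW * NW ^ a).map e)
    (by rw [← pow_map, ← mul_map, mul_sub, mul_one, ← mul_assoc, hSV, sub_self, zero_map])
    (by rw [← pow_map, ← mul_map, mul_sub, mul_one, ← mul_assoc, hSW, sub_self, zero_map])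
    (by
      intro x hx
      rw [sub_map, one_map, mul_map, pow_map, Matrix.sub_mulVec, Matrix.one_mulVec,
        ← Matrix.mulVec_mulVec, hx, Matrix.mulVec_zero, sub_zero])
    (by
      intro x hx
      rw [sub_map, one_map, mul_map, pow_map, Matrix.sub_mulVec, Matrix.one_mulVec,
        ← Matrix.mulVec_mulVec, hx, Matrix.mulVec_zero, sub_zero])
  rw [mc_apply, mc_apply, ← mul_map, ← mul_map, tr_map, tr_map, tr_map, tr_map, ← map_sub,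
    ← map_sub] at h1
  exact e.injective h1

/-- the projector onto the kernel -/
theorem trOn_ker {r : ℕ} {ρ : Matrix (Fin r) (Fin r) ℚ_[ℓ]} {N S : Matrix (Fin r) (Fin r) ℚ_[ℓ]}
    {a : ℕ} {κ : ℚ_[ℓ]} (hρ : N * ρ = κ • (ρ * N)) (hS : N ^ a * S * N ^ a = N ^ a) (s : ℚ_[ℓ]) :
    TrOn ρ (LinearMap.ker (Matrix.toLin' (N ^ a))) s ↔ s = (ρ * (1 - S * N ^ a)).trace := by
  have hpow : ∀ b : ℕ, N ^ b * ρ = κ ^ b • (ρ * N ^ b) := by
    intro b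
    induction b with
    | zero => simp
    | succ b ih =>
      rw [pow_succ, Matrix.mul_assoc, hρ, Matrix.mul_smul, ← Matrix.mul_assoc, ih, smul_mul_assoc,
        smul_smul, Matrix.mul_assoc ρ, pow_succ κ, mul_comm κ]
  apply trOn_iff
  · intro x hx
    rw [LinearMap.mem_ker, Matrix.toLin'_apply] at hx ⊢
    rw [Matrix.mulVec_mulVec, hpow, Matrix.smul_mulVec, ← Matrix.mulVec_mulVec, hx,
      Matrix.mulVec_zero, smul_zero]
  · intro x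
    rw [LinearMap.mem_ker, Matrix.toLin'_apply, Matrix.mulVec_mulVec, mul_sub, mul_one,
      ← mul_assoc, hS, sub_self, Matrix.zero_mulVec]
  · intro x hx
    rw [LinearMap.mem_ker, Matrix.toLin'_apply] at hx
    rw [Matrix.sub_mulVec, Matrix.one_mulVec, ← Matrix.mulVec_mulVec, hx, Matrix.mulVec_zero,
      sub_zero]

theorem rel_pow {r : ℕ} {ρ : GK K →* Matrix (Fin r) (Fin r) ℚ_[ℓ]}
    {N : Matrix (Fin r) (Fin r) ℚ_[ℓ]} {κ : ℚ_[ℓ]} {σ τ : GK K}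
    (h1 : N * ρ σ⁻¹ = κ • (ρ σ⁻¹ * N)) (h2 : N * ρ τ = ρ τ * N) (k : ℕ) :
    N * ρ (σ⁻¹ ^ k * τ) = κ ^ k • (ρ (σ⁻¹ ^ k * τ) * N) := by
  have h3 : N * ρ σ⁻¹ ^ k = κ ^ k • (ρ σ⁻¹ ^ k * N) := by
    induction k with
    | zero => simp
    | succ k ih =>
      rw [pow_succ, ← Matrix.mul_assoc, ih, smul_mul_assoc, Matrix.mul_assoc _ N, h1,
        Matrix.mul_smul, smul_smul, ← Matrix.mul_assoc, pow_succ κ]
  rw [map_mul, map_pow, ← Matrix.mul_assoc, h3, smul_mul_assoc, Matrix.mul_assoc _ N, h2,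
    ← Matrix.mul_assoc]

include hU hφ hP hq hσ hℓP hw hHU h hnd in
/-- **The traces on the kernels.** -/
theorem sc_local (hbc : S_BC) (hkta : S_KTA) (hlog : S_LOG) {a : ℕ} (ha : 0 < a) {k : ℕ}
    {g : GK K} (hg : FrobAt (q ^ k) P g⁻¹) {N : Matrix (Fin n) (Fin n) ℚ_[ℓ]}
    (hN : IsMono V P N) {N' : Matrix (Fin m) (Fin m) ℚ_[ℓ]} (hN' : IsMono W P N') {s' : ℚ_[ℓ]}
    (hs' : TrOn (W g) (LinearMap.ker (Matrix.toLin' (N' ^ a))) s') (s : ℚ_[ℓ]) :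
    TrOn (V g) (LinearMap.ker (Matrix.toLin' (N ^ a))) s ↔
      s = s' + (((q : ℚ) ^ u) ^ k * φ g : ℚ) := by
  obtain ⟨c, hc, rfl⟩ := mono_unique hlog hN h.isMonoV
  obtain ⟨c', hc', rfl⟩ := mono_unique hlog hN' h.isMonoW
  obtain ⟨τ, hτ, rfl⟩ := exists_factor hσ hg
  rw [ker_smul hc]
  rw [ker_smul hc'] at hs'
  obtain ⟨SV, hSV⟩ := exists_ginv (NV ^ a)
  obtain ⟨SW, hSW⟩ := exists_ginv (NW ^ a)
  obtain ⟨e, -⟩ := exists_emb ℓ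
  rw [trOn_ker (rel_pow (h.hWq σ hσ) (h.hWI τ hτ) k) hSW] at hs'
  rw [trOn_ker (rel_pow (h.hVq σ hσ) (h.hVI τ hτ) k) hSV]
  have h1 := kta_local hU hφ hP hq hσ hℓP hw hHU h hnd hbc hkta e ha hSV hSW hτ k
  rw [← hs'] at h1
  have hcq := Pool.Agent.R401.Tr9.cyc_sigma (ℓ := ℓ) hP hσ hℓP
  have hc0 : (q : ℚ_[ℓ]) ≠ 0 := by
    rw [← hcq]
    exact c_ne _ _
  have h2 := hφ (σ⁻¹ ^ k * τ)
  rw [map_mul, cyc_inertia hP hℓP hσ hτ, mul_one, map_pow, c_inv, hcq, ← zpow_natCast,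
    _root_.zpow_comm, _root_.inv_zpow, _root_.inv_zpow, zpow_natCast] at h2
  have h3 : ((q : ℚ_[ℓ]) ^ u) ^ k ≠ 0 := pow_ne_zero _ (zpow_ne_zero _ hc0)
  have h4 : ((((q : ℚ) ^ u) ^ k * φ (σ⁻¹ ^ k * τ) : ℚ) : ℚ_[ℓ]) =
      (V (σ⁻¹ ^ k * τ)).trace - (W (σ⁻¹ ^ k * τ)).trace := by
    push_cast
    rw [← h2, ← mul_assoc, mul_inv_cancel₀ h3, one_mul]
  rw [h4, ← h1]
  constructor
  · intro hs
    rw [hs]
    ring
  · intro hs
    rw [hs]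
    ring

end mono

end Pool.Agent.J6H90.WT
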