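import Mathlib

/-!
# Project WT (MP_898f40_nt): transfer of the weight-monodromy property and of local factors

Linear algebra part of the blueprint; only Mathlib.  Notation in the docstrings: `σ` arithmetic
Frobenius element, `A = ρ(σ⁻¹)`, `N` the logarithm of a unipotent inertia element, `N A = q A N`.

The final theorem: `V`, `W` families of `ℓ`-adic representations of the absolute Galois group of a
number field, `W` semisimple; the traces of Frobenius elements are congruent modulo `N(v)^(w/2)` at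
most places.  Then `T(x y) = c(x) T(y)` for `x` in an open subgroup `U`, where `T = tr V - tr W` and
`c = χ^(-u)`, `w = 2u` (start file `Pool.Agent.R401.Tr7`).  At a place where `W` satisfies the
weight-monodromy property, so does `V`, and `tr (g | V^I) - tr (g | W^I)` is the average of `T(g τ)`
over the inertia group, whatever the reduction of `V` and `W` is.

Every `S_...` below is one module (`theorem xxx : S_XXX`, possibly with earlier statements as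
hypotheses, as indicated).
-/

set_option autoImplicit false

open Matrix Polynomial

namespace Pool.Agent.J6H90.WT

/-- the vectors annihilated by a nonzero polynomial in `A` all of whose roots are in `S` -/
def ws {n : ℕ} (A : Matrix (Fin n) (Fin n) ℂ) (S : Set ℂ) : Submodule ℂ (Fin n → ℂ) where
  carrier := {x | ∃ p : ℂ[X], p ≠ 0 ∧ (∀ z, p.IsRoot z → z ∈ S) ∧ aeval A p *ᵥ x = 0}
  add_mem' := by
    rintro x y ⟨p, hp, hpS, hx⟩ ⟨r, hr, hrS, hy⟩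
    refine ⟨p * r, mul_ne_zero hp hr, ?_, ?_⟩
    · intro z hz
      rcases root_mul.1 hz with h | h
      · exact hpS z h
      · exact hrS z h
    · rw [mulVec_add]
      have h1 : aeval A (p * r) *ᵥ x = 0 := by
        rw [mul_comm, map_mul, ← mulVec_mulVec, hx, mulVec_zero]
      have h2 : aeval A (p * r) *ᵥ y = 0 := by
        rw [map_mul, ← mulVec_mulVec, hy, mulVec_zero]
      rw [h1, h2, add_zero]
  zero_mem' := ⟨1, one_ne_zero, fun z hz => absurd hz (by simp [IsRoot]), by simp⟩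
  smul_mem' := by
    rintro c x ⟨p, hp, hpS, hx⟩
    exact ⟨p, hp, hpS, by rw [mulVec_smul, hx, smul_zero]⟩

/-- the complex numbers of weight `w` -/
def wt (q : ℕ) (w : ℤ) : Set ℂ := {z | ‖z‖ ^ 2 = (q : ℝ) ^ w}

/-- the weight-monodromy property, `A` = geometric Frobenius, `N` = monodromy operator: all weights
are integers, and `N ^ j` is a bijection from the part of weight `w + j` to the part of weight
`w - j` -/
def WM {n : ℕ} (A N : Matrix (Fin n) (Fin n) ℂ) (q : ℕ) (w : ℤ) : Prop :=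
  (∀ z ∈ spectrum ℂ A, ∃ j : ℤ, z ∈ wt q (w + j)) ∧
  ∀ j : ℕ, 0 < j → (∀ x ∈ ws A (wt q (w + j)), N ^ j *ᵥ x = 0 → x = 0) ∧
    ∀ y ∈ ws A (wt q (w - j)), ∃ x ∈ ws A (wt q (w + j)), N ^ j *ᵥ x = y

/-! ## Module WS: the spaces `ws A S` -/

/-- WS1.  Projector.  Proof: `P = charpoly A * charpoly B * (X - c)` is a product of linear factors;
`P = P1 P2`, `P1` the factors with roots in `S`, `P2` the others: coprime, `a P1 + b P2 = 1`,
`p = b P2`.  `P(A) = 0` (Cayley-Hamilton).  For `x ∈ ws A S` with `r(A) x = 0` (`r` has all roots in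
`S`): `gcd`-argument: `r` and `P2` are coprime, and `P1(A)` kills `x` as `P2(A) P1(A) x = 0` and
`r(A) P1(A) x = 0`.  And `P1(A) (p(A) x) = b(A) P(A) x = 0`. -/
def S_WS1 : Prop := ∀ (n m : ℕ) (A : Matrix (Fin n) (Fin n) ℂ) (B : Matrix (Fin m) (Fin m) ℂ)
  (c : ℂ) (S : Set ℂ), ∃ p : ℂ[X],
    (∀ x ∈ ws A S, aeval A p *ᵥ x = x) ∧ (∀ x, aeval A p *ᵥ x ∈ ws A S) ∧
    (∀ x ∈ ws B S, aeval B p *ᵥ x = x) ∧ (∀ x, aeval B p *ᵥ x ∈ ws B S) ∧
    (c ∈ S → p.eval c = 1) ∧ (c ∉ S → p.eval c = 0)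

/-- WS2.  Powers.  `⊆`: if `∏ (A - z_i) x = 0` then `∏ (A^M - z_i^M) x = 0`.  `⊇`: compose `p` with
`X ^ M`. -/
def S_WS2 : Prop := ∀ (n : ℕ) (A : Matrix (Fin n) (Fin n) ℂ) (M : ℕ), 0 < M → ∀ S : Set ℂ,
  ws A {z | z ^ M ∈ S} = ws (A ^ M) S

/-- WS3.  `N p(A) = p(q A) N`. -/
def S_WS3 : Prop := ∀ (n : ℕ) (A N : Matrix (Fin n) (Fin n) ℂ) (q : ℂ), q ≠ 0 →
  N * A = q • (A * N) → ∀ S : Set ℂ, ∀ x ∈ ws A S, N *ᵥ x ∈ ws A {z | q * z ∈ S}

/-- WS4.  (Cayley-Hamilton for the first part; for the second one a polynomial with roots in `S`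
that kills an eigenvector `x` of `A` for `z` has the root `z`.) -/
def S_WS4 : Prop := ∀ (n : ℕ) (A : Matrix (Fin n) (Fin n) ℂ) (S : Set ℂ),
  (∀ z ∈ spectrum ℂ A, z ∈ S) ↔ ws A S = ⊤

/-- WS5. -/
def S_WS5 : Prop := ∀ (n : ℕ) (A C : Matrix (Fin n) (Fin n) ℂ), C * A = A * C → ∀ S : Set ℂ,
  ∀ x ∈ ws A S, C *ᵥ x ∈ ws A S

/-- WS6.  Disjoint sets give independent spaces, and the space of a union of finitely many sets is
the sum.  (For the second part only two sets: partial fractions.) -/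
def S_WS6 : Prop := ∀ (n : ℕ) (A : Matrix (Fin n) (Fin n) ℂ) (S S' : Set ℂ),
  (Disjoint S S' → Disjoint (ws A S) (ws A S')) ∧ ws A (S ∪ S') = ws A S ⊔ ws A S'

/-! ## Module DUAL: from `W` to `V` -/

/-- pairs of matrices and a scalar -/
abbrev Tri (n m : ℕ) : Type := Matrix (Fin n) (Fin n) ℂ × Matrix (Fin m) (Fin m) ℂ × ℂ

/-- the difference of the traces -/
def TT {n m : ℕ} (a : Tri n m) : ℂ := a.1.trace - a.2.1.trace

/-- nondegeneracy of the trace form of the second component -/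
def Nondeg {n m : ℕ} (𝒜 : Subalgebra ℂ (Tri n m)) : Prop :=
  ∀ a ∈ 𝒜, (∀ b ∈ 𝒜, (a.2.1 * b.2.1).trace = 0) → a.2.1 = 0

/-- DK (kernels).  Let `B` be the algebra of the second components; its trace form is nondegenerate.
Claim: `∃ y ∈ 𝒜, (y x)₂ = E₂`.  Otherwise a linear form `f` on `B` vanishes on `B x₂` and not at `E₂`;
`f = tr (b₀ ·)` with `b₀ ∈ B` (nondegenerate, finite dimension); `tr (x₂ b₀ b) = 0` for all `b ∈ B`, so
`x₂ b₀ = 0`, so `E₂ b₀ = 0` (as `ker x₂ ⊆ ker E₂`), and `f(E₂) = tr (E₂ b₀) = 0`.  Now `z = E - y x` has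
`z₂ = 0` and `tr (z₁ b₁) = TT (z b) = TT (E b) - TT (x (b y)) = 0` for all `b ∈ 𝒜` (`TT` is cyclic),
so `z₁` is nilpotent (all traces of powers vanish).  If `x₁ v = 0`, `v' = E₁ v`: `x₁ v' = x₁ v = 0`
and `z₁ v' = E₁ v' = v'`, so `v' = 0`. -/
def S_DK : Prop := ∀ (n m : ℕ) (𝒜 : Subalgebra ℂ (Tri n m)), Nondeg 𝒜 → ∀ E ∈ 𝒜, ∀ x ∈ 𝒜,
  (∀ b ∈ 𝒜, TT (E * b) = 0) → (∀ b ∈ 𝒜, TT (x * b) = 0) → x.1 * E.1 = x.1 → E.1 * E.1 = E.1 →
  (∀ v, x.2.1 *ᵥ v = 0 → E.2.1 *ᵥ v = 0) → ∀ v, x.1 *ᵥ v = 0 → E.1 *ᵥ v = 0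

/-- DI (images), the dual statement.  `∃ y ∈ 𝒜, (x y)₂ = E₂`: otherwise `f = tr (b₀ ·)` vanishes on
`x₂ B`, so `b₀ x₂ = 0`, so `b₀ E₂ = 0` (as `im E₂ ⊆ im x₂`).  `z = E - x y`, `z₁` nilpotent.  On the
image of `E₁`: `x₁ y₁ v = (1 - z₁) v`, `1 - z₁` is injective, and the image of `x₁` is contained in
that of `E₁`: so it is equal to it (dimensions). -/
def S_DI : Prop := ∀ (n m : ℕ) (𝒜 : Subalgebra ℂ (Tri n m)), Nondeg 𝒜 → ∀ E ∈ 𝒜, ∀ x ∈ 𝒜,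
  (∀ b ∈ 𝒜, TT (E * b) = 0) → (∀ b ∈ 𝒜, TT (x * b) = 0) → E.1 * x.1 = x.1 → E.1 * E.1 = E.1 →
  (∀ v, ∃ v', x.2.1 *ᵥ v' = E.2.1 *ᵥ v) → ∀ v, ∃ v', x.1 *ᵥ v' = E.1 *ᵥ v

/-! ## Module BC: base change of the nondegeneracy of the trace form -/

/-- BC.  Take `g_1, …, g_r` such that the `W(g_i)` are a basis of the span over `F`
(`Submodule.exists_fun_fin_finrank_span_eq` or `exists_linearIndependent`).  The Gram matrix
`tr (W(g_i) W(g_j))` is nonsingular over `F`, so its image under `e` is.  Every `W(g)` is an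
`F`-combination of the `W(g_i)`. -/
def S_BC : Prop := ∀ (F : Type) [Field F] (e : F →+* ℂ) (m : ℕ) (G : Type) [Group G]
  (W : G →* Matrix (Fin m) (Fin m) F),
  (∀ z ∈ Submodule.span F (Set.range W), (∀ g, (z * W g).trace = 0) → z = 0) →
  ∀ z ∈ Submodule.span ℂ (Set.range fun g => (W g).map e),
    (∀ g, (z * (W g).map e).trace = 0) → z = 0

/-! ## Module TRK: the trace on the kernel of `N` -/

/-- TRK.  `E0`, `E2` projectors, `N` maps `im E0` onto `im E2`, `ker N ⊆ im E0`, `R` preserves `im E0`,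
`N R = κ R N`, `Π` a projector onto `ker N`.  Proof: take `S` with `S = E0 S E2`, `N S E2 = E2`
(a section), `Π0 = E0 - S N E0` is a projector onto `ker N`.  `tr (R Π) = tr (R Π0 Π) = tr (Π R Π0) =
tr (R Π0)`, and `tr (R S N E0) = tr (N E0 R S) = tr (N R S) = κ tr (R N S) = κ tr (R E2)`. -/
def S_TRK : Prop := ∀ (n : ℕ) (N E0 E2 Pi R : Matrix (Fin n) (Fin n) ℂ) (κ : ℂ), E0 * E0 = E0 →
  E2 * E2 = E2 → E2 * (N * E0) = N * E0 →
  (∀ y, E2 *ᵥ y = y → ∃ x, E0 *ᵥ x = x ∧ N *ᵥ x = y) → (∀ x, N *ᵥ x = 0 → E0 *ᵥ x = x) →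
  E0 * (R * E0) = R * E0 → N * R = κ • (R * N) → N * Pi = 0 → (∀ x, N *ᵥ x = 0 → Pi *ᵥ x = x) →
  (R * Pi).trace = (R * E0).trace - κ * (R * E2).trace

/-! ## Module STAB: the weight filtration is stable under inertia -/

/-- STAB (from WS3, WS5).  `h = exp (a N)`, `a = t / (1 - Q)`: `N B = B (Q N)` gives
`exp (-a N) B = B exp (-a Q N)`, so `h⁻¹ B h = B exp (a (1 - Q) N) = B exp (t N) = C' B C`; so
`κ = C h⁻¹` commutes with `B`.  `C = κ h`; `h` preserves `ws B S` since `N` does (WS3), `κ` by WS5. -/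
def S_STAB : Prop := ∀ (n : ℕ) (B N C C' : Matrix (Fin n) (Fin n) ℂ) (Q t : ℂ), C * C' = 1 →
  C' * C = 1 → IsNilpotent N → Q ≠ 0 → Q ≠ 1 → N * B = Q • (B * N) →
  C' * (B * C) = B * IsNilpotent.exp (t • N) → ∀ S : Set ℂ, (∀ z ∈ S, z / Q ∈ S) →
  ∀ x ∈ ws B S, C *ᵥ x ∈ ws B S

/-! ## Module LOG: logarithms of unipotent matrices -/

/-- LOG.  One polynomial `L` for all sizes `≤ D`.  Existence of `L` with `exp (L(t)) = t`: by induction
on `k` there is `L_k ∈ (X - 1) k[X]` with `exp (L_k) = t` modulo `(t - 1)^k` (add `c (X - 1)^k`).  (Or any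
other proof.)  `L(exp N) = N`: `N' = L(exp N)` commutes with `N`, `exp (N' - N) = 1`, and
`exp M - 1 = M * unit` for nilpotent `M`. -/
def S_LOG : Prop := ∀ (k : Type) [Field k] [CharZero k] (D : ℕ), ∃ L : k[X], L.eval 1 = 0 ∧
  ∀ (ι : Type) [Fintype ι] [DecidableEq ι], Fintype.card ι ≤ D →
    (∀ t : Matrix ι ι k, IsNilpotent (t - 1) →
      IsNilpotent (aeval t L) ∧ IsNilpotent.exp (aeval t L) = t) ∧
    (∀ N : Matrix ι ι k, IsNilpotent N → aeval (IsNilpotent.exp N) L = N)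

/-- EXPK.  `exp N` fixes the kernel of `N` and nothing else. -/
def S_EXPK : Prop := ∀ (k : Type) [Field k] [CharZero k] (ι : Type) [Fintype ι] [DecidableEq ι]
  (N : Matrix ι ι k), IsNilpotent N → ∀ x, IsNilpotent.exp N *ᵥ x = x ↔ N *ᵥ x = 0

/-! ## Module WMT: transfer of the weight-monodromy property -/

/-- the common hypotheses -/
structure Dat {G : Type} [Group G] {n m : ℕ} (V : G →* Matrix (Fin n) (Fin n) ℂ)
    (W : G →* Matrix (Fin m) (Fin m) ℂ) (c : G →* ℂ) (U : Subgroup G) (σ τ0 : G) (M q : ℕ) (w : ℤ)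
    (NV : Matrix (Fin n) (Fin n) ℂ) (NW : Matrix (Fin m) (Fin m) ℂ) : Prop where
  hT : ∀ x ∈ U, ∀ y, (V (x * y)).trace - (W (x * y)).trace = c x * ((V y).trace - (W y).trace)
  hnd : ∀ z ∈ Submodule.span ℂ (Set.range W), (∀ g, (z * W g).trace = 0) → z = 0
  hM : 0 < M
  hs : σ ^ M ∈ U
  hτ : τ0 ∈ U
  hcτ : c τ0 = 1
  hq : 2 ≤ q
  hc : ‖c (σ⁻¹ ^ M)‖ ^ 2 = ((q : ℝ) ^ w) ^ M ∨ ∀ y, (V y).trace = (W y).trace
  hN : ∃ L : ℂ[X], L.eval 1 = 0 ∧ aeval (V τ0) L = NV ∧ aeval (W τ0) L = NW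
  hVq : NV * V σ⁻¹ = (q : ℂ) • (V σ⁻¹ * NV)
  hWq : NW * W σ⁻¹ = (q : ℂ) • (W σ⁻¹ * NW)

/-- WMT (from WS1 - WS6, DK, DI).  `𝒜` = span of the triples `(V g, W g, c g)`; for `a` in the span of
the triples with `g ∈ U` and `b ∈ 𝒜`: `TT (a b) = c(a) TT (b)`, `c(a)` the third component.  So
`TT (a b) = 0` if `c(a) = 0` or `TT = 0`.  `ν = L(τ0 triple) = (NV, NW, 0)` and `E_j = p_j(s)`, `s` the
triple of `σ⁻¹ ^ M`, `p_j` the projector polynomial (WS1) for `S = {z | ‖z‖² = (q^(w+j))^M}` (so that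
by WS2 `ws (A^M) S = ws A (wt q (w+j))`), third component `0` if `j ≠ 0`.  First assertion of
`WM (V σ⁻¹) NV`: the traces of `A_V^(Mk)` and `A_W^(Mk)` differ by `C^k (n - m)`, `C = c(s)`, so
`charpoly (A_V^M) (X - C)^m = charpoly (A_W^M) (X - C)^n` (`Pool.Agent.TH658.Eq.charpoly_eq_of_traces`,
cf. `Pool.Agent.R401.Tr8.eig`), the eigenvalues of `A_V^M` are among those of `A_W^M` and `C`.
Injectivity: DK with `E = E_j`, `x = ν^j E_j`.  Surjectivity: DI with `E = E_{-j}`, `x = ν^j E_j`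
(`N^j` maps weight `w+j` to weight `w-j`: WS3). -/
def S_WMT : Prop := ∀ (G : Type) [Group G] (n m : ℕ) (V : G →* Matrix (Fin n) (Fin n) ℂ)
  (W : G →* Matrix (Fin m) (Fin m) ℂ) (c : G →* ℂ) (U : Subgroup G) (σ τ0 : G) (M q : ℕ) (w : ℤ)
  (NV : Matrix (Fin n) (Fin n) ℂ) (NW : Matrix (Fin m) (Fin m) ℂ),
  Dat V W c U σ τ0 M q w NV NW → WM (W σ⁻¹) NW q w → WM (V σ⁻¹) NV q w

/-! ## Module KT: the difference of the traces on the kernels of the monodromy operators -/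

/-- KT (from WS1 - WS6, TRK, STAB, WMT).  `R = ρ(σ⁻¹ ^ k τ)`.  Let `E0`, `E2` be the projectors
`p(σ⁻¹ ^ M)` for `S = {z | ‖z‖² ≤ (q^w)^M}` and `{z | ‖z‖² ≤ (q^(w-2))^M}`.  For `V` and for `W`: by `WM`,
`ker N ⊆ im E0` and `N im E0 = im E2` (weights `w + j`, `j ≤ 0`, to weights `w + j`, `j ≤ -2`; a vector
of weight `w - j`, `j ≥ 2`, is `N^j x = N (N^(j-1) x)`, and for `ker N`: `N^j` is injective in weight
`w + j`, `j ≥ 1`).  `R` preserves `im E0`, `im E2`: `σ⁻¹ ^ k` commutes with `σ⁻¹ ^ M`; STAB for `τ` with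
`B = ρ(σ⁻¹ ^ M)`, `Q = q^M`.  `N R = q^k R N`.  TRK gives `tr (R Π) = tr (R E0) - q^k tr (R E2)`, and
`tr (R_V E0) - tr (R_W E0) = T(σ⁻¹ ^ k τ)`, `tr (R_V E2) - tr (R_W E2) = 0` as in WMT
(`‖c(σ⁻¹ ^ M)‖² = (q^w)^M`). -/
def S_KT : Prop := ∀ (G : Type) [Group G] (n m : ℕ) (V : G →* Matrix (Fin n) (Fin n) ℂ)
  (W : G →* Matrix (Fin m) (Fin m) ℂ) (c : G →* ℂ) (U : Subgroup G) (σ τ0 : G) (M q : ℕ) (w : ℤ)
  (NV : Matrix (Fin n) (Fin n) ℂ) (NW : Matrix (Fin m) (Fin m) ℂ),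
  Dat V W c U σ τ0 M q w NV NW → WM (W σ⁻¹) NW q w → IsNilpotent NV → IsNilpotent NW →
  ∀ (τ : G) (k : ℕ), NV * V τ = V τ * NV → NW * W τ = W τ * NW →
  (∃ t : ℂ, V (τ⁻¹ * (σ⁻¹ ^ M * τ)) = V (σ⁻¹ ^ M) * IsNilpotent.exp (t • NV)) →
  (∃ t : ℂ, W (τ⁻¹ * (σ⁻¹ ^ M * τ)) = W (σ⁻¹ ^ M) * IsNilpotent.exp (t • NW)) →
  ∀ (PV : Matrix (Fin n) (Fin n) ℂ) (PW : Matrix (Fin m) (Fin m) ℂ), NV * PV = 0 → NW * PW = 0 →
  (∀ x, NV *ᵥ x = 0 → PV *ᵥ x = x) → (∀ x, NW *ᵥ x = 0 → PW *ᵥ x = x) →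
  (V (σ⁻¹ ^ k * τ) * PV).trace - (W (σ⁻¹ ^ k * τ) * PW).trace =
    (V (σ⁻¹ ^ k * τ)).trace - (W (σ⁻¹ ^ k * τ)).trace

end Pool.Agent.J6H90.WT
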