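import Pool.Agent.J6H90.WT.Stm
import Pool.Agent.R401.Tr10

/-!
# Project WT (MP_898f40_nt): arithmetic part of the blueprint

Tame inertia is procyclic, and the logarithms of unipotent inertia elements.
-/

set_option autoImplicit false

open Matrix Polynomial NumberField Filter Topology Pool.Agent.W401.Cheb Pool.Agent.W569.FM

namespace Pool.Agent.J6H90.WT

/-- CYCFIN.  The image of the inertia group in a finite `p`-group is cyclic, `p` not the residue
characteristic `l`.  Proof: as in `Pool.Agent.W99.UF.gen` (`Pool/Agent/W99/UF/TameN.lean`) choose a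
finite normal `L` over `F` with `L.fixingSubgroup` inside the image of `f.ker`, `P0 = P ∩ 𝓞 L`, `r` the
restriction to `L`.  For `τ ∈ H` in the inertia group at `P`, `r τ` is in the inertia group at `P0`;
`θ(τ) ∈ 𝓞 L / P0` is its multiplier on a uniformizer (`exists_unif`, `mult_all`, cf. the homomorphism
`f` in `tame_cyclic`, file `Pool/Agent/W258/FM/TameFin.lean`), `θ` is a homomorphism from
`H ∩ I_P` to the units of the finite field `𝓞 L / P0` (or: the image is a subgroup of a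
cyclic group, `isCyclic_of_injective_ringHom`).  If `θ(τ) = 1` then `(r τ) ^ (l ^ a) = 1` (end of the
proof of `Pool.Agent.W880.UF2.wild_gen`), so `f τ = 1` (end of the proof of `gen`).  Take for `g` an
element such that `θ(g)` generates the image of `θ`. -/
def S_CYCFIN : Prop := ∀ (F : Type) [Field F] [NumberField F] (p l : ℕ), p.Prime → l.Prime →
  p ≠ l → ∀ (H : Subgroup (GF F)) [H.Normal], IsOpen (H : Set (GF F)) →
  ∀ (E : Type) [Group E], IsPGroup p E → ∀ f : H →* E, IsOpen (f.ker : Set H) →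
  ∀ P : Ideal (OO F), P.IsMaximal → (l : OO F) ∈ P →
  ∃ g : H, InInertia P (g : GF F) ∧ ∀ τ : H, InInertia P (τ : GF F) → ∃ k : ℕ, f τ = f g ^ k

/-- CYC (from `S_CYCFIN`, `S_LOG`).  `J = H ∩ I_P` is compact.  For every `k` there is, as in the proof of
`Pool.Agent.R401.Tr9.tame_rel'`, an open normal subgroup `W_k = ker ρ ⊔ U_k` of `GK K` such that
`‖ρ x - 1‖ < 1/k` on `W_k` and such that the image of `H` in `GK K ⧸ W_k` is an `ℓ`-group; CYCFIN
gives `g_k ∈ J` such that for every `τ ∈ J` there is `j_k` with `ρ τ = ρ(g_k)^(j_k) ε_k`, `‖ε_k - 1‖ < 1/k`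
(choose `U_k` small, `ρ` of `W_k` is `ρ` of `U_k`).  A subsequence (or an ultrafilter, a cluster point)
of `g_k` tends to `τ0 ∈ J` (`J` is closed: inertia is a closed condition).  `N_k = L(ρ g_k) → N0 = L(ρ τ0)`
(`S_LOG`, polynomials are continuous), `ρ(g_k)^(j_k) = exp (j_k N_k)`, and `j_k → c` in `ℤ_ℓ` along a
further subsequence, so `ρ τ = exp (c N0)` (`exp` of nilpotent matrices is a polynomial).  If you
prefer: use an ultrafilter on `ℕ` instead of subsequences. -/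
def S_CYC : Prop := ∀ (K : Type) [Field K] [NumberField K] (ℓ : ℕ) [Fact ℓ.Prime] (ι : Type)
  [Fintype ι] [DecidableEq ι] (ρ : GK K →* Matrix ι ι ℚ_[ℓ]), Continuous ρ →
  ∀ (H : Subgroup (GK K)) [H.Normal], IsOpen (H : Set (GK K)) →
  (∀ x ∈ H, Tendsto (fun k : ℕ => ρ x ^ (ℓ ^ k)) atTop (𝓝 1)) →
  ∀ P : Ideal (OO K), P.IsMaximal → (ℓ : OO K) ∉ P →
  (∀ τ ∈ H, InInertia P τ → IsNilpotent (ρ τ - 1)) →
  ∃ τ0 ∈ H, InInertia P τ0 ∧ ∀ N0 : Matrix ι ι ℚ_[ℓ], IsNilpotent N0 →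
    IsNilpotent.exp N0 = ρ τ0 → ∀ τ ∈ H, InInertia P τ →
      ∃ c : ℚ_[ℓ], ρ τ = IsNilpotent.exp (c • N0)

/-- REL (from `S_LOG`; `Pool.Agent.R401.Tr9.tame_rel'`).  `ρ(σ) exp(N) ρ(σ)⁻¹ = exp(N)^q = exp(q N)`;
logarithms are unique, so `ρ(σ) N ρ(σ)⁻¹ = q N`.  Second assertion: `σ τ` is a Frobenius
element, too. -/
def S_REL : Prop := ∀ (K : Type) [Field K] [NumberField K] (ℓ : ℕ) [Fact ℓ.Prime] (n : ℕ)
  (ρ : GK K →* Matrix (Fin n) (Fin n) ℚ_[ℓ]), Continuous ρ →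
  ∀ (H : Subgroup (GK K)) [H.Normal], IsOpen (H : Set (GK K)) →
  (∀ x ∈ H, Tendsto (fun k : ℕ => ρ x ^ (ℓ ^ k)) atTop (𝓝 1)) →
  ∀ (P : Ideal (OO K)) (q : ℕ) (σ τ0 : GK K) (N : Matrix (Fin n) (Fin n) ℚ_[ℓ]), P.IsMaximal →
  (ℓ : OO K) ∉ P → 1 ≤ q → FrobAt q P σ → τ0 ∈ H → InInertia P τ0 → IsNilpotent N →
  IsNilpotent.exp N = ρ τ0 →
  N * ρ σ⁻¹ = (q : ℚ_[ℓ]) • (ρ σ⁻¹ * N) ∧ ∀ τ, InInertia P τ → N * ρ τ = ρ τ * N

end Pool.Agent.J6H90.WT
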