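import Pool.Agent.J6H90.WT.Cmp

/-!
# Project WT: the traces on the inertia invariants
-/

set_option autoImplicit false

namespace Pool.Agent.J6H90.WT

open NumberField Filter Topology Pool.Agent.W401.Cheb Pool.Agent.W569.FM
open Pool.Agent.R401.Tr3 Pool.Agent.R401.Tr5 Pool.Agent.R401.Sup3 Pool.Agent.R401.Sup4
open Pool.Agent.R401.Sup (c_ne c_inv)
open Polynomial Matrix

set_option linter.unusedSectionVars false

variable {K : Type} [Field K] [NumberField K] {ℓ : ℕ} [Fact ℓ.Prime]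

section proj

variable {n : ℕ} (ρ : GK K →* Matrix (Fin n) (Fin n) ℚ_[ℓ]) (H : Subgroup (GK K)) (P : Ideal (OO K))

/-- the average over the inertia group -/
noncomputable def eh : Matrix (Fin n) (Fin n) ℚ_[ℓ] :=
  ((Nat.card (IG P ⧸ H.subgroupOf (IG P)) : ℚ_[ℓ])⁻¹) •
    ∑ᶠ q : IG P ⧸ H.subgroupOf (IG P), ρ ((q.out : IG P) : GK K)

theorem eh_mul_trace (hHo : IsOpen (H : Set (GK K))) (k : ℕ) (g : GK K)
    (Pi : Matrix (Fin n) (Fin n) ℚ_[ℓ]) : (ρ g ^ k * (eh ρ H P * Pi)).trace =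
    (Nat.card (IG P ⧸ H.subgroupOf (IG P)) : ℚ_[ℓ])⁻¹ *
      ∑ᶠ q : IG P ⧸ H.subgroupOf (IG P), (ρ (g ^ k * ((q.out : IG P) : GK K)) * Pi).trace := by
  classical
  have := Pool.Agent.R401.Tr6.finQ H hHo (P := P)
  have hft : Fintype (IG P ⧸ H.subgroupOf (IG P)) := Fintype.ofFinite _
  unfold eh
  rw [finsum_eq_sum_of_fintype, finsum_eq_sum_of_fintype, smul_mul_assoc, mul_smul_comm,
    Matrix.trace_smul, smul_eq_mul, Finset.sum_mul, Finset.mul_sum, Matrix.trace_sum]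
  congr 1
  refine Finset.sum_congr rfl fun x _ => ?_
  rw [map_mul, map_pow, mul_assoc]

variable {ρ H P} {N S : Matrix (Fin n) (Fin n) ℚ_[ℓ]} {τ0 : GK K} (hexpk : S_EXPK)
  (hHo : IsOpen (H : Set (GK K))) (hN : IsNilpotent N) (hS : N * S * N = N) (hτ0I : InInertia P τ0)
  (hτ0e : ρ τ0 = IsNilpotent.exp N)
  (hall : ∀ τ ∈ H, InInertia P τ → ∃ t : ℚ_[ℓ], ρ τ = IsNilpotent.exp (t • N))
  {I : Submodule ℚ_[ℓ] (Fin n → ℚ_[ℓ])} (hI : ∀ x, x ∈ I ↔ ∀ τ, InInertia P τ → ρ τ *ᵥ x = x)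

include hexpk hN hall in
theorem fix_ker {x : Fin n → ℚ_[ℓ]} (hx : N *ᵥ x = 0) {τ : GK K} (hτ : τ ∈ H)
    (hτI : InInertia P τ) : ρ τ *ᵥ x = x := by
  obtain ⟨t, ht⟩ := hall τ hτ hτI
  rw [ht, hexpk ℚ_[ℓ] (Fin n) (t • N) (hN.smul t), Matrix.smul_mulVec, hx, smul_zero]

include hexpk hN hτ0I hτ0e hI in
theorem ker_of_inv {x : Fin n → ℚ_[ℓ]} (hx : x ∈ I) : N *ᵥ x = 0 := by
  have h1 := (hI x).1 hx τ0 hτ0I
  rw [hτ0e] at h1
  exact (hexpk ℚ_[ℓ] (Fin n) N hN x).1 h1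

include hexpk hHo hN hall in
theorem eh_fix {x : Fin n → ℚ_[ℓ]} (hx : N *ᵥ x = 0) {τ : GK K} (hτ : InInertia P τ) :
    ρ τ *ᵥ (eh ρ H P *ᵥ x) = eh ρ H P *ᵥ x := by
  classical
  have := Pool.Agent.R401.Tr6.finQ H hHo (P := P)
  have hft : Fintype (IG P ⧸ H.subgroupOf (IG P)) := Fintype.ofFinite _
  have hout : ∀ a b : IG P, (a : IG P ⧸ H.subgroupOf (IG P)) = b →
      ρ (a : GK K) *ᵥ x = ρ (b : GK K) *ᵥ x := by
    intro a b hab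
    have h1 := QuotientGroup.eq.1 hab
    rw [Subgroup.mem_subgroupOf] at h1
    have h3 : (b : GK K) = (a : GK K) * ((a⁻¹ * b : IG P) : GK K) := by
      rw [Subgroup.coe_mul, Subgroup.coe_inv, mul_inv_cancel_left]
    rw [h3, map_mul, ← Matrix.mulVec_mulVec, fix_ker hexpk hN hall hx h1 (a⁻¹ * b).2]
  unfold eh
  rw [finsum_eq_sum_of_fintype, Matrix.smul_mulVec, Matrix.mulVec_smul, Matrix.sum_mulVec,
    Matrix.mulVec_sum]
  congr 1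
  let t : IG P := ⟨τ, hτ⟩
  conv_rhs => rw [← Equiv.sum_comp (MulAction.toPerm t : Equiv.Perm (IG P ⧸ H.subgroupOf (IG P)))]
  refine Finset.sum_congr rfl fun q _ => ?_
  rw [Matrix.mulVec_mulVec, ← map_mul]
  have h1 : τ * ((q.out : IG P) : GK K) = ((t * q.out : IG P) : GK K) := rfl
  rw [h1]
  apply hout
  rw [MulAction.toPerm_apply]
  have h2 : (((t • q).out : IG P) : IG P ⧸ H.subgroupOf (IG P)) = t • q := Quotient.out_eq _
  rw [h2]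
  conv_rhs => rw [← Quotient.out_eq q]
  rfl

include hexpk hHo hN hS hall hI in
theorem proj_mem (x : Fin n → ℚ_[ℓ]) : (eh ρ H P * (1 - S * N)) *ᵥ x ∈ I := by
  rw [hI]
  intro τ hτ
  rw [← Matrix.mulVec_mulVec]
  apply eh_fix hexpk hHo hN hall _ hτ
  rw [Matrix.mulVec_mulVec, mul_sub, mul_one, ← mul_assoc, hS, sub_self, Matrix.zero_mulVec]

include hexpk hHo hN hτ0I hτ0e hI in
theorem proj_fix (x : Fin n → ℚ_[ℓ]) (hx : x ∈ I) : (eh ρ H P * (1 - S * N)) *ᵥ x = x := by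
  classical
  have := Pool.Agent.R401.Tr6.finQ H hHo (P := P)
  have hft : Fintype (IG P ⧸ H.subgroupOf (IG P)) := Fintype.ofFinite _
  have hx0 := ker_of_inv hexpk hN hτ0I hτ0e hI hx
  rw [← Matrix.mulVec_mulVec, Matrix.sub_mulVec, Matrix.one_mulVec, ← Matrix.mulVec_mulVec, hx0,
    Matrix.mulVec_zero, sub_zero]
  unfold eh
  rw [Matrix.smul_mulVec, finsum_eq_sum_of_fintype, Matrix.sum_mulVec]
  have h1 : ∀ q : IG P ⧸ H.subgroupOf (IG P), ρ ((q.out : IG P) : GK K) *ᵥ x = x := by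
    intro q
    exact (hI x).1 hx _ q.out.2
  rw [Finset.sum_congr rfl fun q _ => h1 q, Finset.sum_const, Finset.card_univ,
    Nat.card_eq_fintype_card, ← Nat.cast_smul_eq_nsmul ℚ_[ℓ], smul_smul, inv_mul_cancel₀, one_smul]
  exact_mod_cast Fintype.card_ne_zero

end proj

section diff

variable {n m : ℕ} {V : GK K →* Matrix (Fin n) (Fin n) ℚ_[ℓ]}
  {W : GK K →* Matrix (Fin m) (Fin m) ℚ_[ℓ]}
  {u : ℤ} {φ : GK K → ℚ} {U : Subgroup (GK K)} (hUn : U.Normal)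
  (hU : ∀ x ∈ U, ∀ y, φ (x * y) = φ y)
  (hφ : ∀ y : GK K, cyc K ℓ ℚ_[ℓ] y ^ u * ((V y).trace - (W y).trace) = (φ y : ℚ_[ℓ]))
  {P : Ideal (OO K)} (hP : P.IsMaximal) {q : ℕ} (hq : 2 ≤ q) {σ : GK K} (hσ : FrobAt q P σ)
  (hℓP : (ℓ : OO K) ∉ P) {w : ℤ} (hw : w = 2 * u ∨ ∀ y, φ y = 0)
  {H : Subgroup (GK K)} {τ0 : GK K} {NV : Matrix (Fin n) (Fin n) ℚ_[ℓ]}
  {NW : Matrix (Fin m) (Fin m) ℚ_[ℓ]} (hHU : H ≤ U) (h : LD V W w q P H τ0 NV NW)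
  (hnd : ∀ z ∈ Submodule.span ℚ_[ℓ] (Set.range W), (∀ g, (z * W g).trace = 0) → z = 0)

include hUn hU hφ hP hq hσ hℓP hw hHU h hnd in
theorem tr_diff (hbc : S_BC) (hkt : S_KT) (e : ℚ_[ℓ] →+* ℂ)
    {SV : Matrix (Fin n) (Fin n) ℚ_[ℓ]} {SW : Matrix (Fin m) (Fin m) ℚ_[ℓ]}
    (hSV : NV * SV * NV = NV) (hSW : NW * SW * NW = NW) (k : ℕ) :
    (V σ⁻¹ ^ k * (eh V H P * (1 - SV * NV))).trace -
      (W σ⁻¹ ^ k * (eh W H P * (1 - SW * NW))).trace =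
    (Pool.Agent.R401.Tr6.sk φ U P ((q : ℚ) ^ u) σ⁻¹ k : ℚ_[ℓ]) := by
  classical
  have := Pool.Agent.R401.Tr6.finQ H h.hHo (P := P)
  have hft : Fintype (IG P ⧸ H.subgroupOf (IG P)) := Fintype.ofFinite _
  have hc := Pool.Agent.R401.Tr9.cyc_sigma (ℓ := ℓ) hP hσ hℓP
  have hc0 : (q : ℚ_[ℓ]) ≠ 0 := by
    rw [← hc]
    exact c_ne _ _
  rw [eh_mul_trace V H P h.hHo, eh_mul_trace W H P h.hHo, ← mul_sub, finsum_eq_sum_of_fintype,
    finsum_eq_sum_of_fintype, ← Finset.sum_sub_distrib]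
  have h1 : ∀ x : IG P ⧸ H.subgroupOf (IG P),
      (V (σ⁻¹ ^ k * ((x.out : IG P) : GK K)) * (1 - SV * NV)).trace -
      (W (σ⁻¹ ^ k * ((x.out : IG P) : GK K)) * (1 - SW * NW)).trace =
      ((q : ℚ_[ℓ]) ^ u) ^ k * (φ (σ⁻¹ ^ k * ((x.out : IG P) : GK K)) : ℚ_[ℓ]) := by
    intro x
    rw [kt_local hU hφ hP hq hσ hℓP hw hHU h hnd hbc hkt e hSV hSW x.out.2 k]
    have h2 := hφ (σ⁻¹ ^ k * ((x.out : IG P) : GK K))
    rw [map_mul, cyc_inertia hP hℓP hσ x.out.2, mul_one, map_pow, c_inv, hc, ← zpow_natCast,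
      _root_.zpow_comm, _root_.inv_zpow, _root_.inv_zpow, zpow_natCast] at h2
    have h3 : ((q : ℚ_[ℓ]) ^ u) ^ k ≠ 0 := pow_ne_zero _ (zpow_ne_zero _ hc0)
    rw [← h2, ← mul_assoc, mul_inv_cancel₀ h3, one_mul]
  rw [Finset.sum_congr rfl fun x _ => h1 x, ← Finset.mul_sum]
  have h2 := avg (A := H.subgroupOf (IG P)) (B := U.subgroupOf (IG P))
    (fun x hx => by rw [Subgroup.mem_subgroupOf] at hx ⊢; exact hHU hx) (fun x : IG P => φ (σ⁻¹ ^ k * (x : GK K))) (by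
      intro x b hb
      rw [Subgroup.mem_subgroupOf] at hb
      have h3 : σ⁻¹ ^ k * ((x * b : IG P) : GK K) =
          ((σ⁻¹ ^ k * (x : GK K)) * (b : GK K) * (σ⁻¹ ^ k * (x : GK K))⁻¹) *
            (σ⁻¹ ^ k * (x : GK K)) := by
        rw [Subgroup.coe_mul]
        group
      change φ (σ⁻¹ ^ k * ((x * b : IG P) : GK K)) = φ (σ⁻¹ ^ k * (x : GK K))
      rw [h3]
      exact hU _ (hUn.conj_mem _ hb _) _)
  unfold Pool.Agent.R401.Tr6.sk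
  rw [← h2, finsum_eq_sum_of_fintype]
  push_cast
  ring

end diff

end Pool.Agent.J6H90.WT
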